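import Mathlib

/-! LEMMA D (density), module Alp: choice of the phase.

`exists_alpha`. PROOF. For one `v ≠ 0`, `v = ‖v‖ e^{iθ}`: `|Im (v e^{-iα})| = ‖v‖ |sin (θ - α)|`. Let
`δ = φ / (8 (n + 1))`, `n` the number of indices. `|sin t| ≥ (2/π) dist (t, π ℤ)`, so
`{α ∈ (π - 2φ, π) : |sin (θ - α)| < δ}` is contained in the union of the intervals
`(θ + m π - π δ / 2, θ + m π + π δ / 2)`, `m ∈ ℤ`, of which at most two meet the interval
`(π - 2φ, π)` of length `≤ π` (or: `α ↦ sin (θ - α)` and periodicity): measure `≤ 2 π δ`. All the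
`n` sets have measure `≤ 2 π n δ < 2 φ = volume (Ioo (π - 2φ) π)`, and the countable set `N` has
measure `0`: some `α` is left. In fact the remaining set has positive measure, so it is uncountable. -/

open Complex Metric Set MeasureTheory

namespace MP_ae5b4e_LD

private theorem alp_a {y δ : ℝ} (h0 : 0 ≤ y) (h1 : y ≤ Real.pi) (h : |Real.sin y| < δ) :
    y < Real.pi * δ / 2 ∨ Real.pi - y < Real.pi * δ / 2 := by
  have hpi := Real.pi_pos
  have hs := le_abs_self (Real.sin y)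
  rcases le_total y (Real.pi / 2) with h2 | h2
  · left
    have h3 := Real.mul_le_sin h0 h2
    have h4 : 2 / Real.pi * y < δ := by linarith
    rw [div_mul_eq_mul_div, div_lt_iff₀ hpi] at h4
    linarith
  · right
    have h3 := Real.mul_le_sin (x := Real.pi - y) (by linarith) (by linarith)
    rw [Real.sin_pi_sub] at h3
    have h4 : 2 / Real.pi * (Real.pi - y) < δ := by linarith
    rw [div_mul_eq_mul_div, div_lt_iff₀ hpi] at h4
    linarith

private theorem alp_b {θ α δ : ℝ} (hα : 0 < α) (hα2 : α < Real.pi)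
    (h : |Real.sin (θ - α)| < δ) :
    ∃ j : Fin 3, |α - (θ - ((⌊(θ - Real.pi) / Real.pi⌋ : ℝ) + (j : ℕ)) * Real.pi)| <
      Real.pi * δ / 2 := by
  have hpi := Real.pi_pos
  set m : ℤ := ⌊(θ - Real.pi) / Real.pi⌋ with hm
  have h1 : (m : ℝ) * Real.pi ≤ θ - Real.pi := by
    rw [← le_div_iff₀ hpi]; exact Int.floor_le _
  have h2 : θ - Real.pi < ((m : ℝ) + 1) * Real.pi := by
    rw [← div_lt_iff₀ hpi]; exact Int.lt_floor_add_one _
  have hsin : |Real.sin (θ - α - m * Real.pi)| < δ := by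
    rw [Real.sin_sub_int_mul_pi, abs_mul, abs_zpow, abs_neg, abs_one, one_zpow, one_mul]
    exact h
  set y : ℝ := θ - α - m * Real.pi with hy
  rcases le_total y Real.pi with h3 | h3
  · rcases alp_a (by linarith) h3 hsin with h4 | h4
    · refine ⟨0, ?_⟩
      rw [abs_lt]
      constructor <;> simp <;> linarith
    · refine ⟨1, ?_⟩
      rw [abs_lt]
      constructor <;> simp <;> linarith
  · have hsin2 : |Real.sin (y - Real.pi)| < δ := by
      rw [Real.sin_sub_pi, abs_neg]; exact hsin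
    rcases alp_a (y := y - Real.pi) (by linarith) (by linarith) hsin2 with h4 | h4
    · refine ⟨1, ?_⟩
      rw [abs_lt]
      constructor <;> simp <;> linarith
    · refine ⟨2, ?_⟩
      rw [abs_lt]
      constructor <;> simp <;> linarith

private theorem alp_im (v : ℂ) (α : ℝ) :
    (v * exp (-(α : ℂ) * I)).im = ‖v‖ * Real.sin (arg v - α) := by
  have h1 : v * exp (-(α : ℂ) * I) = (‖v‖ : ℂ) * exp (((arg v - α : ℝ) : ℂ) * I) := by
    conv_lhs => rw [← Complex.norm_mul_exp_arg_mul_I v]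
    rw [mul_assoc, ← Complex.exp_add]
    congr 2
    push_cast
    ring
  rw [h1, Complex.im_ofReal_mul, Complex.exp_ofReal_mul_I_im]

theorem alpha_measure {φ : ℝ} (hφ : 0 < φ) (hφ2 : φ ≤ Real.pi / 2)
    {ι : Type*} [Fintype ι] (v : ι → ℂ) :
    0 < volume {α : ℝ | Real.pi - 2 * φ < α ∧ α < Real.pi ∧
      ∀ i, φ / (8 * ((Fintype.card ι : ℝ) + 1)) * ‖v i‖ ≤ |(v i * exp (-(α : ℂ) * I)).im|} := by
  have hpi := Real.pi_pos
  have hpi4 := Real.pi_lt_four
  set n : ℝ := (Fintype.card ι : ℝ) with hn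
  have hn0 : 0 ≤ n := Nat.cast_nonneg _
  set δ : ℝ := φ / (8 * (n + 1)) with hδ
  have hδ0 : 0 < δ := by positivity
  set G : Set ℝ := {α : ℝ | Real.pi - 2 * φ < α ∧ α < Real.pi ∧
      ∀ i, δ * ‖v i‖ ≤ |(v i * exp (-(α : ℂ) * I)).im|} with hG
  set c : ι → Fin 3 → ℝ := fun i j =>
    arg (v i) - ((⌊(arg (v i) - Real.pi) / Real.pi⌋ : ℝ) + (j : ℕ)) * Real.pi with hc
  have hcov : Ioo (Real.pi - 2 * φ) Real.pi ⊆
      G ∪ ⋃ u : ι × Fin 3, ball (c u.1 u.2) (Real.pi * δ / 2) := by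
    intro α hα
    by_cases hg : α ∈ G
    · exact Or.inl hg
    · right
      have h1 : ∃ i, ¬ δ * ‖v i‖ ≤ |(v i * exp (-(α : ℂ) * I)).im| := by
        by_contra hcon
        push Not at hcon
        exact hg ⟨hα.1, hα.2, hcon⟩
      obtain ⟨i, hi⟩ := h1
      push Not at hi
      rw [alp_im, abs_mul, abs_norm] at hi
      have hv0 : 0 < ‖v i‖ := by
        rcases (norm_nonneg (v i)).lt_or_eq with h2 | h2
        · exact h2
        · rw [← h2] at hi
          simp at hi
      have h3 : |Real.sin (arg (v i) - α)| < δ := by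
        rw [mul_comm δ] at hi
        exact lt_of_mul_lt_mul_left hi hv0.le
      obtain ⟨j, hj⟩ := alp_b (by linarith [hα.1]) hα.2 h3
      rw [mem_iUnion]
      refine ⟨(i, j), ?_⟩
      rw [mem_ball, Real.dist_eq]
      exact hj
  by_contra hcon
  have hG0 : volume G = 0 := by
    by_contra h
    exact hcon (pos_iff_ne_zero.2 h)
  have h1 : volume (Ioo (Real.pi - 2 * φ) Real.pi) ≤
      ∑ _u : ι × Fin 3, ENNReal.ofReal (Real.pi * δ) := by
    calc volume (Ioo (Real.pi - 2 * φ) Real.pi)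
        ≤ volume (G ∪ ⋃ u : ι × Fin 3, ball (c u.1 u.2) (Real.pi * δ / 2)) := measure_mono hcov
      _ ≤ volume G + volume (⋃ u : ι × Fin 3, ball (c u.1 u.2) (Real.pi * δ / 2)) :=
          measure_union_le _ _
      _ = volume (⋃ u : ι × Fin 3, ball (c u.1 u.2) (Real.pi * δ / 2)) := by rw [hG0, zero_add]
      _ ≤ ∑ u : ι × Fin 3, volume (ball (c u.1 u.2) (Real.pi * δ / 2)) :=
          measure_iUnion_fintype_le _ _
      _ = ∑ _u : ι × Fin 3, ENNReal.ofReal (Real.pi * δ) := by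
          refine Finset.sum_congr rfl fun u _ => ?_
          rw [Real.volume_ball]
          congr 1
          ring
  rw [Real.volume_Ioo, Finset.sum_const, Finset.card_univ, Fintype.card_prod, Fintype.card_fin,
    nsmul_eq_mul, ← ENNReal.ofReal_natCast, ← ENNReal.ofReal_mul (Nat.cast_nonneg _),
    ENNReal.ofReal_le_ofReal_iff (by positivity)] at h1
  push_cast at h1
  rw [← hn] at h1
  have h2 : n * 3 * (Real.pi * δ) ≤ 3 / 8 * Real.pi * φ := by
    rw [hδ]
    have h3 : n / (n + 1) ≤ 1 := (div_le_one (by positivity)).2 (by linarith)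
    have h4 : n * 3 * (Real.pi * (φ / (8 * (n + 1)))) = 3 / 8 * Real.pi * φ * (n / (n + 1)) := by
      field_simp
    rw [h4]
    have h5 : 0 ≤ 3 / 8 * Real.pi * φ := by positivity
    nlinarith
  nlinarith

theorem exists_alpha {φ : ℝ} (hφ : 0 < φ) (hφ2 : φ ≤ Real.pi / 2) {N : Set ℝ} (hN : N.Countable)
    {ι : Type*} [Fintype ι] (v : ι → ℂ) :
    ∃ α : ℝ, Real.pi - 2 * φ < α ∧ α < Real.pi ∧ α ∉ N ∧
      ∀ i, φ / (8 * ((Fintype.card ι : ℝ) + 1)) * ‖v i‖ ≤ |(v i * exp (-(α : ℂ) * I)).im| := by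
  have h1 := alpha_measure hφ hφ2 v
  by_contra hcon
  push Not at hcon
  have h2 : {α : ℝ | Real.pi - 2 * φ < α ∧ α < Real.pi ∧
      ∀ i, φ / (8 * ((Fintype.card ι : ℝ) + 1)) * ‖v i‖ ≤
        |(v i * exp (-(α : ℂ) * I)).im|} ⊆ N := by
    intro α hα
    by_contra hN'
    obtain ⟨i, hi⟩ := hcon α hα.1 hα.2.1 hN'
    exact absurd (hα.2.2 i) (not_le.2 hi)
  exact h1.ne' (measure_mono_null h2 (hN.measure_zero volume))

end MP_ae5b4e_LD
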