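import Mathlib

/-! THEOREM B', module Area: change of variables for injective complex differentiable maps.

`area`. PROOF. `MeasureTheory.lintegral_image_eq_lintegral_abs_det_fderiv_mul` with
`f' z` = the real linear map `w ↦ f' z * w` of `ℂ` (`HasDerivWithinAt.hasFDerivWithinAt`
restricted to
scalars `ℝ`); its determinant is `‖f' z‖ ^ 2` (matrix `!![a, -b; b, a]` in the basis `1, I`:
`Complex.basisOneI`, or `LinearMap.det_restrictScalars`/`Algebra.norm_complex_eq`). -/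

open Complex Set MeasureTheory
open scoped ENNReal

namespace MP_ae5b4e_LD

private theorem Area_det (c : ℂ) :
    (((1 : ℂ →L[ℂ] ℂ).smulRight c).restrictScalars ℝ).det = ‖c‖ ^ 2 := by
  have h1 : ((((1 : ℂ →L[ℂ] ℂ).smulRight c).restrictScalars ℝ : ℂ →L[ℝ] ℂ) : ℂ →ₗ[ℝ] ℂ) =
      Algebra.lmul ℝ ℂ c := by
    refine LinearMap.ext fun z => ?_
    change z • c = c * z
    rw [smul_eq_mul, mul_comm]
  change LinearMap.det ((((1 : ℂ →L[ℂ] ℂ).smulRight c).restrictScalars ℝ : ℂ →L[ℝ] ℂ) :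
    ℂ →ₗ[ℝ] ℂ) = _
  rw [h1, ← Algebra.norm_apply, Algebra.norm_complex_apply, Complex.normSq_eq_norm_sq]

theorem area {A : Set ℂ} (hA : MeasurableSet A) {f f' : ℂ → ℂ}
    (hf : ∀ z ∈ A, HasDerivWithinAt f (f' z) A z) (hinj : InjOn f A) (g : ℂ → ℝ≥0∞) :
    ∫⁻ z in f '' A, g z = ∫⁻ z in A, ENNReal.ofReal (‖f' z‖ ^ 2) * g (f z) := by
  rw [lintegral_image_eq_lintegral_abs_det_fderiv_mul volume hA
    (f' := fun z => ((1 : ℂ →L[ℂ] ℂ).smulRight (f' z)).restrictScalars ℝ)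
    (fun z hz => ((hf z hz).hasFDerivWithinAt).restrictScalars ℝ) hinj g]
  refine lintegral_congr fun z => ?_
  rw [Area_det, abs_of_nonneg (sq_nonneg _)]

end MP_ae5b4e_LD
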