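import Mathlib

/-! LEMMA D (density), module Asy: choice of the parameters (real analysis only).

`asy`. PROOF. Put `ℓ = 1 + log D`, `s = A ℓ` (`A ≥ 1` large, fixed; `D → ∞` afterwards),
`n = ⌈12 D / s⌉₊`, `K` = the least natural number `≥ 1` with `s ≤ (7/6) d0 (4/3)^(K-1)`, `J = ⌊D/(8 (2X+3))⌋₊`.
For `D` large: `s ≤ 3 D / 8`, `12 D/s ≤ n ≤ 24 D/s`, `K ≥ 2` and by minimality
`(7/6) d0 (4/3)^(K-2) < s`, i.e. `d0 (4/3)^(K-1) < (8/7) s ≤ (4/3) s`; `K ≤ C (1 + log s)`;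
`J (2X+3) + X ≤ D/8 + X ≤ D/4`, `J ≥ D/(16 (2X+3))`. Write `L = log M - log c + B log D ≤ C ℓ` and
`ld = log (8 (n + 2K + 1)/φ) ≤ C ℓ` (as `n + 2K + 1 ≤ C D`), `C` independent of `A` for `D ≥ D(A)`. Then
`n (log M + ld + 2 π L) ≤ (24 D/(A ℓ)) C ℓ = C' D / A` and
`2K (log M + ld + 32 π K (L + 1)) ≤ C (1 + log s)^2 ℓ = o(D)`. Choose `A` with
`N1 C' / A < (log 2)/(64 (2X+3))`, then `D` large. -/

namespace MP_ae5b4e_LD

/-- `(1 + log D) ^ 3 ≤ ε D` for large `D`. -/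
private theorem Asy_cube {ε : ℝ} (hε : 0 < ε) :
    ∀ᶠ D : ℝ in Filter.atTop, (1 + Real.log D) ^ 3 ≤ ε * D := by
  have h1 : (fun x : ℝ => Real.log x ^ 3) =o[Filter.atTop] (id : ℝ → ℝ) :=
    Real.isLittleO_pow_log_id_atTop
  have h2 := h1.def (show (0 : ℝ) < ε / 8 by positivity)
  filter_upwards [h2, Filter.eventually_ge_atTop (Real.exp 1)] with D hD hD1
  have h3 : 1 ≤ Real.log D := by
    rw [Real.le_log_iff_exp_le ((Real.exp_pos 1).trans_le hD1)]
    exact hD1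
  have hD0 : 0 < D := (Real.exp_pos 1).trans_le hD1
  simp only [id_eq, Real.norm_eq_abs, abs_of_pos hD0] at hD
  rw [abs_of_nonneg (by positivity)] at hD
  have h4 : (1 + Real.log D) ^ 3 ≤ (2 * Real.log D) ^ 3 :=
    pow_le_pow_left₀ (by linarith) (by linarith) 3
  have h5 : (2 * Real.log D) ^ 3 = 8 * Real.log D ^ 3 := by ring
  rw [h5] at h4
  linarith

/-- The choice of `K`. -/
private theorem Asy_K {d0 s A l : ℝ} (hd : 0 < d0) (hA : 1 ≤ A) (hl : 1 ≤ l) (hs : s = A * l)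
    (hsd : 7 / 6 * d0 ≤ s) : ∃ K : ℕ, 1 ≤ K ∧ s ≤ 7 / 6 * (d0 * (4 / 3 : ℝ) ^ (K - 1)) ∧
      d0 * (4 / 3 : ℝ) ^ (K - 1) ≤ 4 / 3 * s ∧ (K : ℝ) ≤ (2 + 4 * A / d0) * l := by
  have hs0 : 0 < s := by
    rw [hs]
    positivity
  have hy : 0 < 6 * s / (7 * d0) := by positivity
  have hy1 : 1 ≤ 6 * s / (7 * d0) := by
    rw [le_div_iff₀ (by positivity)]
    linarith
  have hl43 : (1 : ℝ) / 4 ≤ Real.log (4 / 3) := by
    have h1 := Real.one_sub_inv_le_log_of_pos (show (0 : ℝ) < 4 / 3 by norm_num)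
    norm_num at h1 ⊢
    linarith
  have hl0 : 0 < Real.log (4 / 3) := by linarith
  have hx : 0 ≤ Real.log (6 * s / (7 * d0)) / Real.log (4 / 3) :=
    div_nonneg (Real.log_nonneg hy1) hl0.le
  refine ⟨1 + ⌈Real.log (6 * s / (7 * d0)) / Real.log (4 / 3)⌉₊, by omega, ?_, ?_, ?_⟩
  · have h1 : 6 * s / (7 * d0) ≤
        (4 / 3 : ℝ) ^ (⌈Real.log (6 * s / (7 * d0)) / Real.log (4 / 3)⌉₊) := by
      rw [← Real.log_le_log_iff hy (by positivity), Real.log_pow]
      have h2 := Nat.le_ceil (Real.log (6 * s / (7 * d0)) / Real.log (4 / 3))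
      rwa [div_le_iff₀ hl0] at h2
    rw [Nat.add_sub_cancel_left]
    rw [div_le_iff₀ (by positivity)] at h1
    linarith
  · have h1 : (4 / 3 : ℝ) ^ (⌈Real.log (6 * s / (7 * d0)) / Real.log (4 / 3)⌉₊) ≤
        4 / 3 * (6 * s / (7 * d0)) := by
      rw [← Real.log_le_log_iff (by positivity) (by positivity), Real.log_pow,
        Real.log_mul (by norm_num) hy.ne']
      have h2 := (Nat.ceil_lt_add_one hx).le
      have h3 := mul_le_mul_of_nonneg_right h2 hl0.le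
      rw [add_mul, div_mul_cancel₀ _ hl0.ne', one_mul] at h3
      linarith
    rw [Nat.add_sub_cancel_left]
    have h2 := mul_le_mul_of_nonneg_left h1 hd.le
    have h3 : d0 * (4 / 3 * (6 * s / (7 * d0))) = 8 / 7 * s := by
      field_simp
      ring
    rw [h3] at h2
    linarith
  · have h2 := (Nat.ceil_lt_add_one hx).le
    have h3 : Real.log (6 * s / (7 * d0)) ≤ 6 * s / (7 * d0) := by
      have h4 := Real.log_le_sub_one_of_pos hy
      linarith
    have h4 : Real.log (6 * s / (7 * d0)) / Real.log (4 / 3) ≤ 4 * (6 * s / (7 * d0)) := by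
      rw [div_le_iff₀ hl0]
      have h5 : 6 * s / (7 * d0) ≤ 4 * (6 * s / (7 * d0)) * (1 / 4) := by linarith
      have h6 := mul_le_mul_of_nonneg_left hl43 (show 0 ≤ 4 * (6 * s / (7 * d0)) by positivity)
      linarith
    have h5 : 4 * (6 * s / (7 * d0)) ≤ 4 * A / d0 * l := by
      rw [hs]
      have h6 : 4 * (6 * (A * l) / (7 * d0)) = 24 / 7 * (A * l / d0) := by
        field_simp
        ring
      have h7 : 4 * A / d0 * l = 4 * (A * l / d0) := by
        field_simp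
      rw [h6, h7]
      have h8 : 0 ≤ A * l / d0 := by positivity
      linarith
    push_cast
    linarith

theorem asy {d0 M c B φ X N1 : ℝ} (hd : 0 < d0) (hM : 1 ≤ M) (hc : 0 < c) (hB : 0 ≤ B)
    (hφ : 0 < φ) (hX : 0 ≤ X) (hN : 0 ≤ N1) (D1 s1 : ℝ) :
    ∃ (D s : ℝ) (n K J : ℕ), D1 ≤ D ∧ s1 ≤ s ∧ d0 ≤ s ∧ s ≤ 3 * D / 8 ∧ 0 < n ∧
      12 * D / s ≤ n ∧ 1 ≤ K ∧ s ≤ 7 / 6 * (d0 * (4 / 3 : ℝ) ^ (K - 1)) ∧
      d0 * (4 / 3 : ℝ) ^ (K - 1) ≤ 4 / 3 * s ∧
      (J : ℝ) * (2 * X + 3) + X ≤ D / 4 ∧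
      N1 * (n * (Real.log M + Real.log (8 * ((n : ℝ) + 2 * K + 1) / φ)
              + 2 * Real.pi * (Real.log M - Real.log c + B * Real.log D))
            + 2 * K * (Real.log M + Real.log (8 * ((n : ℝ) + 2 * K + 1) / φ)
              + 32 * Real.pi * K * (Real.log M - Real.log c + B * Real.log D + 1)))
        < J * Real.log 2 := by
  have hpi := Real.pi_pos
  have hl2 : 0 < Real.log 2 := Real.log_pos (by norm_num)
  have hlM : 0 ≤ Real.log M := Real.log_nonneg hM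
  obtain ⟨C0, hC0⟩ : ∃ C0, C0 = |Real.log M - Real.log c| + B := ⟨_, rfl⟩
  have hC0n : 0 ≤ C0 := by
    rw [hC0]
    positivity
  obtain ⟨P, hP⟩ : ∃ P, P = |Real.log (8 / φ)| + 1 := ⟨_, rfl⟩
  have hPn : 0 ≤ P := by
    rw [hP]
    positivity
  obtain ⟨C1, hC1⟩ : ∃ C1, C1 = Real.log M + P + 2 * Real.pi * C0 := ⟨_, rfl⟩
  have hC1n : 0 ≤ C1 := by
    rw [hC1]
    positivity
  obtain ⟨C2, hC2⟩ : ∃ C2, C2 = 2 * (Real.log M + P + 32 * Real.pi * (C0 + 1)) := ⟨_, rfl⟩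
  have hC2n : 0 ≤ C2 := by
    rw [hC2]
    positivity
  obtain ⟨η, hη⟩ : ∃ η, η = Real.log 2 / (64 * (2 * X + 3)) := ⟨_, rfl⟩
  have hη0 : 0 < η := by
    rw [hη]
    positivity
  obtain ⟨A, hA⟩ : ∃ A, A = 1 + N1 * 24 * C1 / η := ⟨_, rfl⟩
  have hA1 : 1 ≤ A := by
    rw [hA]
    have : 0 ≤ N1 * 24 * C1 / η := by positivity
    linarith
  have hA2 : N1 * 24 * C1 ≤ η * A := by
    rw [hA, mul_add, mul_div_cancel₀ _ hη0.ne']
    linarith
  obtain ⟨CA, hCA⟩ : ∃ CA, CA = 2 + 4 * A / d0 := ⟨_, rfl⟩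
  have hCA0 : 0 < CA := by
    rw [hCA]
    positivity
  have e1 : 0 < 3 / (8 * A) := by positivity
  have e2 : 0 < 1 / (2 * (2 * CA + 1)) := by positivity
  have e3 : 0 < η / (2 * (N1 * C2 * CA ^ 2 + 1)) := by positivity
  have hlog : Filter.Tendsto (fun D : ℝ => A * (1 + Real.log D)) Filter.atTop Filter.atTop :=
    Filter.Tendsto.const_mul_atTop (by linarith)
      (Filter.tendsto_atTop_add_const_left _ _ Real.tendsto_log_atTop)
  obtain ⟨D, c1, c2, c3, g1, g2, g3, hD1, hDe, hDX, hDX2⟩ := ((Asy_cube e1).and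
    ((Asy_cube e2).and ((Asy_cube e3).and
    ((hlog.eventually_ge_atTop s1).and ((hlog.eventually_ge_atTop (7 / 6 * d0)).and
    ((hlog.eventually_ge_atTop 48).and ((Filter.eventually_ge_atTop D1).and
    ((Filter.eventually_ge_atTop 1).and ((Filter.eventually_ge_atTop (8 * X)).and
    (Filter.eventually_ge_atTop (16 * (2 * X + 3)))))))))))).exists
  have hD0 : 0 < D := by linarith
  have hlD : 0 ≤ Real.log D := Real.log_nonneg hDe
  obtain ⟨l, hl⟩ : ∃ l, l = 1 + Real.log D := ⟨_, rfl⟩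
  have hl1 : 1 ≤ l := by linarith
  have hl0 : 0 < l := by linarith
  rw [← hl] at c1 c2 c3 g1 g2 g3
  have hl3 : l ≤ l ^ 3 := le_self_pow₀ hl1 (by norm_num)
  obtain ⟨s, hs⟩ : ∃ s, s = A * l := ⟨_, rfl⟩
  rw [← hs] at g1 g2 g3
  have hs0 : 0 < s := by linarith
  obtain ⟨K, hK1, hK2, hK3, hK4⟩ := Asy_K hd hA1 hl1 hs g2
  rw [← hCA] at hK4
  have hK0 : (1 : ℝ) ≤ K := by exact_mod_cast hK1
  have hn0 : 0 < 12 * D / s := by positivity
  obtain ⟨n, hn⟩ : ∃ n, n = ⌈12 * D / s⌉₊ := ⟨_, rfl⟩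
  have hn1 : 12 * D / s ≤ n := by
    rw [hn]
    exact Nat.le_ceil _
  have hnpos : 0 < n := by
    rw [hn]
    exact Nat.ceil_pos.2 hn0
  have hsD : s ≤ 3 * D / 8 := by
    have h1 : l ≤ 3 / (8 * A) * D := hl3.trans c1
    have h2 := mul_le_mul_of_nonneg_left h1 (show 0 ≤ A by linarith)
    have h3 : A * (3 / (8 * A) * D) = 3 * D / 8 := by
      field_simp
    rw [h3] at h2
    rw [hs]
    exact h2
  have hn2 : (n : ℝ) ≤ 24 * D / s := by
    have h1 := (Nat.ceil_lt_add_one hn0.le).le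
    rw [← hn] at h1
    have h2 : 1 ≤ 12 * D / s := by
      rw [le_div_iff₀ hs0]
      linarith
    have h3 : 24 * D / s = 12 * D / s + 12 * D / s := by ring
    rw [h3]
    linarith
  have hn3 : (n : ℝ) ≤ D / 2 := by
    refine hn2.trans ?_
    rw [div_le_iff₀ hs0]
    nlinarith
  have hK5 : 2 * (K : ℝ) + 1 ≤ D / 2 := by
    have h1 : l ≤ 1 / (2 * (2 * CA + 1)) * D := hl3.trans c2
    have h2 := mul_le_mul_of_nonneg_left h1 (show 0 ≤ 2 * CA + 1 by linarith)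
    have h3 : (2 * CA + 1) * (1 / (2 * (2 * CA + 1)) * D) = D / 2 := by
      field_simp
    rw [h3] at h2
    linarith
  have hL : Real.log M - Real.log c + B * Real.log D ≤ C0 * l := by
    rw [hC0, hl]
    have h1 := le_abs_self (Real.log M - Real.log c)
    have h2 : 0 ≤ |Real.log M - Real.log c| * Real.log D :=
      mul_nonneg (abs_nonneg _) hlD
    linarith
  have hld : Real.log (8 * ((n : ℝ) + 2 * K + 1) / φ) ≤ P * l := by
    have h1 : 8 * ((n : ℝ) + 2 * K + 1) / φ ≤ 8 / φ * D := by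
      have h2 : 8 * ((n : ℝ) + 2 * K + 1) / φ = 8 / φ * ((n : ℝ) + 2 * K + 1) := by ring
      rw [h2]
      refine mul_le_mul_of_nonneg_left ?_ (by positivity)
      linarith
    have h2 := Real.log_le_log (by positivity) h1
    rw [Real.log_mul (by positivity) hD0.ne'] at h2
    rw [hP, hl]
    have h3 := le_abs_self (Real.log (8 / φ))
    have h4 : 0 ≤ |Real.log (8 / φ)| * Real.log D := mul_nonneg (abs_nonneg _) hlD
    linarith
  have hMl : Real.log M ≤ Real.log M * l := le_mul_of_one_le_right hlM hl1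
  have t1 : (n : ℝ) * (Real.log M + Real.log (8 * ((n : ℝ) + 2 * K + 1) / φ)
      + 2 * Real.pi * (Real.log M - Real.log c + B * Real.log D)) ≤ 24 * D * C1 / A := by
    have h1 : Real.log M + Real.log (8 * ((n : ℝ) + 2 * K + 1) / φ)
        + 2 * Real.pi * (Real.log M - Real.log c + B * Real.log D) ≤ C1 * l := by
      have h2 := mul_le_mul_of_nonneg_left hL (show 0 ≤ 2 * Real.pi by positivity)
      rw [hC1]
      linarith
    have h2 := mul_le_mul_of_nonneg_left h1 (Nat.cast_nonneg n : (0 : ℝ) ≤ n)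
    have h3 : (n : ℝ) * (C1 * l) ≤ 24 * D / s * (C1 * l) :=
      mul_le_mul_of_nonneg_right hn2 (by positivity)
    have h4 : 24 * D / s * (C1 * l) = 24 * D * C1 / A := by
      rw [hs]
      field_simp
    linarith
  have t2 : 2 * (K : ℝ) * (Real.log M + Real.log (8 * ((n : ℝ) + 2 * K + 1) / φ)
      + 32 * Real.pi * K * (Real.log M - Real.log c + B * Real.log D + 1)) ≤
      C2 * CA ^ 2 * l ^ 3 := by
    have h1 : Real.log M + Real.log (8 * ((n : ℝ) + 2 * K + 1) / φ)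
        + 32 * Real.pi * K * (Real.log M - Real.log c + B * Real.log D + 1) ≤
        C2 / 2 * l * K := by
      have h2 := mul_le_mul_of_nonneg_left
        (show Real.log M - Real.log c + B * Real.log D + 1 ≤ (C0 + 1) * l by linarith)
        (show 0 ≤ 32 * Real.pi * K by positivity)
      have h3 : (Real.log M + P) * l ≤ (Real.log M + P) * l * K :=
        le_mul_of_one_le_right (by positivity) hK0
      have h4 : C2 / 2 * l * K = (Real.log M + P) * l * K +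
          32 * Real.pi * K * ((C0 + 1) * l) := by
        rw [hC2]
        ring
      linarith
    have h2 := mul_le_mul_of_nonneg_left h1 (show 0 ≤ 2 * (K : ℝ) by positivity)
    have h3 : (K : ℝ) ^ 2 ≤ (CA * l) ^ 2 := pow_le_pow_left₀ (by linarith) hK4 2
    have h4 := mul_le_mul_of_nonneg_left h3 (show 0 ≤ C2 * l by positivity)
    have h5 : 2 * (K : ℝ) * (C2 / 2 * l * K) = C2 * l * (K : ℝ) ^ 2 := by ring
    have h6 : C2 * l * (CA * l) ^ 2 = C2 * CA ^ 2 * l ^ 3 := by ring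
    linarith
  have hX3 : 0 < 2 * X + 3 := by linarith
  have hJ0 : 0 ≤ D / (8 * (2 * X + 3)) := by positivity
  obtain ⟨J, hJ⟩ : ∃ J, J = ⌊D / (8 * (2 * X + 3))⌋₊ := ⟨_, rfl⟩
  have hJ1 : (J : ℝ) ≤ D / (8 * (2 * X + 3)) := by
    rw [hJ]
    exact Nat.floor_le hJ0
  have hJ2 : D / (16 * (2 * X + 3)) ≤ J := by
    have h1 := (Nat.sub_one_lt_floor (D / (8 * (2 * X + 3)))).le
    rw [← hJ] at h1
    have h2 : 1 ≤ D / (16 * (2 * X + 3)) := by
      rw [le_div_iff₀ (by positivity)]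
      linarith
    have h3 : D / (8 * (2 * X + 3)) = D / (16 * (2 * X + 3)) + D / (16 * (2 * X + 3)) := by
      field_simp
      ring
    linarith
  refine ⟨D, s, n, K, J, hD1, g1, by linarith, hsD, hnpos, hn1, hK1, hK2, hK3, ?_, ?_⟩
  · have h1 := mul_le_mul_of_nonneg_right hJ1 hX3.le
    have h2 : D / (8 * (2 * X + 3)) * (2 * X + 3) = D / 8 := by
      field_simp
    rw [h2] at h1
    linarith
  · have u1 : N1 * (24 * D * C1 / A) ≤ η * D := by
      have h1 : N1 * (24 * D * C1 / A) = N1 * 24 * C1 * D / A := by ring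
      rw [h1, div_le_iff₀ (by linarith)]
      have h2 := mul_le_mul_of_nonneg_right hA2 hD0.le
      linarith
    have u2 : N1 * (C2 * CA ^ 2 * l ^ 3) < η * D := by
      have h1 : N1 * C2 * CA ^ 2 * l ^ 3 ≤ (N1 * C2 * CA ^ 2 + 1) * l ^ 3 := by
        have : 0 ≤ l ^ 3 := by positivity
        linarith
      have h2 := mul_le_mul_of_nonneg_left c3 (show 0 ≤ N1 * C2 * CA ^ 2 + 1 by positivity)
      have h3 : (N1 * C2 * CA ^ 2 + 1) * (η / (2 * (N1 * C2 * CA ^ 2 + 1)) * D) =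
          η * D / 2 := by
        have : N1 * C2 * CA ^ 2 + 1 ≠ 0 := by positivity
        field_simp
      rw [h3] at h2
      have h4 : 0 < η * D := by positivity
      have h5 : N1 * (C2 * CA ^ 2 * l ^ 3) = N1 * C2 * CA ^ 2 * l ^ 3 := by ring
      linarith
    have u3 : η * D * 4 = D / (16 * (2 * X + 3)) * Real.log 2 := by
      rw [hη]
      field_simp
      ring
    have u4 := mul_le_mul_of_nonneg_right hJ2 hl2.le
    have u5 := mul_le_mul_of_nonneg_left (add_le_add t1 t2) hN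
    have u6 : 0 < η * D := by positivity
    rw [mul_add] at u5
    linarith

end MP_ae5b4e_LD
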