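import Pool.Agent.Lib.MP_ae5b4e_an_LD.Jen

/-! LEMMA D (density), module Refl: number of points of a segment at which `q` has a given argument
modulo `π`.

`line_card`: `u` a unit vector, `q` holomorphic and bounded by `M` on `ball c R`,
`δ ‖q c‖ ≤ |Im (q c e^{-iα})|`. Then a finite set `T` of reals `t`, `|t| ≤ R/3`, with
`Im (q (c + t u) e^{-iα}) = 0` satisfies `2 ^ #T * (δ ‖q c‖) ≤ M`.

PROOF. `g z = q (c + z u) e^{-iα}` and `h z = (g z - conj (g (conj z))) / (2 i)` are holomorphic on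
`ball 0 R` (`DifferentiableAt.star_star` or `HasDerivAt.conj_conj`), `‖h z‖ ≤ M`, and for real `t`:
`h t = Im (g t)`. So `T` (mapped to `ℂ`) consists of zeros of `h`, and `‖h 0‖ = |Im (q c e^{-iα})|`.
Apply `jensen_card` to `h` on `ball 0 R`. -/

open Complex Metric Set

namespace MP_ae5b4e_LD

private theorem Refl_conj {g : ℂ → ℂ} {R : ℝ} (hg : DifferentiableOn ℂ g (ball 0 R)) :
    DifferentiableOn ℂ (fun z => (starRingEnd ℂ) (g ((starRingEnd ℂ) z))) (ball 0 R) := by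
  intro z hz
  have hz' : (starRingEnd ℂ) z ∈ ball (0 : ℂ) R := by
    rw [mem_ball_zero_iff] at hz ⊢
    rwa [RCLike.norm_conj]
  have h1 : DifferentiableAt ℂ g ((starRingEnd ℂ) z) :=
    hg.differentiableAt (isOpen_ball.mem_nhds hz')
  have h2 := h1.hasDerivAt.conj_conj
  rw [RingHomCompTriple.comp_apply, RingHom.id_apply] at h2
  exact h2.differentiableAt.differentiableWithinAt

theorem line_card {q : ℂ → ℂ} {c u : ℂ} {R M δ α : ℝ} (hu : ‖u‖ = 1) (hR : 0 < R)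
    (hq : DifferentiableOn ℂ q (ball c R)) (hM : ∀ z ∈ ball c R, ‖q z‖ ≤ M)
    (hc : δ * ‖q c‖ ≤ |(q c * exp (-(α : ℂ) * I)).im|)
    (T : Finset ℝ)
    (hT : ∀ t ∈ T, |t| ≤ R / 3 ∧ (q (c + (t : ℂ) * u) * exp (-(α : ℂ) * I)).im = 0) :
    2 ^ T.card * (δ * ‖q c‖) ≤ M := by
  have hexp : ‖exp (-(α : ℂ) * I)‖ = 1 := by
    rw [show -(α : ℂ) * I = ((-α : ℝ) : ℂ) * I by push_cast; ring]
    exact Complex.norm_exp_ofReal_mul_I _
  have hmem : ∀ z ∈ ball (0 : ℂ) R, c + z * u ∈ ball c R := by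
    intro z hz
    rw [mem_ball_zero_iff] at hz
    rw [mem_ball, dist_eq_norm, add_sub_cancel_left, norm_mul, hu, mul_one]
    exact hz
  have hmem' : ∀ z ∈ ball (0 : ℂ) R, (starRingEnd ℂ) z ∈ ball (0 : ℂ) R := by
    intro z hz
    rw [mem_ball_zero_iff] at hz ⊢
    rwa [RCLike.norm_conj]
  set g : ℂ → ℂ := fun z => q (c + z * u) * exp (-(α : ℂ) * I) with hg
  have hgd : DifferentiableOn ℂ g (ball 0 R) := by
    refine DifferentiableOn.mul_const (hq.comp ?_ hmem) _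
    exact ((differentiable_id.mul_const u).const_add c).differentiableOn
  have hgM : ∀ z ∈ ball (0 : ℂ) R, ‖g z‖ ≤ M := by
    intro z hz
    rw [hg]
    simp only
    rw [norm_mul, hexp, mul_one]
    exact hM _ (hmem z hz)
  set h : ℂ → ℂ := fun z => (g z - (starRingEnd ℂ) (g ((starRingEnd ℂ) z))) / (2 * I) with hh
  have hhd : DifferentiableOn ℂ h (ball 0 R) := (hgd.sub (Refl_conj hgd)).div_const _
  have hhM : ∀ z ∈ ball (0 : ℂ) R, ‖h z‖ ≤ M := by
    intro z hz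
    rw [hh]
    simp only
    rw [norm_div, norm_mul, Complex.norm_I, mul_one, Complex.norm_two,
      div_le_iff₀ (by norm_num)]
    have h1 := norm_sub_le (g z) ((starRingEnd ℂ) (g ((starRingEnd ℂ) z)))
    rw [RCLike.norm_conj] at h1
    have h2 := hgM z hz
    have h3 := hgM _ (hmem' z hz)
    linarith
  have hreal : ∀ t : ℝ, h (t : ℂ) = ((g (t : ℂ)).im : ℂ) := by
    intro t
    rw [hh]
    simp only
    rw [Complex.conj_ofReal, Complex.sub_conj]
    have hI : (2 * I : ℂ) ≠ 0 := mul_ne_zero two_ne_zero Complex.I_ne_zero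
    rw [div_eq_iff hI]
    push_cast
    ring
  have hcard : (T.map ⟨((↑) : ℝ → ℂ), Complex.ofReal_injective⟩).card = T.card :=
    Finset.card_map _
  have key := jensen_card hR hhd hhM (T.map ⟨((↑) : ℝ → ℂ), Complex.ofReal_injective⟩) (by
    intro z hz
    rw [Finset.mem_map] at hz
    obtain ⟨t, ht, rfl⟩ := hz
    obtain ⟨h1, h2⟩ := hT t ht
    refine ⟨?_, ?_⟩
    · simpa using h1
    · simp only [Function.Embedding.coeFn_mk]
      rw [hreal t]
      have h3 : (g (t : ℂ)).im = 0 := h2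
      rw [h3, Complex.ofReal_zero])
  rw [hcard] at key
  have h0 : ‖h 0‖ = |(q c * exp (-(α : ℂ) * I)).im| := by
    have h1 := hreal 0
    rw [Complex.ofReal_zero] at h1
    rw [h1, Complex.norm_real, Real.norm_eq_abs, hg]
    simp only
    rw [zero_mul, add_zero]
  rw [h0] at key
  calc 2 ^ T.card * (δ * ‖q c‖) ≤ 2 ^ T.card * |(q c * exp (-(α : ℂ) * I)).im| :=
        mul_le_mul_of_nonneg_left hc (by positivity)
    _ ≤ M := key

/-- The form which is used: `q c ≠ 0`, `0 < δ`, `1 ≤ M`. Take logarithms in `line_card`: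
`#T log 2 + log δ + log ‖q c‖ ≤ log M` and `- log x ≤ posLog x⁻¹` for `0 < x`. -/
theorem line_card_log {q : ℂ → ℂ} {c u : ℂ} {R M δ α : ℝ} (hu : ‖u‖ = 1) (hR : 0 < R)
    (hq : DifferentiableOn ℂ q (ball c R)) (hM : ∀ z ∈ ball c R, ‖q z‖ ≤ M)
    (hδ : 0 < δ) (hq0 : q c ≠ 0)
    (hc : δ * ‖q c‖ ≤ |(q c * exp (-(α : ℂ) * I)).im|)
    (T : Finset ℝ)
    (hT : ∀ t ∈ T, |t| ≤ R / 3 ∧ (q (c + (t : ℂ) * u) * exp (-(α : ℂ) * I)).im = 0) :
    (T.card : ℝ) * Real.log 2 ≤ Real.log M + Real.log δ⁻¹ + Real.posLog ‖q c‖⁻¹ := by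
  have h1 := line_card hu hR hq hM hc T hT
  have hq1 : 0 < ‖q c‖ := norm_pos_iff.2 hq0
  have h2 : 0 < 2 ^ T.card * (δ * ‖q c‖) := by positivity
  have h3 := Real.log_le_log h2 h1
  rw [Real.log_mul (by positivity) (by positivity), Real.log_mul hδ.ne' hq1.ne',
    Real.log_pow] at h3
  have h4 : Real.log ‖q c‖⁻¹ ≤ Real.posLog ‖q c‖⁻¹ := by
    rw [Real.posLog_apply]
    exact le_max_right _ _
  rw [Real.log_inv] at h4 ⊢
  linarith

end MP_ae5b4e_LD
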