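import Pool.Agent.Lib.MP_ae5b4e_an_LD.PoiX
import Pool.Agent.Lib.MP_ae5b4e_an_LD.Refl

/-! LEMMA D (density), module Bot: good centres on a horizontal segment, and the number of points of the
segment with given argument of `q` modulo `π`.

`bottom_centres`. PROOF. `h = 2D/n`, cells `(-D + h i, -D + h (i+1))`, `i < n`. In each cell choose
`c i`, not a zero of `q` (`null_zeros`), with `ofReal (f (c i)) ≤ (∫⁻ over the cell of ofReal f) / h`,
`f x = posLog ‖q (x - i s)‖⁻¹` (Mathlib `MeasureTheory.exists_notMem_null_le_laverage` for the restricted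
measure; `f` is measurable: `q` is continuous on the line; everything is finite by `poisson_x`).
Sum over the cells (disjoint subsets of `(-D, D)`): `∑ f (c i) ≤ (1/h) 4 π D L = 2 π n L`. -/

open Complex Metric Set MeasureTheory

namespace MP_ae5b4e_LD

private theorem bot_cont {q : ℂ → ℂ} {s : ℝ} (hs : 0 < s)
    (hq : DifferentiableOn ℂ q {z | z.im < 0}) :
    Continuous fun x : ℝ => q ((x : ℂ) - (s : ℂ) * I) := by
  refine hq.continuousOn.comp_continuous (by fun_prop) fun x => ?_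
  change ((x : ℂ) - (s : ℂ) * I).im < 0
  simp
  exact hs

private theorem bot_meas {q : ℂ → ℂ} {s : ℝ} (hs : 0 < s)
    (hq : DifferentiableOn ℂ q {z | z.im < 0}) :
    Measurable fun x : ℝ => ENNReal.ofReal (Real.posLog ‖q ((x : ℂ) - (s : ℂ) * I)‖⁻¹) := by
  refine ENNReal.measurable_ofReal.comp ?_
  unfold Real.posLog
  exact measurable_const.max
    (Real.measurable_log.comp ((bot_cont hs hq).norm.measurable.inv))

private theorem bot_cell {q : ℂ → ℂ} {s : ℝ} {p : ℂ} (hs : 0 < s)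
    (hq : DifferentiableOn ℂ q {z | z.im < 0}) (hp : p.im < 0) (h0 : q p ≠ 0) {a b : ℝ}
    (hab : a < b) :
    ∃ c : ℝ, a < c ∧ c < b ∧ q ((c : ℂ) - (s : ℂ) * I) ≠ 0 ∧
      ENNReal.ofReal ((b - a) * Real.posLog ‖q ((c : ℂ) - (s : ℂ) * I)‖⁻¹) ≤
        ∫⁻ x in Ioo a b, ENNReal.ofReal (Real.posLog ‖q ((x : ℂ) - (s : ℂ) * I)‖⁻¹) := by
  have hvol : volume (Ioo a b) = ENNReal.ofReal (b - a) := Real.volume_Ioo
  have hba : 0 < b - a := by linarith
  have hne : volume.restrict (Ioo a b) ≠ 0 := by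
    rw [Ne, Measure.restrict_eq_zero, hvol, ENNReal.ofReal_eq_zero, not_le]
    exact hba
  have hN : volume.restrict (Ioo a b)
      ({x : ℝ | q ((x : ℂ) - (s : ℂ) * I) = 0} ∪ (Ioo a b)ᶜ) = 0 := by
    refine measure_union_null ?_ (by
      rw [Measure.restrict_apply measurableSet_Ioo.compl, compl_inter_self, measure_empty])
    exact le_antisymm ((Measure.restrict_apply_le _ _).trans (null_zeros hs hq hp h0).le)
      (bot_le)
  obtain ⟨c, hc, hc2⟩ := exists_notMem_null_le_laverage hne (bot_meas hs hq).aemeasurable hN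
  rw [mem_union, not_or, mem_compl_iff, not_not] at hc
  refine ⟨c, hc.2.1, hc.2.2, hc.1, ?_⟩
  rw [setLAverage_eq, hvol] at hc2
  rw [ENNReal.ofReal_mul hba.le]
  calc ENNReal.ofReal (b - a) * ENNReal.ofReal (Real.posLog ‖q ((c : ℂ) - (s : ℂ) * I)‖⁻¹)
      ≤ ENNReal.ofReal (b - a) * ((∫⁻ x in Ioo a b,
        ENNReal.ofReal (Real.posLog ‖q ((x : ℂ) - (s : ℂ) * I)‖⁻¹)) / ENNReal.ofReal (b - a)) := by
        gcongr
    _ = _ := ENNReal.mul_div_cancel (by
        rw [Ne, ENNReal.ofReal_eq_zero, not_le]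
        exact hba) ENNReal.ofReal_ne_top

theorem bottom_centres {q : ℂ → ℂ} {s D M L : ℝ} (hs : 0 < s) (hsD : s ≤ D / 2) (hM1 : 1 ≤ M)
    (hq : DifferentiableOn ℂ q {z | z.im < 0}) (hM : ∀ z : ℂ, z.im ≤ -s → ‖q z‖ ≤ M)
    (h0 : q (-((D : ℂ) * I)) ≠ 0)
    (hL : Real.log M - Real.log ‖q (-((D : ℂ) * I))‖ ≤ L) (n : ℕ) (hn : 0 < n) :
    ∃ c : Fin n → ℝ,
      (∀ i : Fin n, -D + 2 * D / n * (i : ℕ) < c i ∧ c i < -D + 2 * D / n * ((i : ℕ) + 1)) ∧
      (∀ i, q ((c i : ℂ) - (s : ℂ) * I) ≠ 0) ∧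
      ∑ i, Real.posLog ‖q ((c i : ℂ) - (s : ℂ) * I)‖⁻¹ ≤ 2 * Real.pi * n * L := by
  have hD : 0 < D := by linarith
  have hn' : (0 : ℝ) < n := by exact_mod_cast hn
  obtain ⟨h, hh⟩ : ∃ h : ℝ, h = 2 * D / n := ⟨_, rfl⟩
  have hh0 : 0 < h := by
    rw [hh]
    positivity
  rw [← hh]
  have hp : (-((D : ℂ) * I)).im < 0 := by
    simp
    exact hD
  have hex : ∀ i : Fin n, ∃ c : ℝ, -D + h * (i : ℕ) < c ∧ c < -D + h * ((i : ℕ) + 1) ∧
      q ((c : ℂ) - (s : ℂ) * I) ≠ 0 ∧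
      ENNReal.ofReal (h * Real.posLog ‖q ((c : ℂ) - (s : ℂ) * I)‖⁻¹) ≤
        ∫⁻ x in Ioo (-D + h * (i : ℕ)) (-D + h * ((i : ℕ) + 1)),
          ENNReal.ofReal (Real.posLog ‖q ((x : ℂ) - (s : ℂ) * I)‖⁻¹) := by
    intro i
    have h1 := bot_cell hs hq hp h0
      (show -D + h * (i : ℕ) < -D + h * ((i : ℕ) + 1) by linarith)
    have h2 : -D + h * ((i : ℕ) + 1) - (-D + h * (i : ℕ)) = h := by ring
    rw [h2] at h1
    exact h1
  choose c hc1 hc2 hc3 hc4 using hex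
  refine ⟨c, fun i => ⟨hc1 i, hc2 i⟩, hc3, ?_⟩
  have hnn : ∀ i, 0 ≤ h * Real.posLog ‖q ((c i : ℂ) - (s : ℂ) * I)‖⁻¹ := fun i =>
    mul_nonneg hh0.le Real.posLog_nonneg
  have hdis : (↑(Finset.univ : Finset (Fin n)) : Set (Fin n)).PairwiseDisjoint
      fun i : Fin n => Ioo (-D + h * (i : ℕ)) (-D + h * ((i : ℕ) + 1)) := by
    have key : ∀ i j : Fin n, i < j → Disjoint (Ioo (-D + h * (i : ℕ)) (-D + h * ((i : ℕ) + 1)))
        (Ioo (-D + h * (j : ℕ)) (-D + h * ((j : ℕ) + 1))) := by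
      intro i j hij
      rw [Set.disjoint_left]
      intro x hx hx2
      have h1 : ((i : ℕ) : ℝ) + 1 ≤ (j : ℕ) := by exact_mod_cast hij
      have h2 := mul_le_mul_of_nonneg_left h1 hh0.le
      have h3 := hx.2
      have h4 := hx2.1
      linarith
    intro i _ j _ hij
    rcases lt_or_gt_of_ne hij with h1 | h1
    · exact key i j h1
    · exact (key j i h1).symm
  have hsum : ENNReal.ofReal (∑ i, h * Real.posLog ‖q ((c i : ℂ) - (s : ℂ) * I)‖⁻¹) ≤
      ENNReal.ofReal (4 * Real.pi * D * (Real.log M - Real.log ‖q (-((D : ℂ) * I))‖)) := by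
    rw [ENNReal.ofReal_sum_of_nonneg fun i _ => hnn i]
    refine (Finset.sum_le_sum fun i _ => hc4 i).trans ?_
    rw [← lintegral_biUnion_finset hdis (fun _ _ => measurableSet_Ioo)]
    refine le_trans (lintegral_mono_set ?_) (poisson_x hs hsD hM1 hq hM h0)
    intro x hx
    obtain ⟨i, _, hx⟩ := mem_iUnion₂.1 hx
    have h1 : ((i : ℕ) : ℝ) + 1 ≤ n := by exact_mod_cast i.2
    have h2 : h * (((i : ℕ) : ℝ) + 1) ≤ h * n := mul_le_mul_of_nonneg_left h1 hh0.le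
    have h3 : h * n = 2 * D := by
      rw [hh]
      field_simp
    have h4 : 0 ≤ h * ((i : ℕ) : ℝ) := by positivity
    exact ⟨by linarith [hx.1], by linarith [hx.2]⟩
  have hq0 : 0 < ‖q (-((D : ℂ) * I))‖ := norm_pos_iff.2 h0
  have hqM : ‖q (-((D : ℂ) * I))‖ ≤ M := hM _ (by
    simp
    linarith)
  have hlog : 0 ≤ Real.log M - Real.log ‖q (-((D : ℂ) * I))‖ := by
    have := Real.log_le_log hq0 hqM
    linarith
  have hle : ∑ i, h * Real.posLog ‖q ((c i : ℂ) - (s : ℂ) * I)‖⁻¹ ≤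
      4 * Real.pi * D * (Real.log M - Real.log ‖q (-((D : ℂ) * I))‖) :=
    (ENNReal.ofReal_le_ofReal_iff (by positivity)).1 hsum
  rw [← Finset.mul_sum] at hle
  have hle2 : h * ∑ i, Real.posLog ‖q ((c i : ℂ) - (s : ℂ) * I)‖⁻¹ ≤ 4 * Real.pi * D * L :=
    hle.trans (mul_le_mul_of_nonneg_left hL (by positivity))
  have h5 : 4 * Real.pi * D * L = h * (2 * Real.pi * n * L) := by
    rw [hh]
    field_simp
    ring
  rw [h5] at hle2
  exact le_of_mul_le_mul_left hle2 hh0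

/-- `bottom_card`. PROOF. Each `t ∈ T` is in some closed cell, so `|t - c i| ≤ 2D/n ≤ s/6` for some `i`.
For each `i` apply `line_card_log` with centre `c i - i s`, `u = 1`, `R = s/2` (the ball is in
`{Im ≤ -s/2}`) to `{t - c i : t ∈ T, |t - c i| ≤ s/6}`; sum over `i`. -/
theorem bottom_card {q : ℂ → ℂ} {s D M L δ α : ℝ} (hs : 0 < s) (hD : 0 < D)
    (hq : DifferentiableOn ℂ q {z | z.im < 0}) (hM : ∀ z : ℂ, z.im ≤ -(s / 2) → ‖q z‖ ≤ M)
    (n : ℕ) (hn : 0 < n) (hns : 12 * D / s ≤ n) (c : Fin n → ℝ)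
    (hc : ∀ i : Fin n, -D + 2 * D / n * (i : ℕ) < c i ∧ c i < -D + 2 * D / n * ((i : ℕ) + 1))
    (hc0 : ∀ i, q ((c i : ℂ) - (s : ℂ) * I) ≠ 0)
    (hcL : ∑ i, Real.posLog ‖q ((c i : ℂ) - (s : ℂ) * I)‖⁻¹ ≤ 2 * Real.pi * n * L)
    (hδ : 0 < δ)
    (hα : ∀ i, δ * ‖q ((c i : ℂ) - (s : ℂ) * I)‖ ≤
      |(q ((c i : ℂ) - (s : ℂ) * I) * exp (-(α : ℂ) * I)).im|)
    (T : Finset ℝ)
    (hT : ∀ t ∈ T, |t| ≤ D ∧ (q ((t : ℂ) - (s : ℂ) * I) * exp (-(α : ℂ) * I)).im = 0) :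
    (T.card : ℝ) * Real.log 2 ≤ n * (Real.log M + Real.log δ⁻¹ + 2 * Real.pi * L) := by
  classical
  have hn' : (0 : ℝ) < n := by exact_mod_cast hn
  obtain ⟨h, hh⟩ : ∃ h : ℝ, h = 2 * D / n := ⟨_, rfl⟩
  have hh0 : 0 < h := by
    rw [hh]
    positivity
  have hhn : h * n = 2 * D := by
    rw [hh]
    field_simp
  rw [← hh] at hc
  have hh6 : h ≤ s / 6 := by
    rw [div_le_iff₀ hs] at hns
    rw [hh, div_le_iff₀ hn']
    linarith
  have hcell : ∀ t ∈ T, ∃ i : Fin n, |t - c i| ≤ s / 6 := by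
    intro t ht
    obtain ⟨ht1, ht2⟩ := abs_le.1 (hT t ht).1
    have key : ∀ i : Fin n, h * (i : ℕ) ≤ t + D → t + D ≤ h * ((i : ℕ) + 1) →
        |t - c i| ≤ s / 6 := by
      intro i h1 h2
      obtain ⟨h3, h4⟩ := hc i
      rw [abs_le]
      constructor <;> nlinarith
    obtain ⟨k, hk⟩ : ∃ k : ℕ, k = ⌊(t + D) / h⌋₊ := ⟨_, rfl⟩
    have h1 : (k : ℝ) ≤ (t + D) / h := by
      rw [hk]
      exact Nat.floor_le (div_nonneg (by linarith) hh0.le)
    have h2 : (t + D) / h < k + 1 := by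
      rw [hk]
      exact Nat.lt_floor_add_one _
    rw [le_div_iff₀ hh0] at h1
    rw [div_lt_iff₀ hh0] at h2
    rcases Nat.lt_or_ge k n with h3 | h3
    · exact ⟨⟨k, h3⟩, key ⟨k, h3⟩ (by linarith) (by linarith)⟩
    · have h4 : (n : ℝ) ≤ k := by exact_mod_cast h3
      have h5 : h * n ≤ t + D := by nlinarith
      refine ⟨⟨n - 1, by omega⟩, key ⟨n - 1, by omega⟩ ?_ ?_⟩
      · have h6 : ((n - 1 : ℕ) : ℝ) ≤ n := by exact_mod_cast Nat.sub_le n 1
        have h7 := mul_le_mul_of_nonneg_left h6 hh0.le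
        exact h7.trans h5
      · have h6 : ((n - 1 : ℕ) : ℝ) + 1 = n := by
          rw [Nat.cast_sub hn]
          push_cast
          ring
        change t + D ≤ h * (((n - 1 : ℕ) : ℝ) + 1)
        rw [h6]
        linarith
  have hsub : T ⊆ Finset.univ.biUnion fun i : Fin n => T.filter fun t => |t - c i| ≤ s / 6 := by
    intro t ht
    obtain ⟨i, hi⟩ := hcell t ht
    exact Finset.mem_biUnion.2 ⟨i, Finset.mem_univ _, Finset.mem_filter.2 ⟨ht, hi⟩⟩
  have hcard : (T.card : ℝ) ≤ ∑ i : Fin n, ((T.filter fun t => |t - c i| ≤ s / 6).card : ℝ) := by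
    exact_mod_cast (Finset.card_le_card hsub).trans Finset.card_biUnion_le
  have hone : ∀ i : Fin n, ((T.filter fun t => |t - c i| ≤ s / 6).card : ℝ) * Real.log 2 ≤
      Real.log M + Real.log δ⁻¹ + Real.posLog ‖q ((c i : ℂ) - (s : ℂ) * I)‖⁻¹ := by
    intro i
    have him : ∀ z ∈ ball ((c i : ℂ) - (s : ℂ) * I) (s / 2), z.im ≤ -(s / 2) := by
      intro z hz
      rw [mem_ball, dist_eq_norm] at hz
      have h1 := (Complex.abs_im_le_norm (z - ((c i : ℂ) - (s : ℂ) * I))).trans hz.le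
      have h2 : (z - ((c i : ℂ) - (s : ℂ) * I)).im = z.im + s := by simp
      rw [h2] at h1
      have := (abs_le.1 h1).2
      linarith
    have h3 := line_card_log (q := q) (c := (c i : ℂ) - (s : ℂ) * I) (u := 1) (R := s / 2)
      (M := M) (δ := δ) (α := α) (by simp) (by positivity)
      (hq.mono fun z hz => by
        have := him z hz
        change z.im < 0
        linarith) (fun z hz => hM z (him z hz)) hδ (hc0 i) (hα i)
      ((T.filter fun t => |t - c i| ≤ s / 6).image fun t => t - c i) (by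
        intro t' ht'
        obtain ⟨t, ht, rfl⟩ := Finset.mem_image.1 ht'
        obtain ⟨ht, ht2⟩ := Finset.mem_filter.1 ht
        refine ⟨by linarith, ?_⟩
        have h4 : (c i : ℂ) - (s : ℂ) * I + ((t - c i : ℝ) : ℂ) * 1 = (t : ℂ) - (s : ℂ) * I := by
          push_cast
          ring
        rw [h4]
        exact (hT t ht).2)
    rwa [Finset.card_image_of_injective _ fun a b hab => by simpa using hab] at h3
  have hlog2 : 0 ≤ Real.log 2 := Real.log_nonneg (by norm_num)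
  calc (T.card : ℝ) * Real.log 2
      ≤ (∑ i : Fin n, ((T.filter fun t => |t - c i| ≤ s / 6).card : ℝ)) * Real.log 2 :=
        mul_le_mul_of_nonneg_right hcard hlog2
    _ = ∑ i : Fin n, ((T.filter fun t => |t - c i| ≤ s / 6).card : ℝ) * Real.log 2 :=
        Finset.sum_mul _ _ _
    _ ≤ ∑ i : Fin n, (Real.log M + Real.log δ⁻¹ +
        Real.posLog ‖q ((c i : ℂ) - (s : ℂ) * I)‖⁻¹) := Finset.sum_le_sum fun i _ => hone i
    _ = n * (Real.log M + Real.log δ⁻¹) +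
        ∑ i, Real.posLog ‖q ((c i : ℂ) - (s : ℂ) * I)‖⁻¹ := by
        rw [Finset.sum_add_distrib, Finset.sum_const, Finset.card_univ, Fintype.card_fin,
          nsmul_eq_mul]
    _ ≤ n * (Real.log M + Real.log δ⁻¹) + 2 * Real.pi * n * L := by linarith
    _ = _ := by ring

end MP_ae5b4e_LD
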