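import Pool.Agent.Lib.MP_ae5b4e_an_TR.Dich

/-! LEMMA D (density), module Fib: two starting points at distance `≥ 1` whose trajectories meet have
values of `|q|` which differ by at least `c0`.

`fib`. PROOF. `c0` = the constant of `F.osc` for `δ = 1`, `C' = C5 + 1`. By symmetry let `s' ≤ s`.
`Traj.meet`: `l (s - s') = P'`; put `τ = s - s'`, so `dist (l 0) (l τ) = dist P P' ≥ 1`. Let `u` be the
first time in `[0, τ]` with `dist (l 0) (l u) = 1` (the set of these times is closed and nonempty, or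
`u = sInf`; intermediate value theorem): `dist (l 0) (l t) ≤ 1` on `[0, u]`. On `Icc 0 u` the depth is
`≤ C5 + 1` and `> d0` (`Traj.deep`). `F.osc`: some `t ∈ Icc 0 u` with
`c0 ≤ dist (q (l t)) (q (l 0)) = ‖q P‖ (1 - exp (-2t)) ≤ ‖q P‖ (1 - exp (-2τ)) = ‖q P‖ - ‖q P'‖`
(`Traj.val`). -/

open Complex Set Filter PorTR

namespace MP_ae5b4e_LD

private theorem fib_first {l : ℝ → ℂ} {τ : ℝ} (hτ : 0 ≤ τ) (hl : ContinuousOn l (Icc 0 τ))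
    (hd : 1 ≤ dist (l 0) (l τ)) :
    ∃ u ∈ Icc 0 τ, dist (l 0) (l u) = 1 ∧ ∀ t ∈ Icc 0 u, dist (l 0) (l t) ≤ 1 := by
  have hc : ContinuousOn (fun t => dist (l 0) (l t)) (Icc 0 τ) :=
    continuous_dist.comp_continuousOn (continuousOn_const.prodMk hl)
  have hivt : ∀ t ∈ Icc 0 τ, 1 ≤ dist (l 0) (l t) → ∃ t' ∈ Icc 0 t, dist (l 0) (l t') = 1 := by
    intro t ht h1
    have h2 := intermediate_value_Icc ht.1 (hc.mono (Icc_subset_Icc le_rfl ht.2))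
    have h3 : (1 : ℝ) ∈ Icc (dist (l 0) (l 0)) (dist (l 0) (l t)) := by
      rw [dist_self]
      exact ⟨zero_le_one, h1⟩
    exact h2 h3
  have hcl : IsCompact (Icc 0 τ ∩ (fun t => dist (l 0) (l t)) ⁻¹' {1}) :=
    isCompact_Icc.of_isClosed_subset (hc.preimage_isClosed_of_isClosed isClosed_Icc
      isClosed_singleton) inter_subset_left
  have hne : (Icc 0 τ ∩ (fun t => dist (l 0) (l t)) ⁻¹' {1}).Nonempty := by
    obtain ⟨t, ht, h1⟩ := hivt τ ⟨hτ, le_rfl⟩ hd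
    exact ⟨t, ht, h1⟩
  obtain ⟨u, hu, hmin⟩ := hcl.exists_isLeast hne
  have hu1 : dist (l 0) (l u) = 1 := hu.2
  refine ⟨u, hu.1, hu1, fun t ht => ?_⟩
  by_contra h1
  push Not at h1
  obtain ⟨t', ht', h2⟩ := hivt t ⟨ht.1, ht.2.trans hu.1.2⟩ h1.le
  have h3 : u ≤ t' := hmin ⟨⟨ht'.1, ht'.2.trans (ht.2.trans hu.1.2)⟩, h2⟩
  have h4 : t = u := le_antisymm ht.2 (h3.trans ht'.2)
  rw [h4, hu1] at h1
  exact lt_irrefl _ h1

private theorem fib_key {W : Set (ℂ → ℂ)} {C d0 Ce kap : ℝ} (F : Fam W C d0 Ce kap) {C5 c0 : ℝ}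
    (hosc : ∀ q ∈ W, ∀ (a b : ℝ) (γ : ℝ → ℂ), a ≤ b →
      ContinuousOn γ (Icc a b) → MapsTo γ (Icc a b) (Strip d0 (C5 + 1)) → 1 ≤ dist (γ a) (γ b) →
      ∃ s ∈ Icc a b, c0 ≤ dist (q (γ s)) (q (γ a)))
    {q : ℂ → ℂ} (hq : q ∈ W) {P P' : ℂ} {l l' : ℝ → ℂ} (h : Traj q P l) (h' : Traj q P' l')
    (hP : 2 * d0 ≤ -P.im) (hP5 : -P.im ≤ C5) (hk : ‖q P‖ < kap) (hd : 1 ≤ dist P P')
    {s s' : ℝ} (hs' : 0 ≤ s') (hss : s' ≤ s) (hm : l s = l' s') :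
    c0 ≤ ‖q P‖ - ‖q P'‖ := by
  have h1 : l (s - s') = P' := (h.meet (F.hol q hq) h' hs' hss hm).1
  obtain ⟨τ, hτ⟩ : ∃ τ, τ = s - s' := ⟨_, rfl⟩
  rw [← hτ] at h1
  have hτ0 : 0 ≤ τ := by linarith
  have hl : ContinuousOn l (Icc 0 τ) := h.cont.mono fun t ht => ht.1
  obtain ⟨u, hu, hu1, hu2⟩ := fib_first hτ0 hl (by rw [h.start, h1]; exact hd)
  have hmaps : MapsTo l (Icc 0 u) (Strip d0 (C5 + 1)) := by
    intro t ht
    refine ⟨(h.deep F hq hP hk t ht.1).le, ?_⟩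
    have h2 : |(l 0 - l t).im| ≤ 1 := (Complex.abs_im_le_norm (l 0 - l t)).trans
      (by rw [← dist_eq_norm]; exact hu2 t ht)
    rw [Complex.sub_im, h.start] at h2
    have h3 := (abs_le.1 h2).2
    linarith
  obtain ⟨t, ht, h2⟩ := hosc q hq 0 u l hu.1 (hl.mono (Icc_subset_Icc le_rfl hu.2)) hmaps hu1.ge
  have hexp : ∀ x : ℝ, 0 ≤ x → Real.exp (-2 * x) ≤ 1 := fun x hx => by
    rw [Real.exp_le_one_iff]
    linarith
  rw [h.val t ht.1, h.start, dist_comm, dist_eq_norm] at h2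
  have h3 : q P - q P * ((Real.exp (-2 * t) : ℝ) : ℂ) =
      q P * ((1 - Real.exp (-2 * t) : ℝ) : ℂ) := by
    push_cast
    ring
  rw [h3, norm_mul, Complex.norm_real, Real.norm_eq_abs,
    abs_of_nonneg (by linarith [hexp t ht.1])] at h2
  have h4 : ‖q P'‖ = ‖q P‖ * Real.exp (-2 * τ) := by
    rw [← h1, h.val τ hτ0, norm_mul, Complex.norm_real, Real.norm_eq_abs,
      abs_of_pos (Real.exp_pos _)]
  have h5 : Real.exp (-2 * τ) ≤ Real.exp (-2 * t) := by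
    rw [Real.exp_le_exp]
    have := ht.2.trans hu.2
    linarith
  rw [h4]
  have h6 := mul_le_mul_of_nonneg_left h5 (norm_nonneg (q P))
  linarith

theorem fib {W : Set (ℂ → ℂ)} {C d0 Ce kap : ℝ} (F : Fam W C d0 Ce kap) (C5 : ℝ) :
    ∃ c0 : ℝ, 0 < c0 ∧ ∀ q ∈ W, ∀ (P P' : ℂ) (l l' : ℝ → ℂ), Traj q P l → Traj q P' l' →
      2 * d0 ≤ -P.im → -P.im ≤ C5 → 2 * d0 ≤ -P'.im → -P'.im ≤ C5 →
      ‖q P‖ < kap → ‖q P'‖ < kap → 1 ≤ dist P P' →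
      (∃ s s', 0 ≤ s ∧ 0 ≤ s' ∧ l s = l' s') → c0 ≤ |‖q P‖ - ‖q P'‖| := by
  obtain ⟨c0, hc0, hosc⟩ := F.osc 1 one_pos (C5 + 1)
  refine ⟨c0, hc0, ?_⟩
  intro q hq P P' l l' h h' hP hP5 hP' hP5' hk hk' hd ⟨s, s', hs, hs', hm⟩
  rcases le_total s' s with hss | hss
  · exact (fib_key F hosc hq h h' hP hP5 hk hd hs' hss hm).trans (le_abs_self _)
  · rw [abs_sub_comm]
    exact (fib_key F hosc hq h' h hP' hP5' hk' (by rw [dist_comm]; exact hd) hs hss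
      hm.symm).trans (le_abs_self _)

end MP_ae5b4e_LD
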