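import Mathlib

/-! LEMMA D (density), module Sep: a `c0`-separated family in `(0, e)` has at most `e / c0 + 1` members.

PROOF. Induction on the cardinality, removing the index with the largest value; or: order the values
`r_1 < .. < r_m`, `r_{i+1} - r_i ≥ c0`, `(m - 1) c0 ≤ r_m - r_1 < e`; or: `i ↦ ⌊r i / c0⌋₊` is injective on
`S` with values `≤ ⌊e / c0⌋₊`. -/

namespace MP_ae5b4e_LD

theorem card_le_of_sep {ι : Type*} (S : Finset ι) (r : ι → ℝ) {c0 e : ℝ} (hc : 0 < c0)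
    (he : 0 ≤ e) (h1 : ∀ i ∈ S, 0 < r i ∧ r i < e)
    (h2 : ∀ i ∈ S, ∀ j ∈ S, i ≠ j → c0 ≤ |r i - r j|) :
    (S.card : ℝ) ≤ e / c0 + 1 := by
  have hmaps : ∀ i ∈ S, ⌊r i / c0⌋₊ ∈ Finset.range (⌊e / c0⌋₊ + 1) := by
    intro i hi
    rw [Finset.mem_range, Nat.lt_succ_iff]
    exact Nat.floor_le_floor (div_le_div_of_nonneg_right (h1 i hi).2.le hc.le)
  have hinj : Set.InjOn (fun i => ⌊r i / c0⌋₊) S := by
    intro i hi j hj hij
    by_contra hne
    have h3 := h2 i hi j hj hne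
    have hi0 : 0 ≤ r i / c0 := div_nonneg (h1 i hi).1.le hc.le
    have hj0 : 0 ≤ r j / c0 := div_nonneg (h1 j hj).1.le hc.le
    have a1 := Nat.floor_le hi0
    have a2 := Nat.lt_floor_add_one (r i / c0)
    have b1 := Nat.floor_le hj0
    have b2 := Nat.lt_floor_add_one (r j / c0)
    simp only at hij
    rw [hij] at a1 a2
    have h4 : |r i / c0 - r j / c0| < 1 := abs_lt.2 ⟨by linarith, by linarith⟩
    rw [← sub_div, abs_div, abs_of_pos hc, div_lt_one hc] at h4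
    linarith
  have h5 := Finset.card_le_card_of_injOn _ hmaps hinj
  rw [Finset.card_range] at h5
  have h6 : ((⌊e / c0⌋₊ : ℕ) : ℝ) ≤ e / c0 := Nat.floor_le (div_nonneg he hc.le)
  have h7 : (S.card : ℝ) ≤ (⌊e / c0⌋₊ : ℝ) + 1 := by exact_mod_cast h5
  linarith

end MP_ae5b4e_LD
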