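import Pool.Agent.Lib.MP_ae5b4e_an_LD.Exit
import Pool.Agent.Lib.MP_ae5b4e_an_LD.Fib
import Pool.Agent.Lib.MP_ae5b4e_an_LD.Sep

/-! LEMMA D (density), module Box: infinite trajectories starting in `J` different boxes leave the
rectangle `x₁ < Re < x₂`, `Im > -s` at at least `J / (kap / c0 + 1)` different points.

`box_count`. PROOF. For each `j` let `l j` be the infinite trajectory of `P j` and `t j` the exit
time (`exit_point`), `e j = l j (t j)`; `Z` = the image of `e`. `Im (e j) < -d0` by `Traj.deep`;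
`q (e j) = q (P j) exp (-2 t j) = (r j exp (-2 t j)) e^{iα}`, so `Im (q (e j) e^{-iα}) = 0`. If
`e j = e k`, `j ≠ k`, then `dist (P j) (P k) ≥ |Re (P j) - Re (P k)| ≥ (2X + 3) - 2X ≥ 1`, so
`c0 ≤ |‖q (P j)‖ - ‖q (P k)‖|` by `hfib`; as `0 < ‖q (P j)‖ < kap`, `card_le_of_sep` bounds every
fibre of `e` by `kap / c0 + 1`. Sum over `Z` (`Finset.card_eq_sum_card_image` or
`Finset.card_eq_sum_card_fiberwise`). -/

open Complex Set Filter PorTR

namespace MP_ae5b4e_LD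

theorem box_count {W : Set (ℂ → ℂ)} {C d0 Ce kap : ℝ} (F : Fam W C d0 Ce kap) {q : ℂ → ℂ}
    (hq : q ∈ W) {C5 c0 : ℝ} (hc0 : 0 < c0)
    (hfib : ∀ (P P' : ℂ) (l l' : ℝ → ℂ), Traj q P l → Traj q P' l' →
      2 * d0 ≤ -P.im → -P.im ≤ C5 → 2 * d0 ≤ -P'.im → -P'.im ≤ C5 →
      ‖q P‖ < kap → ‖q P'‖ < kap → 1 ≤ dist P P' →
      (∃ s s', 0 ≤ s ∧ 0 ≤ s' ∧ l s = l' s') → c0 ≤ |‖q P‖ - ‖q P'‖|)
    {x₁ x₂ s α X : ℝ} {J : ℕ} (P : Fin J → ℂ) (r : Fin J → ℝ)
    (hX : ∀ j : Fin J, |(P j).re - (j : ℕ) * (2 * X + 3)| ≤ X)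
    (h1 : ∀ j, x₁ < (P j).re) (h2 : ∀ j, (P j).re < x₂) (h3 : ∀ j, -s < (P j).im)
    (hd : ∀ j, 2 * d0 ≤ -(P j).im) (hC5 : ∀ j, -(P j).im ≤ C5)
    (hr : ∀ j, 0 < r j ∧ r j < kap) (hqP : ∀ j, q (P j) = r j * cexp (α * I))
    (hinf : ∀ j, InfTraj q (P j)) :
    ∃ Z : Finset ℂ, (J : ℝ) ≤ (kap / c0 + 1) * Z.card ∧
      ∀ z ∈ Z, x₁ ≤ z.re ∧ z.re ≤ x₂ ∧ -s ≤ z.im ∧ z.im ≤ -d0 ∧
        (z.im = -s ∨ z.re = x₁ ∨ z.re = x₂) ∧ (q z * exp (-(α : ℂ) * I)).im = 0 := by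
  classical
  choose l hl hdeep using hinf
  have hex : ∀ j, ∃ t, 0 ≤ t ∧ x₁ ≤ (l j t).re ∧ (l j t).re ≤ x₂ ∧ -s ≤ (l j t).im ∧
      ((l j t).im = -s ∨ (l j t).re = x₁ ∨ (l j t).re = x₂) := fun j =>
    exit_point (hl j).cont (hdeep j) (by rw [(hl j).start]; exact h1 j)
      (by rw [(hl j).start]; exact h2 j) (by rw [(hl j).start]; exact h3 j)
  choose t ht0 ht1 ht2 ht3 ht4 using hex
  have hnorm : ∀ j, ‖q (P j)‖ = r j := by
    intro j
    rw [hqP j, norm_mul, Complex.norm_exp_ofReal_mul_I, mul_one, Complex.norm_real,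
      Real.norm_eq_abs, abs_of_pos (hr j).1]
  have hk : ∀ j, ‖q (P j)‖ < kap := fun j => by rw [hnorm j]; exact (hr j).2
  have hsep : ∀ j k : Fin J, j ≠ k → l j (t j) = l k (t k) → c0 ≤ |r j - r k| := by
    intro j k hjk he
    have h5 : (1 : ℝ) ≤ |((j : ℕ) : ℝ) - ((k : ℕ) : ℝ)| := by
      have h6 : ((j : ℕ) : ℤ) - ((k : ℕ) : ℤ) ≠ 0 := by
        intro h7
        exact hjk (Fin.ext (by omega))
      have h7 := Int.one_le_abs h6
      have h8 : ((1 : ℤ) : ℝ) ≤ ((|((j : ℕ) : ℤ) - ((k : ℕ) : ℤ)| : ℤ) : ℝ) := by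
        exact_mod_cast h7
      rw [Int.cast_abs] at h8
      push_cast at h8
      exact h8
    have hX0 : 0 ≤ X := (abs_nonneg _).trans (hX j)
    have h9 : 1 ≤ dist (P j) (P k) := by
      have h10 : |(P j).re - (P k).re| ≤ dist (P j) (P k) := by
        rw [dist_eq_norm, ← Complex.sub_re]
        exact Complex.abs_re_le_norm _
      have h11 := hX j
      have h12 := hX k
      have h13 : |(((j : ℕ) : ℝ) - ((k : ℕ) : ℝ)) * (2 * X + 3)| ≤
          |(P j).re - (P k).re| + 2 * X := by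
        have h14 : (((j : ℕ) : ℝ) - ((k : ℕ) : ℝ)) * (2 * X + 3) =
            ((P j).re - (P k).re) - ((P j).re - (j : ℕ) * (2 * X + 3)) +
              ((P k).re - (k : ℕ) * (2 * X + 3)) := by ring
        rw [h14]
        refine (abs_add_le _ _).trans ?_
        have h15 := abs_sub ((P j).re - (P k).re) ((P j).re - (j : ℕ) * (2 * X + 3))
        linarith
      rw [abs_mul, abs_of_pos (by linarith : (0 : ℝ) < 2 * X + 3)] at h13
      nlinarith
    have h16 := hfib (P j) (P k) (l j) (l k) (hl j) (hl k) (hd j) (hC5 j) (hd k) (hC5 k)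
      (hk j) (hk k) h9 ⟨t j, t k, ht0 j, ht0 k, he⟩
    rw [hnorm, hnorm] at h16
    exact h16
  refine ⟨Finset.univ.image (fun j => l j (t j)), ?_, ?_⟩
  · have h5 := Finset.card_eq_sum_card_image (fun j => l j (t j)) (Finset.univ : Finset (Fin J))
    rw [Finset.card_univ, Fintype.card_fin] at h5
    have h6 : (J : ℝ) = ∑ b ∈ Finset.univ.image (fun j => l j (t j)),
        (((Finset.univ.filter fun j => l j (t j) = b).card : ℕ) : ℝ) := by
      exact_mod_cast h5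
    rw [h6]
    have h7 : ∀ b ∈ Finset.univ.image (fun j => l j (t j)),
        (((Finset.univ.filter fun j => l j (t j) = b).card : ℕ) : ℝ) ≤ kap / c0 + 1 := by
      intro b _
      refine card_le_of_sep _ r hc0 (fun j _ => hr j) ?_
      intro j hj k hk' hjk
      rw [Finset.mem_filter] at hj hk'
      exact hsep j k hjk (hj.2.trans hk'.2.symm)
    refine (Finset.sum_le_card_nsmul _ _ _ h7).trans ?_
    rw [nsmul_eq_mul, mul_comm]
  · intro z hz
    obtain ⟨j, -, rfl⟩ := Finset.mem_image.mp hz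
    have h5 := Traj.deep F hq (hd j) (hk j) (hl j) (t j) (ht0 j)
    refine ⟨ht1 j, ht2 j, ht3 j, by linarith, ht4 j, ?_⟩
    have h6 := (hl j).val (t j) (ht0 j)
    rw [h6, hqP j]
    have h7 : (r j : ℂ) * cexp (α * I) * ((Real.exp (-2 * t j) : ℝ) : ℂ) * exp (-(α : ℂ) * I) =
        ((r j * Real.exp (-2 * t j) : ℝ) : ℂ) := by
      have h8 : cexp (α * I) * exp (-(α : ℂ) * I) = 1 := by
        rw [← Complex.exp_add]
        have : (α : ℂ) * I + -(α : ℂ) * I = 0 := by ring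
        rw [this, Complex.exp_zero]
      calc (r j : ℂ) * cexp (α * I) * ((Real.exp (-2 * t j) : ℝ) : ℂ) * exp (-(α : ℂ) * I) =
          (r j : ℂ) * ((Real.exp (-2 * t j) : ℝ) : ℂ) *
            (cexp (α * I) * exp (-(α : ℂ) * I)) := by ring
        _ = _ := by rw [h8, mul_one, Complex.ofReal_mul]
    rw [h7, Complex.ofReal_im]

end MP_ae5b4e_LD
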