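import Pool.Agent.Lib.MP_ae5b4e_an_LD.GMeas

/-! THEOREM B', module CS: finite energy implies good; the good property along a trajectory.

`goodV_of_energy`. PROOF. `wt q P > 0` (`deriv q P ≠ 0`: take `z = P`, `r = 1` in `Ereg`; `q P ≠ 0`). With
`a = e^{-t} (1+t)^2 vel`, `b = (1+t)^{-1}`: `a b = e^{-t} (1+t) vel`, `∫ a² < ∞` (energy / wt),
`∫_0^∞ (1+t)^{-2} = 1`; Cauchy-Schwarz, or `a b ≤ (a² + b²)/2`.

`ae_good`: the inner integral is finite for a.e. `P` (`ae_lt_top` with `en_meas`).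

`good_of_goodV`: `l = tr q P`; for `t > 0`: `deriv l t = -2 q (l t) / deriv q (l t)` (`Traj.hasDerivAt`), so
`‖deriv l t‖ = vel q (l t)`; `AEStronglyMeasurable` (continuity of `t ↦ vel q (tr q P t)` on `Ioi 0`) and
finite integral.

`goodV_iff`. PROOF. `tr q P' t = tr q P (t0 + t)` (`Traj.shift`, `Traj.unique`). With `v u = vel q (tr q P u)`:
`∫_0^∞ e^{-t}(1+t) v(t0+t) dt = ∫_{t0}^∞ e^{-(u-t0)} (1+u-t0) v(u) du ≤ e^{t0} ∫_{t0}^∞ e^{-u}(1+u) v(u) du`,
and conversely `1+u ≤ (1+t0)(1+u-t0)` for `u ≥ t0`, `e^{-u} ≤ e^{-(u-t0)}`; the part `∫_0^{t0}` is finite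
because `v` is continuous on `[0, t0]`. -/

open Complex Set Filter PorTR MeasureTheory Topology
open scoped ENNReal

namespace MP_ae5b4e_LD

private theorem cs_hm_open : IsOpen Hm := isOpen_lt Complex.continuous_im continuous_const

/-- continuity of the speed -/
private theorem cs_cont {q : ℂ → ℂ} (hq : DifferentiableOn ℂ q Hm) {P : ℂ} {l : ℝ → ℂ}
    (T : Traj q P l) : ContinuousOn (fun t => vel q (l t)) (Ici (0 : ℝ)) := by
  have h1 : ContinuousOn (fun t => q (l t)) (Ici (0 : ℝ)) :=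
    hq.continuousOn.comp T.cont fun t ht => T.low t ht
  have h2 : ContinuousOn (fun t => deriv q (l t)) (Ici (0 : ℝ)) :=
    (hq.deriv cs_hm_open).continuousOn.comp T.cont fun t ht => T.low t ht
  unfold vel
  exact (h1.norm.const_smul (2 : ℝ)).div h2.norm fun t ht => norm_ne_zero_iff.2 (T.reg t ht)

private theorem cs_vel_nonneg (q : ℂ → ℂ) (z : ℂ) : 0 ≤ vel q z := by
  unfold vel
  positivity

private theorem cs_int : ∫⁻ t in Ioi (0 : ℝ), ENNReal.ofReal ((t + 1) ^ (-2 : ℝ)) < ⊤ :=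
  (integrableOn_add_rpow_Ioi_of_lt (a := -2) (c := 0) (m := 1) (by norm_num)
    (by norm_num)).lintegral_lt_top

theorem goodV_of_energy {W : Set (ℂ → ℂ)} {C d0 Ce kap : ℝ} (F : Fam W C d0 Ce kap)
    (hbd : DeepBd W C d0) {q : ℂ → ℂ} (hq : q ∈ W) {P : ℂ} (hP : P ∈ Ereg q d0 kap)
    (h : ∫⁻ t in Ioi (0 : ℝ), en q P t < ⊤) : GoodV q P := by
  have T := tr_traj F hq hP
  have hd : deriv q P ≠ 0 := by
    have := T.reg 0 le_rfl
    rwa [T.start] at this
  have hw : 0 < wt q P := by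
    have h1 : 0 < ‖deriv q P‖ := norm_pos_iff.2 hd
    have h2 : 0 < ‖q P‖ := norm_pos_iff.2 hP.2.1
    unfold wt
    positivity
  have hle : ∀ t ∈ Ioi (0 : ℝ), ENNReal.ofReal (Real.exp (-t) * (1 + t) * vel q (tr q P t)) ≤
      en q P t * ENNReal.ofReal (wt q P)⁻¹ + ENNReal.ofReal ((t + 1) ^ (-2 : ℝ)) := by
    intro t ht
    have ht0 : (0 : ℝ) < t := ht
    have hv := cs_vel_nonneg q (tr q P t)
    unfold en
    rw [← ENNReal.ofReal_mul (by positivity), ← ENNReal.ofReal_add (by positivity) (by positivity)]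
    refine ENNReal.ofReal_le_ofReal ?_
    rw [Real.rpow_neg (by positivity), mul_assoc _ (wt q P), mul_inv_cancel₀ hw.ne', mul_one]
    have e1 : Real.exp (-2 * t) = Real.exp (-t) ^ 2 := by
      rw [← Real.exp_nat_mul]
      congr 1
      push_cast
      ring
    have e2 : (t + 1) ^ (2 : ℝ) = (t + 1) ^ 2 := by
      rw [← Real.rpow_natCast]
      norm_num
    rw [e1, e2]
    have h1 : 0 < t + 1 := by linarith
    set a : ℝ := Real.exp (-t) * (1 + t) ^ 2 * vel q (tr q P t) with ha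
    set b : ℝ := (t + 1)⁻¹ with hb
    have e3 : Real.exp (-t) * (1 + t) * vel q (tr q P t) = a * b := by
      rw [ha, hb]
      field_simp
      ring
    have e4 : Real.exp (-t) ^ 2 * (1 + t) ^ 4 * vel q (tr q P t) ^ 2 = a ^ 2 := by
      rw [ha]
      ring
    have e5 : ((t + 1) ^ 2)⁻¹ = b ^ 2 := by
      rw [hb, inv_pow]
    rw [e3, e4, e5]
    nlinarith [sq_nonneg (a - b), sq_nonneg a, sq_nonneg b]
  unfold GoodV
  refine lt_of_le_of_lt (setLIntegral_mono' measurableSet_Ioi hle) ?_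
  have hm : Measurable fun t : ℝ => ENNReal.ofReal ((t + 1) ^ (-2 : ℝ)) := by fun_prop
  rw [lintegral_add_right _ hm, lintegral_mul_const' _ _ ENNReal.ofReal_ne_top]
  exact ENNReal.add_lt_top.2 ⟨ENNReal.mul_lt_top h ENNReal.ofReal_lt_top, cs_int⟩

theorem ae_good {W : Set (ℂ → ℂ)} {C d0 Ce kap : ℝ} (F : Fam W C d0 Ce kap)
    (hbd : DeepBd W C d0) {q : ℂ → ℂ} (hq : q ∈ W) {X C5 : ℝ}
    (h : ∫⁻ P in Ereg q d0 kap ∩ bx X C5 0, ∫⁻ t in Ioi (0 : ℝ), en q P t < ⊤) :
    volume {P : ℂ | P ∈ Ereg q d0 kap ∩ bx X C5 0 ∧ ¬ GoodV q P} = 0 := by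
  have hE := ereg_meas F hq
  have hB : MeasurableSet (bx X C5 0) := by
    have h1 : IsOpen (bx X C5 0) := by
      have h2 : bx X C5 0 = {P : ℂ | |P.re - 0| < X} ∩ {P : ℂ | -P.im < C5} := rfl
      rw [h2]
      exact (isOpen_lt (by fun_prop) continuous_const).inter
        (isOpen_lt (by fun_prop) continuous_const)
    exact h1.measurableSet
  have hEB := hE.inter hB
  have hmeas := (en_meas F hbd hq).lintegral_prod_right' (ν := volume)
  set G : ℂ → ℝ≥0∞ := fun P => ∫⁻ t, (Ereg q d0 kap ×ˢ Ioi (0 : ℝ)).indicator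
    (fun p : ℂ × ℝ => en q p.1 p.2) (P, t) with hG
  have hGe : ∀ P ∈ Ereg q d0 kap ∩ bx X C5 0, G P = ∫⁻ t in Ioi (0 : ℝ), en q P t := by
    intro P hP
    rw [← lintegral_indicator measurableSet_Ioi]
    refine lintegral_congr fun t => ?_
    by_cases ht : t ∈ Ioi (0 : ℝ)
    · rw [indicator_of_mem ht, indicator_of_mem (show (P, t) ∈ Ereg q d0 kap ×ˢ Ioi (0 : ℝ) from
        ⟨hP.1, ht⟩)]
    · rw [indicator_of_notMem ht, indicator_of_notMem]
      exact fun h1 => ht h1.2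
  have h2 : ∫⁻ P in Ereg q d0 kap ∩ bx X C5 0, G P < ⊤ := by
    rw [setLIntegral_congr_fun hEB hGe]
    exact h
  have h3 : ∀ᵐ P ∂(volume.restrict (Ereg q d0 kap ∩ bx X C5 0)), G P < ⊤ :=
    ae_lt_top hmeas h2.ne
  rw [ae_restrict_iff' hEB, ae_iff] at h3
  refine measure_mono_null ?_ h3
  rintro P ⟨hP, hbad⟩
  simp only [mem_ofPred_eq]
  intro hgood
  refine hbad (goodV_of_energy F hbd hq hP.1 ?_)
  rw [← hGe P hP]
  exact hgood hP

theorem good_of_goodV {W : Set (ℂ → ℂ)} {C d0 Ce kap : ℝ} (F : Fam W C d0 Ce kap)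
    (hbd : DeepBd W C d0) {q : ℂ → ℂ} (hq : q ∈ W) {P : ℂ} (hP : P ∈ Ereg q d0 kap)
    (h : GoodV q P) : Good q P := by
  have T := tr_traj F hq hP
  have hdiff := F.hol q hq
  have hvc := cs_cont hdiff T
  refine ⟨tr q P, T, ?_⟩
  have hd : ∀ t ∈ Ioi (0 : ℝ), Real.exp (-t) * (1 + t) * vel q (tr q P t) =
      Real.exp (-t) * (1 + t) * ‖deriv (tr q P) t‖ := by
    intro t ht
    rw [(T.hasDerivAt hdiff ht).deriv, norm_div, norm_mul, norm_neg]
    unfold vel
    norm_num
  refine IntegrableOn.congr_fun ?_ hd measurableSet_Ioi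
  refine ⟨?_, ?_⟩
  · refine ContinuousOn.aestronglyMeasurable ?_ measurableSet_Ioi
    refine ContinuousOn.mul (by fun_prop) (hvc.mono Ioi_subset_Ici_self)
  · rw [hasFiniteIntegral_iff_ofReal]
    · exact h
    · refine (ae_restrict_iff' measurableSet_Ioi).2 (Eventually.of_forall fun t ht => ?_)
      have ht0 : (0 : ℝ) < t := ht
      have := cs_vel_nonneg q (tr q P t)
      change 0 ≤ Real.exp (-t) * (1 + t) * vel q (tr q P t)
      positivity

private theorem cs_shift (f : ℝ → ℝ≥0∞) (s : ℝ) :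
    ∫⁻ t in Ioi (0 : ℝ), f (s + t) = ∫⁻ u in Ioi s, f u := by
  rw [← lintegral_indicator measurableSet_Ioi, ← lintegral_indicator measurableSet_Ioi,
    ← lintegral_add_left_eq_self ((Ioi s).indicator f) s]
  refine lintegral_congr fun t => ?_
  by_cases ht : t ∈ Ioi (0 : ℝ)
  · have ht0 : (0 : ℝ) < t := ht
    rw [indicator_of_mem ht, indicator_of_mem (show s + t ∈ Ioi s by
      change s < s + t
      linarith)]
  · rw [indicator_of_notMem ht, indicator_of_notMem]
    intro h1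
    apply ht
    change s < s + t at h1
    change 0 < t
    linarith

theorem goodV_iff {W : Set (ℂ → ℂ)} {C d0 Ce kap : ℝ} (F : Fam W C d0 Ce kap)
    (hbd : DeepBd W C d0) {q : ℂ → ℂ} (hq : q ∈ W) {P P' : ℂ} (hP : P ∈ Ereg q d0 kap)
    (hP' : P' ∈ Ereg q d0 kap) {t0 : ℝ} (ht0 : 0 ≤ t0) (h : tr q P t0 = P') :
    GoodV q P ↔ GoodV q P' := by
  have T := tr_traj F hq hP
  have T' := tr_traj F hq hP'
  have hdiff := F.hol q hq
  have hvc := cs_cont hdiff T
  have hsh := T.shift ht0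
  rw [h] at hsh
  have heq : ∀ t, 0 ≤ t → tr q P' t = tr q P (t0 + t) := T'.unique hdiff hsh
  set f : ℝ → ℝ≥0∞ := fun u => ENNReal.ofReal (Real.exp (-(u - t0)) * (1 + (u - t0)) *
    vel q (tr q P u)) with hf
  have e1 : ∫⁻ t in Ioi (0 : ℝ), ENNReal.ofReal (Real.exp (-t) * (1 + t) * vel q (tr q P' t)) =
      ∫⁻ u in Ioi t0, f u := by
    rw [← cs_shift f t0]
    refine setLIntegral_congr_fun measurableSet_Ioi fun t ht => ?_
    rw [hf]
    beta_reduce
    rw [heq t (le_of_lt ht), add_sub_cancel_left]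
  unfold GoodV
  rw [e1]
  constructor
  · intro hfin
    have hle : ∀ u ∈ Ioi t0, f u ≤ ENNReal.ofReal (Real.exp (-u) * (1 + u) *
        vel q (tr q P u)) * ENNReal.ofReal (Real.exp t0) := by
      intro u hu
      have hu0 : t0 < u := hu
      have hv := cs_vel_nonneg q (tr q P u)
      have hu1 : 0 < u := lt_of_le_of_lt ht0 hu0
      rw [hf]
      beta_reduce
      rw [← ENNReal.ofReal_mul (by positivity)]
      refine ENNReal.ofReal_le_ofReal ?_
      have e2 : Real.exp (-(u - t0)) = Real.exp (-u) * Real.exp t0 := by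
        rw [← Real.exp_add]
        congr 1
        ring
      rw [e2]
      have h1 : 1 + (u - t0) ≤ 1 + u := by linarith
      have h2 : Real.exp (-u) * Real.exp t0 * (1 + (u - t0)) * vel q (tr q P u) ≤
          Real.exp (-u) * Real.exp t0 * (1 + u) * vel q (tr q P u) := by
        gcongr
      calc _ ≤ _ := h2
        _ = _ := by ring
    refine lt_of_le_of_lt (setLIntegral_mono' measurableSet_Ioi hle) ?_
    rw [lintegral_mul_const' _ _ ENNReal.ofReal_ne_top]
    refine ENNReal.mul_lt_top (lt_of_le_of_lt ?_ hfin) ENNReal.ofReal_lt_top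
    exact lintegral_mono_set fun u hu => lt_of_le_of_lt ht0 hu
  · intro hfin
    have hun : Ioi (0 : ℝ) = Ioc 0 t0 ∪ Ioi t0 := (Ioc_union_Ioi_eq_Ioi ht0).symm
    rw [hun]
    refine lt_of_le_of_lt (lintegral_union_le _ _ _) (ENNReal.add_lt_top.2 ⟨?_, ?_⟩)
    · have hc : ContinuousOn (fun u => Real.exp (-u) * (1 + u) * vel q (tr q P u))
          (Icc 0 t0) :=
        ContinuousOn.mul (by fun_prop) (hvc.mono fun u hu => hu.1)
      exact ((hc.integrableOn_compact isCompact_Icc).mono_set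
        Ioc_subset_Icc_self).lintegral_lt_top
    · have hle : ∀ u ∈ Ioi t0, ENNReal.ofReal (Real.exp (-u) * (1 + u) *
          vel q (tr q P u)) ≤ f u * ENNReal.ofReal (1 + t0) := by
        intro u hu
        have hu0 : t0 < u := hu
        have hv := cs_vel_nonneg q (tr q P u)
        have hu1 : 0 < u := lt_of_le_of_lt ht0 hu0
        have hu2 : 0 < u - t0 := by linarith
        rw [hf]
        beta_reduce
        rw [← ENNReal.ofReal_mul (by positivity)]
        refine ENNReal.ofReal_le_ofReal ?_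
        have h1 : Real.exp (-u) ≤ Real.exp (-(u - t0)) := Real.exp_le_exp.2 (by linarith)
        have h2 : 1 + u ≤ (1 + (u - t0)) * (1 + t0) := by nlinarith
        have h3 : Real.exp (-u) * (1 + u) * vel q (tr q P u) ≤
            Real.exp (-(u - t0)) * ((1 + (u - t0)) * (1 + t0)) * vel q (tr q P u) := by
          gcongr
        calc _ ≤ _ := h3
          _ = _ := by ring
      refine lt_of_le_of_lt (setLIntegral_mono' measurableSet_Ioi hle) ?_
      rw [lintegral_mul_const' _ _ ENNReal.ofReal_ne_top]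
      exact ENNReal.mul_lt_top hfin ENNReal.ofReal_lt_top

end MP_ae5b4e_LD
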