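import Pool.Agent.Lib.MP_ae5b4e_an_LD.PoiX
import Pool.Agent.Lib.MP_ae5b4e_an_LD.Refl

/-! LEMMA D (density), module Vert: good vertical lines, and the number of points of a vertical segment
with given argument of `q` modulo `π`. Levels `s_k = d0 (4/3)^k`, `k < K`.

`good_vertical`. PROOF (Chebyshev). `lam = 32 π K (L + 1)`; note `L ≥ 0` (`-iD` has `Im ≤ -d0`, so
`‖q (-iD)‖ ≤ M`). For each `k < K` the set of `x` in `(-D, D)` with `posLog ‖q (x - i s_k)‖⁻¹ > lam` has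
measure `≤ 4 π D L / lam` (`poisson_x` with `s = s_k ≤ D/2`, and `MeasureTheory.mul_meas_ge_le_lintegral`
or `meas_ge_le_lintegral_div`), the sum over `k` is `≤ D L / (8 (L + 1)) < D/4 = b - a`; the zeros form
null sets (`null_zeros`). So some `x` in `(a, b)` is outside all these sets. -/

open Complex Metric Set MeasureTheory

namespace MP_ae5b4e_LD

private theorem Vert_im (x s : ℝ) : ((x : ℂ) - (s : ℂ) * I).im = -s := by
  simp

private theorem Vert_meas {q : ℂ → ℂ} (hq : DifferentiableOn ℂ q {z | z.im < 0}) {s : ℝ}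
    (hs : 0 < s) :
    Measurable fun x : ℝ => ENNReal.ofReal (Real.posLog ‖q ((x : ℂ) - (s : ℂ) * I)‖⁻¹) := by
  have hc : Continuous fun x : ℝ => q ((x : ℂ) - (s : ℂ) * I) := by
    refine hq.continuousOn.comp_continuous (by fun_prop) (fun x => ?_)
    change ((x : ℂ) - (s : ℂ) * I).im < 0
    rw [Vert_im]
    linarith
  have hm : Measurable fun x : ℝ => Real.log ‖q ((x : ℂ) - (s : ℂ) * I)‖⁻¹ :=
    Real.measurable_log.comp (hc.norm.measurable.inv)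
  exact (measurable_const.max hm).ennreal_ofReal

private theorem Vert_markov {q : ℂ → ℂ} {s D M L lam : ℝ} (hs : 0 < s) (hsD : s ≤ D / 2)
    (hM1 : 1 ≤ M) (hq : DifferentiableOn ℂ q {z | z.im < 0})
    (hM : ∀ z : ℂ, z.im ≤ -s → ‖q z‖ ≤ M) (h0 : q (-((D : ℂ) * I)) ≠ 0)
    (hL : Real.log M - Real.log ‖q (-((D : ℂ) * I))‖ ≤ L) (hlam : 0 < lam) :
    volume ({x : ℝ | lam < Real.posLog ‖q ((x : ℂ) - (s : ℂ) * I)‖⁻¹} ∩ Ioo (-D) D) ≤
      ENNReal.ofReal (4 * Real.pi * D * L / lam) := by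
  have h1 := poisson_x hs hsD hM1 hq hM h0
  have hD : 0 < D := by linarith
  have h2 : ENNReal.ofReal (4 * Real.pi * D * (Real.log M - Real.log ‖q (-((D : ℂ) * I))‖)) ≤
      ENNReal.ofReal (4 * Real.pi * D * L) := by
    apply ENNReal.ofReal_le_ofReal
    exact mul_le_mul_of_nonneg_left hL (by positivity)
  have h3 := meas_ge_le_lintegral_div (μ := volume.restrict (Ioo (-D) D))
    (Vert_meas hq hs).aemeasurable (ε := ENNReal.ofReal lam)
    (by simpa using hlam) ENNReal.ofReal_ne_top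
  rw [Measure.restrict_apply' measurableSet_Ioo] at h3
  refine le_trans (measure_mono ?_) (h3.trans ?_)
  · intro x hx
    refine ⟨?_, hx.2⟩
    change ENNReal.ofReal lam ≤ ENNReal.ofReal _
    exact ENNReal.ofReal_le_ofReal (le_of_lt hx.1)
  · rw [ENNReal.ofReal_div_of_pos hlam]
    exact ENNReal.div_le_div_right (h1.trans h2) _

theorem good_vertical {q : ℂ → ℂ} {D M L d0 : ℝ} {K : ℕ} (hK : 1 ≤ K) (hd : 0 < d0)
    (hD : d0 * (4 / 3 : ℝ) ^ (K - 1) ≤ D / 2) (hM1 : 1 ≤ M)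
    (hq : DifferentiableOn ℂ q {z | z.im < 0}) (hM : ∀ z : ℂ, z.im ≤ -d0 → ‖q z‖ ≤ M)
    (h0 : q (-((D : ℂ) * I)) ≠ 0)
    (hL : Real.log M - Real.log ‖q (-((D : ℂ) * I))‖ ≤ L)
    (a b : ℝ) (ha : -D ≤ a) (hb : b ≤ D) (hab : b - a = D / 4) :
    ∃ x : ℝ, a < x ∧ x < b ∧ ∀ k < K,
      q ((x : ℂ) - ((d0 * (4 / 3 : ℝ) ^ k : ℝ) : ℂ) * I) ≠ 0 ∧
      Real.posLog ‖q ((x : ℂ) - ((d0 * (4 / 3 : ℝ) ^ k : ℝ) : ℂ) * I)‖⁻¹
        ≤ 32 * Real.pi * K * (L + 1) := by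
  have hpow : ∀ n : ℕ, (1 : ℝ) ≤ (4 / 3 : ℝ) ^ n := fun n => one_le_pow₀ (by norm_num)
  have hsk : ∀ k < K, d0 ≤ d0 * (4 / 3 : ℝ) ^ k ∧ d0 * (4 / 3 : ℝ) ^ k ≤ D / 2 := by
    intro k hk
    constructor
    · have := hpow k
      nlinarith
    · refine le_trans (mul_le_mul_of_nonneg_left ?_ hd.le) hD
      exact pow_le_pow_right₀ (by norm_num) (by omega)
  have hD2 : 2 * d0 ≤ D := by
    have := hsk 0 (by omega)
    rw [pow_zero, mul_one] at this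
    linarith [this.2]
  have hD0 : 0 < D := by linarith
  have hL0 : 0 ≤ L := by
    refine le_trans ?_ hL
    have h1 : ‖q (-((D : ℂ) * I))‖ ≤ M := by
      refine hM _ ?_
      have : (-((D : ℂ) * I)).im = -D := by simp
      rw [this]
      linarith
    have h2 := Real.log_le_log (norm_pos_iff.2 h0) h1
    linarith
  have hK0 : (0 : ℝ) < K := by exact_mod_cast hK
  set lam : ℝ := 32 * Real.pi * K * (L + 1) with hlam
  have hlam0 : 0 < lam := by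
    rw [hlam]
    have := Real.pi_pos
    positivity
  by_contra hcon
  push Not at hcon
  have hcov : Ioo a b ⊆ ⋃ k ∈ Finset.range K,
      (({x : ℝ | lam < Real.posLog
        ‖q ((x : ℂ) - ((d0 * (4 / 3 : ℝ) ^ k : ℝ) : ℂ) * I)‖⁻¹} ∩ Ioo (-D) D) ∪
      {x : ℝ | q ((x : ℂ) - ((d0 * (4 / 3 : ℝ) ^ k : ℝ) : ℂ) * I) = 0}) := by
    intro x hx
    obtain ⟨k, hk, h⟩ := hcon x hx.1 hx.2
    rw [mem_iUnion₂]
    refine ⟨k, Finset.mem_range.2 hk, ?_⟩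
    by_cases h5 : q ((x : ℂ) - ((d0 * (4 / 3 : ℝ) ^ k : ℝ) : ℂ) * I) = 0
    · exact Or.inr h5
    · exact Or.inl ⟨h h5, by linarith [hx.1], by linarith [hx.2]⟩
  have h1 := (measure_mono hcov).trans (measure_biUnion_finset_le (μ := volume) _ _)
  have h2 : ∀ k ∈ Finset.range K, volume
      (({x : ℝ | lam < Real.posLog
        ‖q ((x : ℂ) - ((d0 * (4 / 3 : ℝ) ^ k : ℝ) : ℂ) * I)‖⁻¹} ∩ Ioo (-D) D) ∪
      {x : ℝ | q ((x : ℂ) - ((d0 * (4 / 3 : ℝ) ^ k : ℝ) : ℂ) * I) = 0}) ≤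
      ENNReal.ofReal (4 * Real.pi * D * L / lam) := by
    intro k hk
    have hk' := Finset.mem_range.1 hk
    obtain ⟨h3, h4⟩ := hsk k hk'
    have h5 : 0 < d0 * (4 / 3 : ℝ) ^ k := by linarith
    have h6 := Vert_markov (lam := lam) h5 h4 hM1 hq (fun z hz => hM z (by linarith)) h0 hL hlam0
    have h7 := null_zeros (s := d0 * (4 / 3 : ℝ) ^ k) (p := -((D : ℂ) * I)) h5 hq
      (by
        have : (-((D : ℂ) * I)).im = -D := by simp
        rw [this]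
        linarith) h0
    refine (measure_union_le _ _).trans ?_
    rw [h7, add_zero]
    exact h6
  have h3 := h1.trans (Finset.sum_le_sum h2)
  rw [Real.volume_Ioo, Finset.sum_const, Finset.card_range, hab, nsmul_eq_mul,
    ← ENNReal.ofReal_natCast, ← ENNReal.ofReal_mul (Nat.cast_nonneg K)] at h3
  have h4 : 0 ≤ (K : ℝ) * (4 * Real.pi * D * L / lam) := by
    have := Real.pi_pos
    positivity
  rw [ENNReal.ofReal_le_ofReal_iff h4] at h3
  have h5 : (K : ℝ) * (4 * Real.pi * D * L / lam) = D * L / (8 * (L + 1)) := by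
    rw [hlam]
    have := Real.pi_pos
    field_simp
    ring
  rw [h5, div_le_div_iff₀ (by norm_num) (by positivity)] at h3
  nlinarith

private theorem Vert_cover {d0 t : ℝ} (hd : 0 < d0) (h0 : d0 ≤ t) (n : ℕ)
    (h1 : t ≤ 7 / 6 * (d0 * (4 / 3 : ℝ) ^ n)) :
    ∃ k ≤ n, |t - d0 * (4 / 3 : ℝ) ^ k| ≤ d0 * (4 / 3 : ℝ) ^ k / 2 / 3 := by
  induction n with
  | zero =>
    refine ⟨0, le_rfl, ?_⟩
    rw [pow_zero, mul_one] at h1 ⊢
    rw [abs_le]
    constructor <;> linarith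
  | succ n ih =>
    by_cases h2 : 5 / 6 * (d0 * (4 / 3 : ℝ) ^ (n + 1)) ≤ t
    · refine ⟨n + 1, le_rfl, ?_⟩
      rw [abs_le]
      constructor <;> linarith
    · push Not at h2
      have h3 : 0 < d0 * (4 / 3 : ℝ) ^ n := by positivity
      have h4 : d0 * (4 / 3 : ℝ) ^ (n + 1) = 4 / 3 * (d0 * (4 / 3 : ℝ) ^ n) := by ring
      obtain ⟨k, hk, h5⟩ := ih (by rw [h4] at h2; linarith)
      exact ⟨k, by omega, h5⟩

private theorem Vert_one {q : ℂ → ℂ} {x d0 s M lam δ α : ℝ} (hd : 0 < d0) (hs : d0 ≤ s)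
    (hq : DifferentiableOn ℂ q {z | z.im < 0}) (hM : ∀ z : ℂ, z.im ≤ -(d0 / 2) → ‖q z‖ ≤ M)
    (hx : q ((x : ℂ) - (s : ℂ) * I) ≠ 0)
    (hx' : Real.posLog ‖q ((x : ℂ) - (s : ℂ) * I)‖⁻¹ ≤ lam) (hδ : 0 < δ)
    (hα : δ * ‖q ((x : ℂ) - (s : ℂ) * I)‖ ≤
      |(q ((x : ℂ) - (s : ℂ) * I) * exp (-(α : ℂ) * I)).im|)
    (T : Finset ℝ)
    (hT : ∀ t ∈ T, |t - s| ≤ s / 2 / 3 ∧
      (q ((x : ℂ) - (t : ℂ) * I) * exp (-(α : ℂ) * I)).im = 0) :
    (T.card : ℝ) * Real.log 2 ≤ Real.log M + Real.log δ⁻¹ + lam := by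
  have him : ∀ z ∈ ball ((x : ℂ) - (s : ℂ) * I) (s / 2), z.im < -(s / 2) := by
    intro z hz
    have h1 : |(z - ((x : ℂ) - (s : ℂ) * I)).im| < s / 2 :=
      (Complex.abs_im_le_norm _).trans_lt (mem_ball_iff_norm.1 hz)
    rw [Complex.sub_im, Vert_im, abs_lt] at h1
    linarith [h1.2]
  have hcard : (T.image fun t => t - s).card = T.card :=
    Finset.card_image_of_injective _ (sub_left_injective)
  have h := line_card_log (q := q) (c := (x : ℂ) - (s : ℂ) * I) (u := -I) (R := s / 2) (M := M)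
    (δ := δ) (α := α) (by simp) (by linarith)
    (hq.mono fun z hz => by
      change z.im < 0
      linarith [him z hz])
    (fun z hz => hM z (by linarith [him z hz])) hδ hx hα (T.image fun t => t - s)
    (by
      intro t' ht'
      obtain ⟨t, ht, rfl⟩ := Finset.mem_image.1 ht'
      obtain ⟨h1, h2⟩ := hT t ht
      refine ⟨h1, ?_⟩
      have h3 : (x : ℂ) - (s : ℂ) * I + ((t - s : ℝ) : ℂ) * -I = (x : ℂ) - (t : ℂ) * I := by
        push_cast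
        ring
      rw [h3]
      exact h2)
  rw [hcard] at h
  linarith

/-- `vertical_card`. PROOF. Each `t` in `[d0, (7/6) s_{K-1}]` satisfies `|t - s_k| ≤ s_k/6` for some
`k < K` (the intervals `[5/6 s_k, 7/6 s_k]` overlap: `5/6 * 4/3 = 10/9 ≤ 7/6`). For each `k` apply
`line_card_log` with centre `x - i s_k`, `u = -I`, `R = s_k/2` (the ball is in `{Im ≤ -s_k/2}`, contained
in `{Im ≤ -d0/2}`) to `{t - s_k : t ∈ T, |t - s_k| ≤ s_k/6}`; sum over `k`. -/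
theorem vertical_card {q : ℂ → ℂ} {x d0 s M lam δ α : ℝ} {K : ℕ} (hK : 1 ≤ K) (hd : 0 < d0)
    (hs : s ≤ 7 / 6 * (d0 * (4 / 3 : ℝ) ^ (K - 1)))
    (hq : DifferentiableOn ℂ q {z | z.im < 0}) (hM : ∀ z : ℂ, z.im ≤ -(d0 / 2) → ‖q z‖ ≤ M)
    (hx : ∀ k < K, q ((x : ℂ) - ((d0 * (4 / 3 : ℝ) ^ k : ℝ) : ℂ) * I) ≠ 0 ∧
      Real.posLog ‖q ((x : ℂ) - ((d0 * (4 / 3 : ℝ) ^ k : ℝ) : ℂ) * I)‖⁻¹ ≤ lam)
    (hδ : 0 < δ)
    (hα : ∀ k < K, δ * ‖q ((x : ℂ) - ((d0 * (4 / 3 : ℝ) ^ k : ℝ) : ℂ) * I)‖ ≤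
      |(q ((x : ℂ) - ((d0 * (4 / 3 : ℝ) ^ k : ℝ) : ℂ) * I) * exp (-(α : ℂ) * I)).im|)
    (T : Finset ℝ)
    (hT : ∀ t ∈ T, d0 ≤ t ∧ t ≤ s ∧ (q ((x : ℂ) - (t : ℂ) * I) * exp (-(α : ℂ) * I)).im = 0) :
    (T.card : ℝ) * Real.log 2 ≤ K * (Real.log M + Real.log δ⁻¹ + lam) := by
  classical
  set σ : ℕ → ℝ := fun k => d0 * (4 / 3 : ℝ) ^ k with hσ
  have hpow : ∀ n : ℕ, (1 : ℝ) ≤ (4 / 3 : ℝ) ^ n := fun n => one_le_pow₀ (by norm_num)
  have hsub : T ⊆ (Finset.range K).biUnion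
      (fun k => T.filter fun t => |t - σ k| ≤ σ k / 2 / 3) := by
    intro t ht
    obtain ⟨h1, h2, -⟩ := hT t ht
    obtain ⟨k, hk, h3⟩ := Vert_cover hd h1 (K - 1) (h2.trans hs)
    exact Finset.mem_biUnion.2 ⟨k, Finset.mem_range.2 (by omega),
      Finset.mem_filter.2 ⟨ht, h3⟩⟩
  have h1 := (Finset.card_le_card hsub).trans Finset.card_biUnion_le
  have h2 : (T.card : ℝ) ≤
      ∑ k ∈ Finset.range K, ((T.filter fun t => |t - σ k| ≤ σ k / 2 / 3).card : ℝ) := by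
    exact_mod_cast h1
  have hlog : 0 ≤ Real.log 2 := Real.log_nonneg (by norm_num)
  have h3 : ∀ k ∈ Finset.range K,
      ((T.filter fun t => |t - σ k| ≤ σ k / 2 / 3).card : ℝ) * Real.log 2 ≤
      Real.log M + Real.log δ⁻¹ + lam := by
    intro k hk
    have hk' := Finset.mem_range.1 hk
    refine Vert_one (s := σ k) hd ?_ hq hM (hx k hk').1 (hx k hk').2 hδ (hα k hk') _ ?_
    · have := hpow k
      change d0 ≤ d0 * (4 / 3 : ℝ) ^ k
      nlinarith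
    · intro t ht
      obtain ⟨h4, h5⟩ := Finset.mem_filter.1 ht
      exact ⟨h5, (hT t h4).2.2⟩
  calc (T.card : ℝ) * Real.log 2
      ≤ (∑ k ∈ Finset.range K, ((T.filter fun t => |t - σ k| ≤ σ k / 2 / 3).card : ℝ)) *
          Real.log 2 := mul_le_mul_of_nonneg_right h2 hlog
    _ = ∑ k ∈ Finset.range K,
          ((T.filter fun t => |t - σ k| ≤ σ k / 2 / 3).card : ℝ) * Real.log 2 :=
        Finset.sum_mul _ _ _
    _ ≤ ∑ _k ∈ Finset.range K, (Real.log M + Real.log δ⁻¹ + lam) := Finset.sum_le_sum h3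
    _ = K * (Real.log M + Real.log δ⁻¹ + lam) := by
        rw [Finset.sum_const, Finset.card_range, nsmul_eq_mul]

end MP_ae5b4e_LD
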