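import Pool.Agent.Lib.MP_ae5b4e_an_LD.Bot
import Pool.Agent.Lib.MP_ae5b4e_an_LD.Vert

/-! LEMMA D (density), module Cnt: number of exit points.

`exits_card`. PROOF. `Z` is the union of `Z_b = {z ∈ Z : z.im = -s}`, `Z_1 = {z ∈ Z : z.re = x₁}`,
`Z_2 = {z ∈ Z : z.re = x₂}` (`Finset.filter`). `re` is injective on `Z_b` and its image satisfies the
hypotheses of `bottom_card` (`|re| ≤ D`, `z = re - i s`); `-im` is injective on `Z_i`, its image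
satisfies those of `vertical_card` (`d0 ≤ -im ≤ s`, `z = x_i - i (-im)`). Add up. -/

open Complex Set

namespace MP_ae5b4e_LD

private theorem Cnt_vert {q : ℂ → ℂ} {x d0 s M lam δ α : ℝ} {K : ℕ} (hK : 1 ≤ K) (hd : 0 < d0)
    (hs : s ≤ 7 / 6 * (d0 * (4 / 3 : ℝ) ^ (K - 1)))
    (hq : DifferentiableOn ℂ q {z | z.im < 0}) (hM : ∀ z : ℂ, z.im ≤ -(d0 / 2) → ‖q z‖ ≤ M)
    (hx : ∀ k < K, q ((x : ℂ) - ((d0 * (4 / 3 : ℝ) ^ k : ℝ) : ℂ) * I) ≠ 0 ∧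
      Real.posLog ‖q ((x : ℂ) - ((d0 * (4 / 3 : ℝ) ^ k : ℝ) : ℂ) * I)‖⁻¹ ≤ lam)
    (hδ : 0 < δ)
    (hα : ∀ k < K, δ * ‖q ((x : ℂ) - ((d0 * (4 / 3 : ℝ) ^ k : ℝ) : ℂ) * I)‖ ≤
      |(q ((x : ℂ) - ((d0 * (4 / 3 : ℝ) ^ k : ℝ) : ℂ) * I) * exp (-(α : ℂ) * I)).im|)
    (Z : Finset ℂ)
    (hZ : ∀ z ∈ Z, z.re = x ∧ -s ≤ z.im ∧ z.im ≤ -d0 ∧ (q z * exp (-(α : ℂ) * I)).im = 0) :
    (Z.card : ℝ) * Real.log 2 ≤ K * (Real.log M + Real.log δ⁻¹ + lam) := by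
  classical
  have h1 := vertical_card hK hd hs hq hM hx hδ hα (Z.image fun z => -z.im) (by
    intro t ht
    obtain ⟨z, hz, rfl⟩ := Finset.mem_image.1 ht
    obtain ⟨h1, h2, h3, h4⟩ := hZ z hz
    refine ⟨by linarith, by linarith, ?_⟩
    have h5 : (x : ℂ) - ((-z.im : ℝ) : ℂ) * I = z := by
      rw [← h1]
      apply Complex.ext <;> simp
    rw [h5]
    exact h4)
  rwa [Finset.card_image_of_injOn] at h1
  intro z hz w hw hzw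
  have h2 := (hZ z hz).1
  have h3 := (hZ w hw).1
  have h4 : -z.im = -w.im := hzw
  exact Complex.ext (h2.trans h3.symm) (by linarith)

theorem exits_card {q : ℂ → ℂ} {s D M L δ α d0 lam x₁ x₂ : ℝ} {K : ℕ} (hs : 0 < s) (hD : 0 < D)
    (hd : 0 < d0) (hds : d0 ≤ s)
    (hq : DifferentiableOn ℂ q {z | z.im < 0}) (hM : ∀ z : ℂ, z.im ≤ -(d0 / 2) → ‖q z‖ ≤ M)
    (n : ℕ) (hn : 0 < n) (hns : 12 * D / s ≤ n) (c : Fin n → ℝ)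
    (hc : ∀ i : Fin n, -D + 2 * D / n * (i : ℕ) < c i ∧ c i < -D + 2 * D / n * ((i : ℕ) + 1))
    (hc0 : ∀ i, q ((c i : ℂ) - (s : ℂ) * I) ≠ 0)
    (hcL : ∑ i, Real.posLog ‖q ((c i : ℂ) - (s : ℂ) * I)‖⁻¹ ≤ 2 * Real.pi * n * L)
    (hδ : 0 < δ)
    (hα : ∀ i, δ * ‖q ((c i : ℂ) - (s : ℂ) * I)‖ ≤
      |(q ((c i : ℂ) - (s : ℂ) * I) * exp (-(α : ℂ) * I)).im|)
    (hK : 1 ≤ K) (hKs : s ≤ 7 / 6 * (d0 * (4 / 3 : ℝ) ^ (K - 1)))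
    (hx1 : ∀ k < K, q ((x₁ : ℂ) - ((d0 * (4 / 3 : ℝ) ^ k : ℝ) : ℂ) * I) ≠ 0 ∧
      Real.posLog ‖q ((x₁ : ℂ) - ((d0 * (4 / 3 : ℝ) ^ k : ℝ) : ℂ) * I)‖⁻¹ ≤ lam)
    (hα1 : ∀ k < K, δ * ‖q ((x₁ : ℂ) - ((d0 * (4 / 3 : ℝ) ^ k : ℝ) : ℂ) * I)‖ ≤
      |(q ((x₁ : ℂ) - ((d0 * (4 / 3 : ℝ) ^ k : ℝ) : ℂ) * I) * exp (-(α : ℂ) * I)).im|)
    (hx2 : ∀ k < K, q ((x₂ : ℂ) - ((d0 * (4 / 3 : ℝ) ^ k : ℝ) : ℂ) * I) ≠ 0 ∧
      Real.posLog ‖q ((x₂ : ℂ) - ((d0 * (4 / 3 : ℝ) ^ k : ℝ) : ℂ) * I)‖⁻¹ ≤ lam)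
    (hα2 : ∀ k < K, δ * ‖q ((x₂ : ℂ) - ((d0 * (4 / 3 : ℝ) ^ k : ℝ) : ℂ) * I)‖ ≤
      |(q ((x₂ : ℂ) - ((d0 * (4 / 3 : ℝ) ^ k : ℝ) : ℂ) * I) * exp (-(α : ℂ) * I)).im|)
    (hx1D : -D ≤ x₁) (hx2D : x₂ ≤ D)
    (Z : Finset ℂ)
    (hZ : ∀ z ∈ Z, x₁ ≤ z.re ∧ z.re ≤ x₂ ∧ -s ≤ z.im ∧ z.im ≤ -d0 ∧
        (z.im = -s ∨ z.re = x₁ ∨ z.re = x₂) ∧ (q z * exp (-(α : ℂ) * I)).im = 0) :
    (Z.card : ℝ) * Real.log 2 ≤ n * (Real.log M + Real.log δ⁻¹ + 2 * Real.pi * L)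
      + 2 * K * (Real.log M + Real.log δ⁻¹ + lam) := by
  classical
  obtain ⟨Zb, hZb⟩ : ∃ Zb : Finset ℂ, Zb = Z.filter fun z => z.im = -s := ⟨_, rfl⟩
  obtain ⟨Z1, hZ1⟩ : ∃ Z1 : Finset ℂ, Z1 = Z.filter fun z => z.re = x₁ := ⟨_, rfl⟩
  obtain ⟨Z2, hZ2⟩ : ∃ Z2 : Finset ℂ, Z2 = Z.filter fun z => z.re = x₂ := ⟨_, rfl⟩
  have hcov : Z ⊆ Zb ∪ (Z1 ∪ Z2) := by
    intro z hz
    rw [Finset.mem_union, Finset.mem_union, hZb, hZ1, hZ2, Finset.mem_filter, Finset.mem_filter,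
      Finset.mem_filter]
    rcases (hZ z hz).2.2.2.2.1 with h | h | h
    · exact Or.inl ⟨hz, h⟩
    · exact Or.inr (Or.inl ⟨hz, h⟩)
    · exact Or.inr (Or.inr ⟨hz, h⟩)
  have hcard : (Z.card : ℝ) ≤ Zb.card + (Z1.card + Z2.card) := by
    have h1 := (Finset.card_le_card hcov).trans (Finset.card_union_le _ _)
    have h2 := Finset.card_union_le Z1 Z2
    have h3 : Z.card ≤ Zb.card + (Z1.card + Z2.card) := by omega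
    exact_mod_cast h3
  have hb : (Zb.card : ℝ) * Real.log 2 ≤
      n * (Real.log M + Real.log δ⁻¹ + 2 * Real.pi * L) := by
    have h1 := bottom_card hs hD hq (fun z hz => hM z (by linarith)) n hn hns c hc hc0 hcL hδ hα
      (Zb.image fun z => z.re) (by
        intro t ht
        obtain ⟨z, hz, rfl⟩ := Finset.mem_image.1 ht
        rw [hZb, Finset.mem_filter] at hz
        obtain ⟨hz, hzs⟩ := hz
        obtain ⟨h1, h2, h3, h4, h5, h6⟩ := hZ z hz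
        refine ⟨abs_le.2 ⟨by linarith, by linarith⟩, ?_⟩
        have h7 : (z.re : ℂ) - (s : ℂ) * I = z := by
          apply Complex.ext
          · simp
          · simp [hzs]
        rw [h7]
        exact h6)
    rwa [Finset.card_image_of_injOn] at h1
    intro z hz w hw hzw
    rw [hZb, Finset.mem_coe, Finset.mem_filter] at hz hw
    have h4 : z.re = w.re := hzw
    exact Complex.ext h4 (hz.2.trans hw.2.symm)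
  have h1 : (Z1.card : ℝ) * Real.log 2 ≤ K * (Real.log M + Real.log δ⁻¹ + lam) := by
    refine Cnt_vert hK hd hKs hq hM hx1 hδ hα1 Z1 ?_
    intro z hz
    rw [hZ1, Finset.mem_filter] at hz
    obtain ⟨_, _, h3, h4, _, h6⟩ := hZ z hz.1
    exact ⟨hz.2, h3, h4, h6⟩
  have h2 : (Z2.card : ℝ) * Real.log 2 ≤ K * (Real.log M + Real.log δ⁻¹ + lam) := by
    refine Cnt_vert hK hd hKs hq hM hx2 hδ hα2 Z2 ?_
    intro z hz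
    rw [hZ2, Finset.mem_filter] at hz
    obtain ⟨_, _, h3, h4, _, h6⟩ := hZ z hz.1
    exact ⟨hz.2, h3, h4, h6⟩
  have hlog2 : 0 ≤ Real.log 2 := Real.log_nonneg (by norm_num)
  have h3 := mul_le_mul_of_nonneg_right hcard hlog2
  linarith

end MP_ae5b4e_LD
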