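import Pool.Agent.Lib.MP_ae5b4e_an_LD.GDefs

/-! THEOREM B', module Equi: trajectories are uniformly equicontinuous and bounded on `[0, T]`.

`equi`. PROOF. `C' = sqrt (C / (m e^{-2T}))`. For `0 ≤ t ≤ T`: `‖q (l t)‖ = ‖q P‖ e^{-2t} ≥ m e^{-2T}`,
depth `> d0` (`Traj.deep`), so `DeepBd` gives depth `≤ C'`: `l` maps `[0, T]` into `Strip d0 C'`. Let `c`
be the constant of `F.osc δ C'` and `η = c / (4 kap)`. Let `s ≤ s'` in `[0, T]`, `s' - s ≤ η`. If
`δ ≤ dist (l s) (l s')` then `osc` on `Icc s s'` gives `u` with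
`c ≤ dist (q (l u)) (q (l s)) = ‖q P‖ (e^{-2s} - e^{-2u}) ≤ kap 2 (u - s) ≤ 2 kap η < c`: contradiction.
(`Traj.val`; `e^{-2s} - e^{-2u} ≤ 2 (u - s)` for `0 ≤ s ≤ u`.)

`bdd`. PROOF. `equi` with `δ = 1` gives `η`; `⌈T/η⌉ + 1` steps: `dist (l s) P ≤ T/η + 2`; the depth of
`P` is at most `sqrt (C/m)`. -/

open Complex Set Filter PorTR MeasureTheory Topology
open scoped ENNReal

namespace MP_ae5b4e_LD

/-- the trajectory stays in a strip -/
theorem Equi_strip {W : Set (ℂ → ℂ)} {C d0 Ce kap : ℝ} (F : Fam W C d0 Ce kap) {m T : ℝ}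
    (hm : 0 < m) {q : ℂ → ℂ} (hq : q ∈ W) {P : ℂ} {l : ℝ → ℂ} (h : Traj q P l)
    (hP : 2 * d0 ≤ -P.im) (hmq : m ≤ ‖q P‖) (hk : ‖q P‖ < kap) {t : ℝ} (ht : t ∈ Icc 0 T) :
    l t ∈ Strip d0 (Real.sqrt (C / (m * Real.exp (-2 * T)))) := by
  refine ⟨(Traj.deep F hq hP hk h t ht.1).le, F.depth_le hq (h.low t ht.1) (by positivity) ?_⟩
  rw [h.val t ht.1, norm_mul, Complex.norm_real, Real.norm_of_nonneg (Real.exp_pos _).le]
  have h1 : Real.exp (-2 * T) ≤ Real.exp (-2 * t) := Real.exp_le_exp.mpr (by linarith [ht.2])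
  gcongr

theorem Equi_exp {s u : ℝ} (hs : 0 ≤ s) (hsu : s ≤ u) :
    |Real.exp (-2 * u) - Real.exp (-2 * s)| ≤ 2 * (u - s) := by
  have h1 : Real.exp (-2 * u) = Real.exp (-2 * s) * Real.exp (-(2 * (u - s))) := by
    rw [← Real.exp_add]
    congr 1
    ring
  have h2 : Real.exp (-2 * s) ≤ 1 := Real.exp_le_one_iff.mpr (by linarith)
  have h3 : 0 < Real.exp (-2 * s) := Real.exp_pos _
  have h4 : 1 - 2 * (u - s) ≤ Real.exp (-(2 * (u - s))) := by
    have := Real.add_one_le_exp (-(2 * (u - s)))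
    linarith
  have h5 : Real.exp (-(2 * (u - s))) ≤ 1 := Real.exp_le_one_iff.mpr (by linarith)
  rw [h1, abs_le]
  constructor <;> nlinarith

theorem equi {W : Set (ℂ → ℂ)} {C d0 Ce kap : ℝ} (F : Fam W C d0 Ce kap) (hbd : DeepBd W C d0)
    {m T δ : ℝ} (hm : 0 < m) (hT : 0 ≤ T) (hδ : 0 < δ) :
    ∃ η : ℝ, 0 < η ∧ ∀ q ∈ W, ∀ (P : ℂ) (l : ℝ → ℂ), Traj q P l → 2 * d0 ≤ -P.im → m ≤ ‖q P‖ →
      ‖q P‖ < kap → ∀ s ∈ Icc 0 T, ∀ s' ∈ Icc 0 T, |s - s'| ≤ η → dist (l s) (l s') < δ := by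
  obtain ⟨c, hc, hosc⟩ := F.osc δ hδ (Real.sqrt (C / (m * Real.exp (-2 * T))))
  have hkap := F.kap_pos
  refine ⟨c / (4 * kap), by positivity, fun q hq P l h hP hmq hk => ?_⟩
  have key : ∀ s ∈ Icc 0 T, ∀ s' ∈ Icc 0 T, s ≤ s' → s' - s ≤ c / (4 * kap) →
      dist (l s) (l s') < δ := by
    intro s hs s' hs' hss hle
    by_contra hcon
    rw [not_lt] at hcon
    obtain ⟨u, hu, hcu⟩ := hosc q hq s s' l hss
      (h.cont.mono fun x hx => hs.1.trans hx.1)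
      (fun x hx => Equi_strip F hm hq h hP hmq hk ⟨hs.1.trans hx.1, hx.2.trans hs'.2⟩) hcon
    rw [dist_eq_norm, h.val u (hs.1.trans hu.1), h.val s hs.1, ← mul_sub, norm_mul,
      ← Complex.ofReal_sub, Complex.norm_real, Real.norm_eq_abs] at hcu
    have h1 := Equi_exp hs.1 hu.1
    have h2 : ‖q P‖ * |Real.exp (-2 * u) - Real.exp (-2 * s)| ≤ kap * (2 * (c / (4 * kap))) := by
      refine mul_le_mul hk.le (h1.trans ?_) (abs_nonneg _) hkap.le
      linarith [hu.2]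
    have h3 : kap * (2 * (c / (4 * kap))) = c / 2 := by
      field_simp
      ring
    rw [h3] at h2
    linarith
  intro s hs s' hs' hle
  rcases le_total s s' with hss | hss
  · refine key s hs s' hs' hss (le_trans ?_ hle)
    rw [abs_sub_comm]
    exact le_abs_self _
  · rw [dist_comm]
    exact key s' hs' s hs hss ((le_abs_self _).trans hle)

theorem bdd {W : Set (ℂ → ℂ)} {C d0 Ce kap : ℝ} (F : Fam W C d0 Ce kap) (hbd : DeepBd W C d0)
    {m T : ℝ} (hm : 0 < m) (hT : 0 ≤ T) :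
    ∃ R : ℝ, 0 < R ∧ ∀ q ∈ W, ∀ (P : ℂ) (l : ℝ → ℂ), Traj q P l → 2 * d0 ≤ -P.im → m ≤ ‖q P‖ →
      ‖q P‖ < kap → ∀ s ∈ Icc 0 T, dist (l s) P ≤ R ∧ -(l s).im ≤ R := by
  obtain ⟨η, hη, H⟩ := equi F hbd hm hT one_pos
  have hC' := Real.sqrt_nonneg (C / (m * Real.exp (-2 * T)))
  refine ⟨⌈T / η⌉₊ + Real.sqrt (C / (m * Real.exp (-2 * T))) + 1, by positivity,
    fun q hq P l h hP hmq hk => ?_⟩
  have key : ∀ n : ℕ, ∀ s ∈ Icc 0 T, s ≤ n * η → dist (l s) P ≤ n := by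
    intro n
    induction n with
    | zero =>
      intro s hs hsn
      have h0 : s = 0 := le_antisymm (by simpa using hsn) hs.1
      rw [h0, h.start, dist_self]
      exact Nat.cast_nonneg _
    | succ n ih =>
      intro s hs hsn
      push_cast at hsn ⊢
      have hnη : 0 ≤ (n : ℝ) * η := by positivity
      have hs' : max (s - η) 0 ∈ Icc 0 T :=
        ⟨le_max_right _ _, max_le (by linarith [hs.2]) hT⟩
      have h1 := ih _ hs' (max_le (by linarith) hnη)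
      have h2 := H q hq P l h hP hmq hk s hs _ hs' (by
        rcases le_total (s - η) 0 with h3 | h3
        · rw [max_eq_right h3, sub_zero, abs_of_nonneg hs.1]
          linarith
        · rw [max_eq_left h3, sub_sub_cancel, abs_of_pos hη])
      have h3 := dist_triangle (l s) (l (max (s - η) 0)) P
      linarith
  intro s hs
  have hsT : s ≤ (⌈T / η⌉₊ : ℝ) * η := by
    have h1 := Nat.le_ceil (T / η)
    rw [div_le_iff₀ hη] at h1
    exact hs.2.trans h1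
  have h1 := key _ s hs hsT
  have h2 := (Equi_strip F hm hq h hP hmq hk hs).2
  have h3 : (0 : ℝ) ≤ (⌈T / η⌉₊ : ℝ) := Nat.cast_nonneg _
  exact ⟨by linarith, by linarith⟩

end MP_ae5b4e_LD
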