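import Mathlib

/-! LEMMA D (density), module Exit: a path which goes to infinity in depth leaves a rectangle.

`exit_point`. PROOF. `f t = min (min ((l t).re - x₁) (x₂ - (l t).re)) ((l t).im + s)` is continuous on
`[0, ∞)`, `f 0 > 0`, `f t ≤ (l t).im + s → -∞`; by the intermediate value theorem `f t = 0` for some
`t ≥ 0`: all three numbers are `≥ 0` and one of them is `0`. -/

open Complex Set Filter

namespace MP_ae5b4e_LD

theorem exit_point {l : ℝ → ℂ} (hl : ContinuousOn l (Ici 0))
    (hdeep : Tendsto (fun t => (l t).im) atTop atBot) {x₁ x₂ s : ℝ}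
    (h1 : x₁ < (l 0).re) (h2 : (l 0).re < x₂) (h3 : -s < (l 0).im) :
    ∃ t, 0 ≤ t ∧ x₁ ≤ (l t).re ∧ (l t).re ≤ x₂ ∧ -s ≤ (l t).im ∧
      ((l t).im = -s ∨ (l t).re = x₁ ∨ (l t).re = x₂) := by
  set f : ℝ → ℝ := fun t => min (min ((l t).re - x₁) (x₂ - (l t).re)) ((l t).im + s) with hf
  have hre : ContinuousOn (fun t => (l t).re) (Ici 0) := Complex.continuous_re.comp_continuousOn hl
  have him : ContinuousOn (fun t => (l t).im) (Ici 0) := Complex.continuous_im.comp_continuousOn hl
  have hfc : ContinuousOn f (Ici 0) :=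
    ((hre.sub continuousOn_const).inf (continuousOn_const.sub hre)).inf
      (him.add continuousOn_const)
  have hf0 : 0 ≤ f 0 := by
    simp only [hf]
    refine le_min (le_min ?_ ?_) ?_ <;> linarith
  obtain ⟨T, hT1, hT2⟩ : ∃ T, 0 ≤ T ∧ (l T).im < -s := by
    have e1 := hdeep.eventually (eventually_lt_atBot (-s))
    obtain ⟨T, h1, h2⟩ := (e1.and (eventually_ge_atTop 0)).exists
    exact ⟨T, h2, h1⟩
  have hfT : f T ≤ 0 := (min_le_right _ _).trans (by linarith)
  obtain ⟨t, ht, hft⟩ := intermediate_value_Icc' hT1 (hfc.mono Icc_subset_Ici_self) ⟨hfT, hf0⟩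
  simp only [hf] at hft
  have g1 : 0 ≤ (l t).re - x₁ := hft ▸ (min_le_left _ _).trans (min_le_left _ _)
  have g2 : 0 ≤ x₂ - (l t).re := hft ▸ (min_le_left _ _).trans (min_le_right _ _)
  have g3 : 0 ≤ (l t).im + s := hft ▸ min_le_right _ _
  refine ⟨t, ht.1, by linarith, by linarith, by linarith, ?_⟩
  rcases min_choice (min ((l t).re - x₁) (x₂ - (l t).re)) ((l t).im + s) with h | h
  · rw [hft] at h
    rcases min_choice ((l t).re - x₁) (x₂ - (l t).re) with h' | h'
    · rw [← h] at h'
      right; left; linarith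
    · rw [← h] at h'
      right; right; linarith
  · rw [hft] at h
    left; linarith

end MP_ae5b4e_LD
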