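import Pool.Agent.Lib.MP_ae5b4e_an_LD.Pick

/-! THEOREM B', module Fat: a window limit and a box of finite energy (Fatou).

`finite_energy`. PROOF. `pick` with `J = n + 1` gives `f n ∈ W`; `Cpt`: a subsequence `g n = f (φ n)`
converges to `q ∈ W` locally uniformly on `Hm`; the cut-offs are `R n = (φ n + 1)(2X+3) → ∞`.
Let `P ∈ Ereg q ∩ bx` outside the null sets `nongeneric_null` of all the `g n` (countable union). Then
`g n P → q P`, so for large `n`: `g n P ≠ 0`, `‖g n P‖ < kap` and `P ∈ Ereg (g n)`. For `t > 0`: `stab`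
(constant points `P`, `l n = tr (g n) P`; drop finitely many `n`) gives `tr (g n) P t → tr q P t =: z`;
`g n`, `deriv (g n)` converge locally uniformly (`TendstoLocallyUniformlyOn.deriv`), `deriv q z ≠ 0`, so
`en (g n) P t → en q P t`, and `|Re (tr (g n) P t)| ≤ R n` for large `n`: `enR (g n) (R n) 0 P t → en q P t`.
So `en q P t ≤ liminf_n (indicator of Ereg (g n) ×ˢ Ioi 0 of enR (g n) (R n) 0) (P, t)`. Fatou
(`lintegral_liminf_le`) in `t` and then in `P` (measurability: `enR_meas`,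
`Measurable.lintegral_prod_right'`; on `Ereg q ∩ bx` use the indicator functions on all of `bx`):
`∫⁻_{Ereg q ∩ bx} ∫⁻ en q ≤ liminf ∫⁻_{Ereg (g n) ∩ bx} ∫⁻ enR (g n) (R n) 0 ≤ the bound`. -/

open Complex Set Filter PorTR MeasureTheory Topology
open scoped ENNReal

namespace MP_ae5b4e_LD

private theorem Fat_open : IsOpen Hm := isOpen_lt Complex.continuous_im continuous_const

/-- pointwise convergence of the energy densities -/
theorem en_tendsto {W : Set (ℂ → ℂ)} {C d0 Ce kap : ℝ} (F : Fam W C d0 Ce kap)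
    (hbd : DeepBd W C d0) {g : ℕ → ℂ → ℂ} (hg : ∀ n, g n ∈ W) {q : ℂ → ℂ} (hq : q ∈ W)
    (hlim : TendstoLocallyUniformlyOn g q atTop Hm) {R : ℕ → ℝ} (hR : Tendsto R atTop atTop)
    {P : ℂ} (hP : P ∈ Ereg q d0 kap) (hPg : ∀ᶠ n in atTop, P ∈ Ereg (g n) d0 kap) {t : ℝ}
    (ht : 0 ≤ t) :
    Tendsto (fun n => enR (g n) (R n) 0 P t) atTop (𝓝 (en q P t)) := by
  have hPH : P ∈ Hm := ereg_low F.d0_pos hP
  have hT := tr_traj F hq hP
  have hzH : tr q P t ∈ Hm := hT.low t ht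
  have hop := Fat_open
  -- convergence of the trajectories
  obtain ⟨N, hN⟩ := eventually_atTop.1 hPg
  have h1 : Tendsto (fun n => tr (g (n + N)) P t) atTop (𝓝 (tr q P t)) := by
    have hlim' : TendstoLocallyUniformlyOn (fun n => g (n + N)) q atTop Hm := by
      intro u hu x hx
      obtain ⟨s, hs, h⟩ := hlim u hu x hx
      exact ⟨s, hs, (tendsto_add_atTop_nat N).eventually h⟩
    exact stab F hbd (f := fun n => g (n + N)) (fun n => hg _) hq hlim'
      (P := fun _ => P) tendsto_const_nhds (fun n => hP.1.le)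
      (fun n => (hN (n + N) (by omega)).2.2.1) hP.2.1
      (l := fun n => tr (g (n + N)) P) (fun n => tr_traj F (hg _) (hN (n + N) (by omega)))
      hT (t := fun _ => t) (fun _ => ht) tendsto_const_nhds
  have htr : Tendsto (fun n => tr (g n) P t) atTop (𝓝 (tr q P t)) :=
    (tendsto_add_atTop_iff_nat N).1 h1
  have htr' : Tendsto (fun n => tr (g n) P t) atTop (𝓝[Hm] (tr q P t)) := by
    rw [hop.nhdsWithin_eq hzH]
    exact htr
  -- convergence of the values
  have hdlim : TendstoLocallyUniformlyOn (deriv ∘ g) (deriv q) atTop Hm :=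
    hlim.deriv (Eventually.of_forall fun n => F.hol _ (hg n)) hop
  have hqc : ContinuousOn q Hm := (F.hol q hq).continuousOn
  have hdc : ContinuousOn (deriv q) Hm := ((F.hol q hq).deriv hop).continuousOn
  have hPw : Tendsto (fun _ : ℕ => P) atTop (𝓝[Hm] P) := by
    rw [hop.nhdsWithin_eq hPH]
    exact tendsto_const_nhds
  have a1 : Tendsto (fun n => g n (tr (g n) P t)) atTop (𝓝 (q (tr q P t))) :=
    hlim.tendsto_comp (hqc _ hzH) hzH htr'
  have a2 : Tendsto (fun n => deriv (g n) (tr (g n) P t)) atTop (𝓝 (deriv q (tr q P t))) :=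
    hdlim.tendsto_comp (hdc _ hzH) hzH htr'
  have a3 : Tendsto (fun n => g n P) atTop (𝓝 (q P)) :=
    hlim.tendsto_comp (hqc _ hPH) hPH hPw
  have a4 : Tendsto (fun n => deriv (g n) P) atTop (𝓝 (deriv q P)) :=
    hdlim.tendsto_comp (hdc _ hPH) hPH hPw
  have b1 : Tendsto (fun n => vel (g n) (tr (g n) P t)) atTop (𝓝 (vel q (tr q P t))) := by
    unfold vel
    exact (a1.norm.const_mul 2).div a2.norm (norm_ne_zero_iff.2 (hT.reg t ht))
  have b2 : Tendsto (fun n => wt (g n) P) atTop (𝓝 (wt q P)) := by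
    unfold wt
    exact (a4.norm.pow 2).div a3.norm (norm_ne_zero_iff.2 hP.2.1)
  have b3 : Tendsto (fun n => en (g n) P t) atTop (𝓝 (en q P t)) := by
    unfold en
    exact ENNReal.tendsto_ofReal (((b1.pow 2).const_mul _).mul b2)
  refine b3.congr' ?_
  have c1 : Tendsto (fun n => |(tr (g n) P t).re - 0|) atTop (𝓝 |(tr q P t).re - 0|) :=
    (((continuous_re.tendsto _).comp htr).sub_const 0).abs
  filter_upwards [c1.eventually (gt_mem_nhds (lt_add_one _)),
    hR.eventually_ge_atTop (|(tr q P t).re - 0| + 1)] with n hn hn'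
  unfold enR
  rw [indicator_of_mem]
  exact hn.le.trans hn'

private theorem Fat_bx (X C5 x : ℝ) : MeasurableSet (bx X C5 x) := by
  have h1 : IsOpen (bx X C5 x) :=
    (isOpen_lt ((continuous_re.sub continuous_const).abs) continuous_const).inter
      (isOpen_lt continuous_im.neg continuous_const)
  exact h1.measurableSet

theorem finite_energy {W : Set (ℂ → ℂ)} {C d0 Ce kap : ℝ} (F : Fam W C d0 Ce kap)
    (hbd : DeepBd W C d0) (hne : W.Nonempty) (hcpt : Cpt W) {X : ℝ} (C5 : ℝ) (hX : 0 ≤ X) :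
    ∃ q ∈ W, ∫⁻ P in Ereg q d0 kap ∩ bx X C5 0, ∫⁻ t in Ioi (0 : ℝ), en q P t
      ≤ ENNReal.ofReal (1560 * (2 * X + 3) * Real.sqrt (C * kap)) := by
  have hpk := fun n : ℕ => pick F hbd hne (C5 := C5) hX (n + 1) (Nat.le_add_left 1 n)
  choose f hfW hfb using hpk
  obtain ⟨q, hq, φ, hφ, hlim⟩ := hcpt f hfW
  refine ⟨q, hq, ?_⟩
  set B := ENNReal.ofReal (1560 * (2 * X + 3) * Real.sqrt (C * kap)) with hB
  let g : ℕ → ℂ → ℂ := fun n => f (φ n)
  let R : ℕ → ℝ := fun n => ((φ n + 1 : ℕ) : ℝ) * (2 * X + 3)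
  have hg : ∀ n, g n ∈ W := fun n => hfW _
  have hgb : ∀ n, ∫⁻ P in Ereg (g n) d0 kap ∩ bx X C5 0,
      ∫⁻ t in Ioi (0 : ℝ), enR (g n) (R n) 0 P t ≤ B := fun n => hfb (φ n)
  have hR : Tendsto R atTop atTop := by
    have h1 : Tendsto (fun n => ((φ n + 1 : ℕ) : ℝ)) atTop atTop :=
      tendsto_natCast_atTop_atTop.comp
        ((tendsto_add_atTop_nat 1).comp hφ.tendsto_atTop)
    exact h1.atTop_mul_const (by linarith)
  let G : ℕ → ℂ × ℝ → ℝ≥0∞ := fun n => (Ereg (g n) d0 kap ×ˢ Ioi (0 : ℝ)).indicator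
    (fun p : ℂ × ℝ => enR (g n) (R n) 0 p.1 p.2)
  have hGm : ∀ n, Measurable (G n) := fun n => enR_meas F hbd (hg n) (R n) 0
  -- generic points
  have hgen : ∀ᵐ P : ℂ, ∀ n, ¬ (P ∈ Hm ∧ g n P ≠ 0 ∧ ∃ z ∈ Hm, deriv (g n) z = 0 ∧
      ∃ r : ℝ, 0 < r ∧ g n z = r * g n P) := by
    rw [ae_all_iff]
    intro n
    rw [ae_iff]
    simp only [not_not]
    exact nongeneric_null F (hg n)
  have hev : ∀ P ∈ Ereg q d0 kap, (∀ n, ¬ (P ∈ Hm ∧ g n P ≠ 0 ∧ ∃ z ∈ Hm, deriv (g n) z = 0 ∧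
      ∃ r : ℝ, 0 < r ∧ g n z = r * g n P)) → ∀ᶠ n in atTop, P ∈ Ereg (g n) d0 kap := by
    intro P hP hgP
    have hPH : P ∈ Hm := ereg_low F.d0_pos hP
    have h1 : Tendsto (fun n => g n P) atTop (𝓝 (q P)) := hlim.tendsto_at hPH
    filter_upwards [h1.eventually (isOpen_ne.mem_nhds hP.2.1),
      h1.norm.eventually (gt_mem_nhds hP.2.2.1)] with n hn hn'
    refine ⟨hP.1, hn, hn', fun z hz hz0 r hr he => hgP n ⟨hPH, hn, z, hz, hz0, r, hr, he⟩⟩
  have hSm : MeasurableSet (Ereg q d0 kap ∩ bx X C5 0) := (ereg_meas F hq).inter (Fat_bx _ _ _)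
  have s1 : ∫⁻ P in Ereg q d0 kap ∩ bx X C5 0, ∫⁻ t in Ioi (0 : ℝ), en q P t ≤
      ∫⁻ P in Ereg q d0 kap ∩ bx X C5 0, ∫⁻ t in Ioi (0 : ℝ),
        liminf (fun n => G n (P, t)) atTop := by
    refine setLIntegral_mono_ae' hSm ?_
    filter_upwards [hgen] with P hgP hP
    refine setLIntegral_mono' measurableSet_Ioi fun t ht => ?_
    have h1 := en_tendsto F hbd hg hq hlim hR hP.1 (hev P hP.1 hgP) (le_of_lt ht)
    have h2 : Tendsto (fun n => G n (P, t)) atTop (𝓝 (en q P t)) := by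
      refine h1.congr' ?_
      filter_upwards [hev P hP.1 hgP] with n hn
      exact (indicator_of_mem (show (P, t) ∈ Ereg (g n) d0 kap ×ˢ Ioi (0 : ℝ) from ⟨hn, ht⟩)
        (fun p : ℂ × ℝ => enR (g n) (R n) 0 p.1 p.2)).symm
    rw [h2.liminf_eq]
  have s2 : ∫⁻ P in Ereg q d0 kap ∩ bx X C5 0, ∫⁻ t in Ioi (0 : ℝ),
      liminf (fun n => G n (P, t)) atTop ≤
      ∫⁻ P in bx X C5 0, ∫⁻ t in Ioi (0 : ℝ), liminf (fun n => G n (P, t)) atTop :=
    lintegral_mono_set inter_subset_right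
  have s3 : ∫⁻ P in bx X C5 0, ∫⁻ t in Ioi (0 : ℝ), liminf (fun n => G n (P, t)) atTop ≤
      ∫⁻ P in bx X C5 0, liminf (fun n => ∫⁻ t in Ioi (0 : ℝ), G n (P, t)) atTop :=
    lintegral_mono fun P => lintegral_liminf_le fun n => (hGm n).comp measurable_prodMk_left
  have s4 : ∫⁻ P in bx X C5 0, liminf (fun n => ∫⁻ t in Ioi (0 : ℝ), G n (P, t)) atTop ≤
      liminf (fun n => ∫⁻ P in bx X C5 0, ∫⁻ t in Ioi (0 : ℝ), G n (P, t)) atTop :=
    lintegral_liminf_le fun n => (hGm n).lintegral_prod_right'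
  have s5 : ∀ n, ∫⁻ P in bx X C5 0, ∫⁻ t in Ioi (0 : ℝ), G n (P, t) ≤ B := by
    intro n
    refine le_trans (le_of_eq ?_) (hgb n)
    have h1 : ∀ P, ∫⁻ t in Ioi (0 : ℝ), G n (P, t) = (Ereg (g n) d0 kap).indicator
        (fun P => ∫⁻ t in Ioi (0 : ℝ), enR (g n) (R n) 0 P t) P := by
      intro P
      by_cases hP : P ∈ Ereg (g n) d0 kap
      · rw [indicator_of_mem hP]
        refine setLIntegral_congr_fun measurableSet_Ioi fun t ht => ?_
        exact indicator_of_mem (show (P, t) ∈ Ereg (g n) d0 kap ×ˢ Ioi (0 : ℝ) from ⟨hP, ht⟩)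
          (fun p : ℂ × ℝ => enR (g n) (R n) 0 p.1 p.2)
      · rw [indicator_of_notMem hP]
        have h2 : ∀ t, G n (P, t) = 0 := fun t =>
          indicator_of_notMem (fun h => hP h.1) _
        simp only [h2, lintegral_zero]
    simp only [h1]
    rw [lintegral_indicator (ereg_meas F (hg n)), Measure.restrict_restrict (ereg_meas F (hg n))]
  have s6 : liminf (fun n => ∫⁻ P in bx X C5 0, ∫⁻ t in Ioi (0 : ℝ), G n (P, t)) atTop ≤ B := by
    refine (liminf_le_liminf (Eventually.of_forall s5)).trans ?_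
    rw [liminf_const]
  exact s1.trans (s2.trans (s3.trans (s4.trans s6)))

end MP_ae5b4e_LD
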