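import Pool.Agent.Lib.MP_ae5b4e_an_TR.Dich
import Pool.Agent.Lib.MP_ae5b4e_an_TR.Der

/-! THEOREM B' (density by averaging over places, no NB_5(B)): definitions. `W` is the family of window
limits (`Fam W C d0 Ce kap` of helper82), `Cpt W` its sequential compactness. -/

open Complex Set Filter PorTR MeasureTheory Topology
open scoped ENNReal

namespace MP_ae5b4e_LD

/-- sequential compactness for locally uniform convergence -/
def Cpt (W : Set (ℂ → ℂ)) : Prop :=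
  ∀ f : ℕ → ℂ → ℂ, (∀ n, f n ∈ W) → ∃ q ∈ W, ∃ φ : ℕ → ℕ, StrictMono φ ∧
    TendstoLocallyUniformlyOn (fun n => f (φ n)) q atTop Hm

/-- the bound at depth `≥ d0` (all that is used) -/
def DeepBd (W : Set (ℂ → ℂ)) (C d0 : ℝ) : Prop :=
  ∀ q ∈ W, ∀ z : ℂ, z.im ≤ -d0 → ‖q z‖ ≤ C / z.im ^ 2

/-- regular starting points: depth `> 2 d0`, `0 < |q P| < kap`, no critical value of `q` on the open
ray through `q P` -/
def Ereg (q : ℂ → ℂ) (d0 kap : ℝ) : Set ℂ :=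
  {P | 2 * d0 < -P.im ∧ q P ≠ 0 ∧ ‖q P‖ < kap ∧
    ∀ z ∈ Hm, deriv q z = 0 → ∀ r : ℝ, 0 < r → q z ≠ r * q P}

open Classical in
/-- the trajectory of `P` (junk: constant) -/
noncomputable def tr (q : ℂ → ℂ) (P : ℂ) : ℝ → ℂ :=
  if h : ∃ l, Traj q P l then h.choose else fun _ => P

/-- speed of the flow `l' = - 2 q / q'` at `z` -/
noncomputable def vel (q : ℂ → ℂ) (z : ℂ) : ℝ := 2 * ‖q z‖ / ‖deriv q z‖

/-- derivative of the flow map `P ↦ tr q P t` -/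
noncomputable def dtr (q : ℂ → ℂ) (P : ℂ) (t : ℝ) : ℂ :=
  deriv q P * (Real.exp (-2 * t) : ℝ) / deriv q (tr q P t)

/-- weight of the starting point -/
noncomputable def wt (q : ℂ → ℂ) (P : ℂ) : ℝ := ‖deriv q P‖ ^ 2 / ‖q P‖

/-- the energy density `e^{-2t} (1+t)^4 |l'|^2 w(P)` -/
noncomputable def en (q : ℂ → ℂ) (P : ℂ) (t : ℝ) : ℝ≥0∞ :=
  ENNReal.ofReal (Real.exp (-2 * t) * (1 + t) ^ 4 * vel q (tr q P t) ^ 2 * wt q P)

/-- the same, cut off at horizontal distance `R` from `x` -/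
noncomputable def enR (q : ℂ → ℂ) (R x : ℝ) (P : ℂ) (t : ℝ) : ℝ≥0∞ :=
  {t | |(tr q P t).re - x| ≤ R}.indicator (fun t => en q P t) t

/-- open box with centre `x` -/
def bx (X C5 x : ℝ) : Set ℂ := {P | |P.re - x| < X ∧ -P.im < C5}

/-- `P` is good (internal form) -/
def GoodV (q : ℂ → ℂ) (P : ℂ) : Prop :=
  ∫⁻ t in Ioi (0 : ℝ), ENNReal.ofReal (Real.exp (-t) * (1 + t) * vel q (tr q P t)) < ⊤

/-- `P` is good: the trajectory exists for all times and `∫ e^{-t} (1+t) |l'(t)| dt < ∞` -/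
def Good (q : ℂ → ℂ) (P : ℂ) : Prop :=
  ∃ l, Traj q P l ∧ IntegrableOn (fun t => Real.exp (-t) * (1 + t) * ‖deriv l t‖) (Ioi 0)

theorem deepBd_of_fam {W : Set (ℂ → ℂ)} {C d0 Ce kap : ℝ} (F : Fam W C d0 Ce kap) :
    DeepBd W C d0 := by
  intro q hq z hz
  have hd := F.d0_pos
  apply F.bound q hq z
  show z.im < 0
  linarith

theorem ereg_low {q : ℂ → ℂ} {d0 kap : ℝ} (hd : 0 < d0) {P : ℂ} (h : P ∈ Ereg q d0 kap) :
    P ∈ Hm := by
  have h1 := h.1
  show P.im < 0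
  linarith

/-- existence of the trajectory of a regular starting point -/
theorem tr_traj {W : Set (ℂ → ℂ)} {C d0 Ce kap : ℝ} (F : Fam W C d0 Ce kap) {q : ℂ → ℂ}
    (hq : q ∈ W) {P : ℂ} (h : P ∈ Ereg q d0 kap) : Traj q P (tr q P) := by
  have hex : ∃ l, Traj q P l := by
    rcases F.dich hq h.1.le h.2.1 h.2.2.1 (fun z hz hz0 r hr _ => h.2.2.2 z hz hz0 r hr) with h1 | h1
    · obtain ⟨l, _, hl, _⟩ := h1
      exact ⟨l, hl⟩
    · obtain ⟨l, hl, _⟩ := h1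
      exact ⟨l, hl⟩
  unfold tr
  rw [dif_pos hex]
  exact hex.choose_spec

/-- a point with generic phase is a regular starting point -/
theorem mem_ereg {q : ℂ → ℂ} {d0 kap α r : ℝ} (hg : Generic q α) {P : ℂ} (hP : 2 * d0 < -P.im)
    (hr : 0 < r) (hrk : r < kap) (hqP : q P = r * cexp (α * I)) : P ∈ Ereg q d0 kap := by
  have hexp : ‖cexp (α * I)‖ = 1 := norm_exp_ofReal_mul_I α
  refine ⟨hP, ?_, ?_, ?_⟩
  · rw [hqP]
    exact mul_ne_zero (by exact_mod_cast hr.ne') (exp_ne_zero _)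
  · rw [hqP, norm_mul, hexp, mul_one, norm_real, Real.norm_of_nonneg hr.le]
    exact hrk
  · intro z hz hz0 s hs heq
    refine hg z hz hz0 (s * r) (mul_pos hs hr) (heq.trans ?_)
    rw [hqP]
    push_cast
    ring

end MP_ae5b4e_LD
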