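import Pool.Agent.Lib.MP_ae5b4e_an_LD.Stab

/-! THEOREM B', module GFlow: the flow map `(P, t) ↦ tr q P t` on `Ereg × [0, ∞)`.

`tr_cont`: `stab` with `f n = q` (sequential continuity: `ℂ × ℝ` is first countable; `tr_traj`).
`tr_deriv`: let `P ∈ Ereg`, `z = tr q P t` (regular point of `q`), `g` the local inverse of `q` at
`z`
(`HasStrictDerivAt.localInverse`, derivative `(deriv q z)⁻¹` at `q z`). For `P' → P` in `Ereg`:
`tr q P' t → z` by `tr_cont`, so `tr q P' t = g (q (tr q P' t)) = g (q P' e^{-2t})` eventually;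
chain rule.
`tr_inj`: `Traj.meet` with `s = s' = t`. `tr_deep`: `Traj.deep`. -/

open Complex Set Filter PorTR MeasureTheory Topology
open scoped ENNReal

namespace MP_ae5b4e_LD

theorem tr_cont {W : Set (ℂ → ℂ)} {C d0 Ce kap : ℝ} (F : Fam W C d0 Ce kap) (hbd : DeepBd W C d0)
    {q : ℂ → ℂ} (hq : q ∈ W) :
    ContinuousOn (fun p : ℂ × ℝ => tr q p.1 p.2) (Ereg q d0 kap ×ˢ Ici (0 : ℝ)) := by
  rw [continuousOn_iff_continuous_domRestrict]
  apply SeqContinuous.continuous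
  intro x p hx
  have hx' : Tendsto (fun n => (x n : ℂ × ℝ)) atTop (𝓝 (p : ℂ × ℝ)) :=
    (continuous_subtype_val.tendsto p).comp hx
  have h1 : Tendsto (fun n => (x n : ℂ × ℝ).1) atTop (𝓝 (p : ℂ × ℝ).1) :=
    (continuous_fst.tendsto _).comp hx'
  have h2 : Tendsto (fun n => (x n : ℂ × ℝ).2) atTop (𝓝 (p : ℂ × ℝ).2) :=
    (continuous_snd.tendsto _).comp hx'
  exact stab F hbd (f := fun _ => q) (fun _ => hq) hq
    (fun u hu z _ => ⟨univ, univ_mem, Eventually.of_forall fun _ _ _ => refl_mem_uniformity hu⟩)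
    h1 (fun n => (x n).2.1.1.le) (fun n => (x n).2.1.2.2.1) p.2.1.2.1
    (fun n => tr_traj F hq (x n).2.1) (tr_traj F hq p.2.1) (fun n => (x n).2.2) h2

theorem tr_deriv {W : Set (ℂ → ℂ)} {C d0 Ce kap : ℝ} (F : Fam W C d0 Ce kap)
    (hbd : DeepBd W C d0) {q : ℂ → ℂ} (hq : q ∈ W) {P : ℂ} (hP : P ∈ Ereg q d0 kap) {t : ℝ}
    (ht : 0 ≤ t) :
    HasDerivWithinAt (fun P' => tr q P' t) (dtr q P t) (Ereg q d0 kap) P := by
  have hop : IsOpen Hm := isOpen_lt Complex.continuous_im continuous_const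
  have hh := tr_traj F hq hP
  have hzH : tr q P t ∈ Hm := hh.low t ht
  have hqs : HasStrictDerivAt q (deriv q (tr q P t)) (tr q P t) :=
    ((F.hol q hq).analyticAt (hop.mem_nhds hzH)).hasStrictDerivAt
  have hne : deriv q (tr q P t) ≠ 0 := hh.reg t ht
  have hc : ContinuousWithinAt (fun P' => tr q P' t) (Ereg q d0 kap) P := by
    have h1 : ContinuousWithinAt (fun p : ℂ × ℝ => tr q p.1 p.2)
        (Ereg q d0 kap ×ˢ Ici (0 : ℝ)) (P, t) := tr_cont F hbd hq (P, t) ⟨hP, ht⟩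
    have h2 : ContinuousWithinAt (fun P' : ℂ => (P', t)) (Ereg q d0 kap) P :=
      (by fun_prop : Continuous fun P' : ℂ => (P', t)).continuousWithinAt
    exact ContinuousWithinAt.comp (g := fun p : ℂ × ℝ => tr q p.1 p.2)
      (f := fun P' : ℂ => (P', t)) (x := P) h1 h2 (fun P' hP' => ⟨hP', ht⟩)
  have e1 := hc.eventually (hqs.eventually_left_inverse hne)
  have e2 : ∀ᶠ P' in 𝓝[Ereg q d0 kap] P, tr q P' t =
      hqs.localInverse q (deriv q (tr q P t)) (tr q P t) hne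
        (q P' * (Real.exp (-2 * t) : ℝ)) := by
    filter_upwards [e1, self_mem_nhdsWithin] with P' h1 h2
    rw [← (tr_traj F hq h2).val t ht]
    exact h1.symm
  have hin : HasDerivAt (fun P' => q P' * ((Real.exp (-2 * t) : ℝ) : ℂ))
      (deriv q P * ((Real.exp (-2 * t) : ℝ) : ℂ)) P :=
    (((F.hol q hq).differentiableAt (hop.mem_nhds (ereg_low F.d0_pos hP))).hasDerivAt).mul_const _
  have hout : HasDerivAt (hqs.localInverse q (deriv q (tr q P t)) (tr q P t) hne)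
      (deriv q (tr q P t))⁻¹ (q P * ((Real.exp (-2 * t) : ℝ) : ℂ)) := by
    have h1 := (hqs.to_localInverse hne).hasDerivAt
    rwa [hh.val t ht] at h1
  have hcomp := (HasDerivAt.comp P hout hin).hasDerivWithinAt (s := Ereg q d0 kap)
  have hfin := hcomp.congr_of_eventuallyEq (f₁ := fun P' => tr q P' t) e2
    (e2.self_of_nhdsWithin hP)
  refine hfin.congr_deriv ?_
  unfold dtr
  rw [div_eq_inv_mul]

theorem tr_inj {W : Set (ℂ → ℂ)} {C d0 Ce kap : ℝ} (F : Fam W C d0 Ce kap)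
    {q : ℂ → ℂ} (hq : q ∈ W) {t : ℝ} (ht : 0 ≤ t) :
    InjOn (fun P => tr q P t) (Ereg q d0 kap) := by
  intro P hP P' hP' h
  have h1 := tr_traj F hq hP
  have h2 := tr_traj F hq hP'
  have h3 := (Traj.meet (F.hol q hq) h1 h2 ht le_rfl h).1
  rw [sub_self, h1.start] at h3
  exact h3

/-- values along the trajectory -/
theorem tr_facts {W : Set (ℂ → ℂ)} {C d0 Ce kap : ℝ} (F : Fam W C d0 Ce kap)
    {q : ℂ → ℂ} (hq : q ∈ W) {P : ℂ} (hP : P ∈ Ereg q d0 kap) {t : ℝ} (ht : 0 ≤ t) :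
    (tr q P t).im < -d0 ∧ ‖q (tr q P t)‖ = ‖q P‖ * Real.exp (-2 * t) ∧
      ‖q (tr q P t)‖ < kap * Real.exp (-2 * t) ∧ deriv q (tr q P t) ≠ 0 := by
  have hh := tr_traj F hq hP
  have h1 := Traj.deep F hq hP.1.le hP.2.2.1 hh t ht
  have h2 : ‖q (tr q P t)‖ = ‖q P‖ * Real.exp (-2 * t) := by
    rw [hh.val t ht, norm_mul, Complex.norm_real, Real.norm_of_nonneg (Real.exp_pos _).le]
  refine ⟨by linarith, h2, ?_, hh.reg t ht⟩
  rw [h2]
  exact mul_lt_mul_of_pos_right hP.2.2.1 (Real.exp_pos _)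

end MP_ae5b4e_LD
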