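import Pool.Agent.Lib.MP_ae5b4e_an_LD.GFlow

/-! THEOREM B', module GMeas: measurability, and the set of non generic points is null.

`ereg_meas`. PROOF. `q` is holomorphic on `Hm` and not constant (`F.osc` excludes constants, see
`not_const` in Main.lean), so the zeros of `deriv q` in `Hm` form a countable set, hence the set `V` of
critical values is countable. `Ereg = {2 d0 < -Im P} ∩ Hm ∩ q⁻¹ (ball 0 kap \ ⋃_{v ∈ V ∪ {0}} {s v : s ≥ 0})`
(for `v ≠ 0`: `v = r q P` with `r > 0` iff `q P = s v` with `s > 0`): the union is countable and of closed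
sets, `q` is continuous on the open set `Hm` (`ContinuousOn.measurable...`/`isOpen_inter_preimage`).

`nongeneric_null`. PROOF. For one critical value `v ≠ 0` the set `{P ∈ Hm : v = r q P, r > 0}` is null:
near a point `P1` of `Hm` with `deriv q P1 ≠ 0` `q` is a local diffeomorphism, preimages of null sets
under it are null (image of a null set under the differentiable local inverse:
`MeasureTheory.addHaar_image_eq_zero_of_differentiableOn_of_addHaar_eq_zero`), and a ray is null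
(contained in a real line, `MeasureTheory.Measure.addHaar_submodule`); the critical points are
countable; Lindelof (`TopologicalSpace.countable_cover_nhdsWithin`). Countable union over `v`.

`en_meas`, `enR_meas`. PROOF. On the measurable set `S = Ereg ×ˢ Ioi 0` the map `(P, t) ↦ tr q P t` is
continuous (`tr_cont`) with values in `Hm`, where `q` and `deriv q` are continuous, `deriv q ≠ 0` at the
values (`tr_facts`), `q P ≠ 0`: so `(P, t) ↦ en q P t` is continuous on `S`; the cut-off set is relatively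
closed in `S`. The indicator on `S` of a function continuous on the measurable set `S` is measurable. -/

open Complex Set Filter PorTR MeasureTheory Topology
open scoped ENNReal

namespace MP_ae5b4e_LD

private theorem gm_open : IsOpen Hm := isOpen_lt Complex.continuous_im continuous_const

private theorem gm_not_const {W : Set (ℂ → ℂ)} {C d0 Ce kap : ℝ} (F : Fam W C d0 Ce kap)
    {q : ℂ → ℂ} (hq : q ∈ W) : ¬ ∃ c : ℂ, ∀ z ∈ Hm, q z = c := by
  rintro ⟨c, hc⟩
  have hd := F.d0_pos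
  obtain ⟨e, he, hosc⟩ := F.osc 1 one_pos d0
  have hcont : ContinuousOn (fun t : ℝ => (t : ℂ) - (d0 : ℂ) * I) (Icc 0 1) := by
    fun_prop
  have hmap : MapsTo (fun t : ℝ => (t : ℂ) - (d0 : ℂ) * I) (Icc 0 1) (Strip d0 d0) := by
    intro t _
    show d0 ≤ -((t : ℂ) - (d0 : ℂ) * I).im ∧ -((t : ℂ) - (d0 : ℂ) * I).im ≤ d0
    simp
  have hdist : 1 ≤ dist ((fun t : ℝ => (t : ℂ) - (d0 : ℂ) * I) 0)
      ((fun t : ℝ => (t : ℂ) - (d0 : ℂ) * I) 1) := by
    have h : (((0 : ℝ) : ℂ) - (d0 : ℂ) * I) - (((1 : ℝ) : ℂ) - (d0 : ℂ) * I) = -1 := by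
      push_cast
      ring
    show 1 ≤ dist (((0 : ℝ) : ℂ) - (d0 : ℂ) * I) (((1 : ℝ) : ℂ) - (d0 : ℂ) * I)
    rw [dist_eq_norm, h]
    simp
  obtain ⟨t, ht, hle⟩ := hosc q hq 0 1 _ zero_le_one hcont hmap hdist
  have hH : ∀ t : ℝ, (t : ℂ) - (d0 : ℂ) * I ∈ Hm := by
    intro t
    show ((t : ℂ) - (d0 : ℂ) * I).im < 0
    simpa using hd
  have h1 : q ((t : ℂ) - (d0 : ℂ) * I) = c := hc _ (hH t)
  have h2 : q (((0 : ℝ) : ℂ) - (d0 : ℂ) * I) = c := hc _ (hH 0)
  have : dist (q ((t : ℂ) - (d0 : ℂ) * I)) (q (((0 : ℝ) : ℂ) - (d0 : ℂ) * I)) = 0 := by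
    rw [h1, h2, dist_self]
  have hle' : e ≤ dist (q ((t : ℂ) - (d0 : ℂ) * I)) (q (((0 : ℝ) : ℂ) - (d0 : ℂ) * I)) := hle
  rw [this] at hle'
  exact absurd hle' (not_le.mpr he)

private theorem gm_crit {q : ℂ → ℂ} (hq : DifferentiableOn ℂ q Hm)
    (hc : ¬ ∃ c : ℂ, ∀ z ∈ Hm, q z = c) : ({z | z ∈ Hm ∧ deriv q z = 0}).Countable := by
  have hop : IsOpen Hm := gm_open
  have hconv : Convex ℝ Hm := convex_halfSpace_im_lt 0
  have hne : (-I : ℂ) ∈ Hm := by simp [Hm]
  have hconn : IsConnected Hm := ⟨⟨_, hne⟩, hconv.isPreconnected⟩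
  have hder : AnalyticOnNhd ℂ (deriv q) Hm := (hq.analyticOnNhd hop).deriv
  obtain ⟨x, hx, hx0⟩ : ∃ x ∈ Hm, deriv q x ≠ 0 := by
    by_contra hcon
    push Not at hcon
    apply hc
    obtain ⟨c, hc'⟩ := hop.exists_is_const_of_deriv_eq_zero hconv.isPreconnected hq
      (fun z hz => hcon z hz)
    exact ⟨c, hc'⟩
  have h1 := hder.preimage_zero_mem_codiscreteWithin hx0 hx hconn
  have h2 : ((deriv q ⁻¹' {0}ᶜ)ᶜ ∩ Hm).Countable := by
    apply (HereditarilyLindelofSpace.isLindelof _).countable_of_isDiscrete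
      (isDiscrete_of_codiscreteWithin _)
    simpa using! h1
  refine h2.mono ?_
  rintro z ⟨hz, hz0⟩
  exact ⟨by simp [hz0], hz⟩

private theorem gm_pre {α β : Type*} [TopologicalSpace α] [MeasurableSpace α]
    [OpensMeasurableSpace α] [TopologicalSpace β] [MeasurableSpace β] [BorelSpace β] {S : Set α}
    (hS : MeasurableSet S) {f : α → β} (hf : ContinuousOn f S) {M : Set β}
    (hM : MeasurableSet M) : MeasurableSet (S ∩ f ⁻¹' M) := by
  have h1 : Measurable (S.domRestrict f) := (continuousOn_iff_continuous_domRestrict.1 hf).measurable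
  have h2 := hS.subtype_image (h1 hM)
  have h3 : Subtype.val '' (S.domRestrict f ⁻¹' M) = S ∩ f ⁻¹' M := by
    ext x
    constructor
    · rintro ⟨y, hy, rfl⟩
      exact ⟨y.2, hy⟩
    · rintro ⟨hx, hx'⟩
      exact ⟨⟨x, hx⟩, hx', rfl⟩
  rwa [h3] at h2

private theorem gm_ray (v : ℂ) : MeasurableSet {w : ℂ | ∃ r : ℝ, 0 < r ∧ v = r * w} := by
  by_cases hv : v = 0
  · have h1 : {w : ℂ | ∃ r : ℝ, 0 < r ∧ v = r * w} = {0} := by
      ext w
      constructor
      · rintro ⟨r, hr, h⟩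
        rw [hv] at h
        rcases mul_eq_zero.1 h.symm with h2 | h2
        · exact absurd (Complex.ofReal_eq_zero.1 h2) hr.ne'
        · exact h2
      · intro h
        exact ⟨1, one_pos, by rw [hv, mem_singleton_iff.1 h, mul_zero]⟩
    rw [h1]
    exact measurableSet_singleton 0
  have h1 : {w : ℂ | ∃ r : ℝ, 0 < r ∧ v = r * w} =
      {w : ℂ | (v * (starRingEnd ℂ) w).im = 0} ∩ {w : ℂ | 0 < (v * (starRingEnd ℂ) w).re} := by
    ext w
    constructor
    · rintro ⟨r, hr, h⟩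
      have hw : w ≠ 0 := by
        rintro rfl
        exact hv (by rw [h, mul_zero])
      have h2 : v * (starRingEnd ℂ) w = ((r * Complex.normSq w : ℝ) : ℂ) := by
        rw [h, mul_assoc, Complex.mul_conj]
        push_cast
        ring
      refine ⟨?_, ?_⟩
      · show (v * (starRingEnd ℂ) w).im = 0
        rw [h2, Complex.ofReal_im]
      · show 0 < (v * (starRingEnd ℂ) w).re
        rw [h2, Complex.ofReal_re]
        exact mul_pos hr (Complex.normSq_pos.2 hw)
    · rintro ⟨h2, h3⟩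
      have h2' : (v * (starRingEnd ℂ) w).im = 0 := h2
      have h3' : 0 < (v * (starRingEnd ℂ) w).re := h3
      have hw : w ≠ 0 := by
        rintro rfl
        simp at h3'
      have hn := Complex.normSq_pos.2 hw
      refine ⟨(v * (starRingEnd ℂ) w).re / Complex.normSq w, div_pos h3' hn, ?_⟩
      have h4 : v * (starRingEnd ℂ) w = (((v * (starRingEnd ℂ) w).re : ℝ) : ℂ) := by
        apply Complex.ext
        · rw [Complex.ofReal_re]
        · rw [h2', Complex.ofReal_im]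
      have h5 : (Complex.normSq w : ℂ) ≠ 0 := by exact_mod_cast hn.ne'
      rw [Complex.ofReal_div, ← h4, div_mul_eq_mul_div, mul_assoc, mul_comm ((starRingEnd ℂ) w) w,
        Complex.mul_conj, mul_div_assoc, div_self h5, mul_one]
  rw [h1]
  refine MeasurableSet.inter ?_ ?_
  · refine (isClosed_eq ?_ continuous_const).measurableSet
    fun_prop
  · refine (isOpen_lt continuous_const ?_).measurableSet
    fun_prop

theorem ereg_meas {W : Set (ℂ → ℂ)} {C d0 Ce kap : ℝ} (F : Fam W C d0 Ce kap) {q : ℂ → ℂ}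
    (hq : q ∈ W) : MeasurableSet (Ereg q d0 kap) := by
  have hhol := F.hol q hq
  have hZ := gm_crit hhol (gm_not_const F hq)
  let M : Set ℂ := ({w | w ≠ 0} ∩ {w | ‖w‖ < kap}) ∩
    (⋃ z ∈ {z | z ∈ Hm ∧ deriv q z = 0}, {w : ℂ | ∃ r : ℝ, 0 < r ∧ q z = r * w})ᶜ
  have hM : MeasurableSet M := by
    refine MeasurableSet.inter (MeasurableSet.inter ?_ ?_) ?_
    · exact (isOpen_ne_fun continuous_id continuous_const).measurableSet
    · exact (isOpen_lt continuous_norm continuous_const).measurableSet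
    · exact (MeasurableSet.biUnion hZ fun z _ => gm_ray (q z)).compl
  have h1 : Ereg q d0 kap = {P : ℂ | 2 * d0 < -P.im} ∩ (Hm ∩ q ⁻¹' M) := by
    ext P
    constructor
    · intro hP
      refine ⟨hP.1, ereg_low F.d0_pos hP, ⟨hP.2.1, hP.2.2.1⟩, ?_⟩
      intro hcon
      simp only [mem_iUnion] at hcon
      obtain ⟨z, ⟨hz, hz0⟩, r, hr, h⟩ := hcon
      exact hP.2.2.2 z hz hz0 r hr h
    · rintro ⟨h1, h2, ⟨h3, h4⟩, h5⟩
      refine ⟨h1, h3, h4, ?_⟩
      intro z hz hz0 r hr h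
      apply h5
      simp only [mem_iUnion]
      exact ⟨z, ⟨hz, hz0⟩, r, hr, h⟩
  rw [h1]
  refine MeasurableSet.inter ?_ (gm_pre gm_open.measurableSet hhol.continuousOn hM)
  exact (isOpen_lt continuous_const (by fun_prop)).measurableSet

private theorem gm_line {v : ℂ} (hv : v ≠ 0) :
    volume {w : ℂ | ∃ r : ℝ, 0 < r ∧ v = r * w} = 0 := by
  have h1 : Submodule.span ℝ {v} ≠ ⊤ := by
    intro h
    have h2 := finrank_span_singleton (K := ℝ) hv
    rw [h, finrank_top, Complex.finrank_real_complex] at h2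
    omega
  refine measure_mono_null ?_ (Measure.addHaar_submodule volume _ h1)
  rintro w ⟨r, hr, h⟩
  rw [SetLike.mem_coe, Submodule.mem_span_singleton]
  refine ⟨r⁻¹, ?_⟩
  rw [h, Complex.real_smul]
  have : (r : ℂ) ≠ 0 := by exact_mod_cast hr.ne'
  push_cast
  field_simp

private theorem gm_null {q : ℂ → ℂ} (hq : DifferentiableOn ℂ q Hm)
    (hc : ¬ ∃ c : ℂ, ∀ z ∈ Hm, q z = c) {M : Set ℂ} (hM : volume M = 0) :
    volume (Hm ∩ q ⁻¹' M) = 0 := by
  have hZ := gm_crit hq hc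
  have hder : ContinuousOn (deriv q) Hm := ((hq.analyticOnNhd gm_open).deriv).continuousOn
  have hU : IsOpen (Hm ∩ deriv q ⁻¹' {0}ᶜ) :=
    hder.isOpen_inter_preimage gm_open isOpen_compl_singleton
  set U : Set ℂ := Hm ∩ deriv q ⁻¹' {0}ᶜ with hUdef
  have h1 : volume (U ∩ q ⁻¹' M) = 0 := by
    refine measure_null_of_locally_null _ ?_
    rintro P ⟨hPU, hPM⟩
    have hPH : P ∈ Hm := hPU.1
    have hP0 : deriv q P ≠ 0 := hPU.2
    have hqs : HasStrictDerivAt q (deriv q P) P :=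
      (hq.analyticAt (gm_open.mem_nhds hPH)).hasStrictDerivAt
    let e := (hqs.hasStrictFDerivAt_equiv hP0).toOpenPartialHomeomorph q
    have he : ∀ x, e x = q x := fun x => rfl
    have hPe : P ∈ e.source :=
      (hqs.hasStrictFDerivAt_equiv hP0).mem_toOpenPartialHomeomorph_source
    refine ⟨(U ∩ q ⁻¹' M) ∩ e.source, ?_, ?_⟩
    · exact inter_mem_nhdsWithin _ (e.open_source.mem_nhds hPe)
    · have hd : DifferentiableOn ℝ e.symm (M ∩ (e.target ∩ e.symm ⁻¹' U)) := by
        rintro a ⟨-, ha, haU⟩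
        have h2 : HasDerivAt e (deriv q (e.symm a)) (e.symm a) := by
          have h3 : DifferentiableAt ℂ q (e.symm a) :=
            (hq.differentiableAt (gm_open.mem_nhds haU.1))
          exact h3.hasDerivAt
        have h4 := e.hasDerivAt_symm ha haU.2 h2
        exact (h4.differentiableAt.restrictScalars ℝ).differentiableWithinAt
      have h5 := addHaar_image_eq_zero_of_differentiableOn_of_addHaar_eq_zero volume hd
        (measure_mono_null inter_subset_left hM)
      refine measure_mono_null ?_ h5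
      rintro x ⟨⟨hxU, hxM⟩, hxe⟩
      have h6 : e.symm (q x) = x := e.left_inv hxe
      refine ⟨q x, ⟨hxM, e.map_source hxe, ?_⟩, h6⟩
      rw [mem_preimage, h6]
      exact hxU
  have h2 : volume ({z | z ∈ Hm ∧ deriv q z = 0}) = 0 := hZ.measure_zero volume
  refine measure_mono_null ?_ (measure_union_null h1 h2)
  rintro P ⟨hP, hPM⟩
  by_cases h0 : deriv q P = 0
  · exact Or.inr ⟨hP, h0⟩
  · exact Or.inl ⟨⟨hP, h0⟩, hPM⟩

theorem nongeneric_null {W : Set (ℂ → ℂ)} {C d0 Ce kap : ℝ} (F : Fam W C d0 Ce kap) {q : ℂ → ℂ}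
    (hq : q ∈ W) :
    volume {P : ℂ | P ∈ Hm ∧ q P ≠ 0 ∧ ∃ z ∈ Hm, deriv q z = 0 ∧ ∃ r : ℝ, 0 < r ∧ q z = r * q P}
      = 0 := by
  have hhol := F.hol q hq
  have hnc := gm_not_const F hq
  have hZ := gm_crit hhol hnc
  have h1 : volume (⋃ z ∈ {z | z ∈ Hm ∧ deriv q z = 0},
      {P : ℂ | P ∈ Hm ∧ q P ≠ 0 ∧ ∃ r : ℝ, 0 < r ∧ q z = r * q P}) = 0 := by
    rw [measure_biUnion_null_iff hZ]
    rintro z -
    by_cases hz : q z = 0
    · have h2 : {P : ℂ | P ∈ Hm ∧ q P ≠ 0 ∧ ∃ r : ℝ, 0 < r ∧ q z = r * q P} = ∅ := by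
        ext P
        constructor
        · rintro ⟨-, hP0, r, hr, h⟩
          rw [hz] at h
          rcases mul_eq_zero.1 h.symm with h3 | h3
          · exact absurd (Complex.ofReal_eq_zero.1 h3) hr.ne'
          · exact absurd h3 hP0
        · intro h
          exact absurd h (notMem_empty P)
      rw [h2, measure_empty]
    · refine measure_mono_null ?_ (gm_null hhol hnc (gm_line hz))
      rintro P ⟨hP, -, r, hr, h⟩
      exact ⟨hP, r, hr, h⟩
  refine measure_mono_null ?_ h1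
  rintro P ⟨hP, hP0, z, hz, hz0, r, hr, h⟩
  simp only [mem_iUnion]
  exact ⟨z, ⟨hz, hz0⟩, hP, hP0, r, hr, h⟩

private theorem gm_ind {α β : Type*} [TopologicalSpace α] [MeasurableSpace α]
    [OpensMeasurableSpace α] [TopologicalSpace β] [MeasurableSpace β] [BorelSpace β] [Zero β]
    {S : Set α} (hS : MeasurableSet S) {f : α → β} (hf : ContinuousOn f S) :
    Measurable (S.indicator f) := by
  classical
  have h : Measurable (S.piecewise f 0) :=
    ContinuousOn.measurable_piecewise hf continuousOn_const hS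
  rwa [piecewise_eq_indicator] at h

private theorem gm_cont {W : Set (ℂ → ℂ)} {C d0 Ce kap : ℝ} (F : Fam W C d0 Ce kap)
    (hbd : DeepBd W C d0) {q : ℂ → ℂ} (hq : q ∈ W) :
    ContinuousOn (fun p : ℂ × ℝ => en q p.1 p.2) (Ereg q d0 kap ×ˢ Ioi (0 : ℝ)) := by
  have hhol := F.hol q hq
  have hder : ContinuousOn (deriv q) Hm := ((hhol.analyticOnNhd gm_open).deriv).continuousOn
  have htr : ContinuousOn (fun p : ℂ × ℝ => tr q p.1 p.2) (Ereg q d0 kap ×ˢ Ioi (0 : ℝ)) :=
    (tr_cont F hbd hq).mono (prod_mono_right Ioi_subset_Ici_self)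
  have hmap : MapsTo (fun p : ℂ × ℝ => tr q p.1 p.2) (Ereg q d0 kap ×ˢ Ioi (0 : ℝ)) Hm := by
    rintro p ⟨hp, ht⟩
    have h1 := (tr_facts F hq hp (le_of_lt ht)).1
    have h2 := F.d0_pos
    show (tr q p.1 p.2).im < 0
    linarith
  have hfst : ContinuousOn (fun p : ℂ × ℝ => p.1) (Ereg q d0 kap ×ˢ Ioi (0 : ℝ)) :=
    continuous_fst.continuousOn
  have hmap1 : MapsTo (fun p : ℂ × ℝ => p.1) (Ereg q d0 kap ×ˢ Ioi (0 : ℝ)) Hm := by
    rintro p ⟨hp, -⟩
    exact ereg_low F.d0_pos hp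
  have h1 := hhol.continuousOn.comp htr hmap
  have h2 := hder.comp htr hmap
  have h3 := hhol.continuousOn.comp hfst hmap1
  have h4 := hder.comp hfst hmap1
  have hv : ContinuousOn (fun p : ℂ × ℝ => vel q (tr q p.1 p.2))
      (Ereg q d0 kap ×ˢ Ioi (0 : ℝ)) := by
    refine ContinuousOn.div (continuousOn_const.mul h1.norm) h2.norm ?_
    rintro p ⟨hp, ht⟩
    exact norm_ne_zero_iff.2 (tr_facts F hq hp (le_of_lt ht)).2.2.2
  have hw : ContinuousOn (fun p : ℂ × ℝ => wt q p.1) (Ereg q d0 kap ×ˢ Ioi (0 : ℝ)) := by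
    refine ContinuousOn.div (h4.norm.pow 2) h3.norm ?_
    rintro p ⟨hp, -⟩
    exact norm_ne_zero_iff.2 hp.2.1
  have h5 : ContinuousOn (fun p : ℂ × ℝ => Real.exp (-2 * p.2) * (1 + p.2) ^ 4 *
      vel q (tr q p.1 p.2) ^ 2 * wt q p.1) (Ereg q d0 kap ×ˢ Ioi (0 : ℝ)) := by
    refine ContinuousOn.mul (ContinuousOn.mul ?_ (hv.pow 2)) hw
    exact Continuous.continuousOn (by fun_prop)
  exact ENNReal.continuous_ofReal.comp_continuousOn h5

theorem en_meas {W : Set (ℂ → ℂ)} {C d0 Ce kap : ℝ} (F : Fam W C d0 Ce kap)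
    (hbd : DeepBd W C d0) {q : ℂ → ℂ} (hq : q ∈ W) :
    Measurable ((Ereg q d0 kap ×ˢ Ioi (0 : ℝ)).indicator (fun p : ℂ × ℝ => en q p.1 p.2)) :=
  gm_ind ((ereg_meas F hq).prod measurableSet_Ioi) (gm_cont F hbd hq)

theorem enR_meas {W : Set (ℂ → ℂ)} {C d0 Ce kap : ℝ} (F : Fam W C d0 Ce kap)
    (hbd : DeepBd W C d0) {q : ℂ → ℂ} (hq : q ∈ W) (R x : ℝ) :
    Measurable ((Ereg q d0 kap ×ˢ Ioi (0 : ℝ)).indicator (fun p : ℂ × ℝ => enR q R x p.1 p.2)) := by
  have hS := (ereg_meas F hq).prod (measurableSet_Ioi (a := (0 : ℝ)))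
  have htr : ContinuousOn (fun p : ℂ × ℝ => |(tr q p.1 p.2).re - x|)
      (Ereg q d0 kap ×ˢ Ioi (0 : ℝ)) := by
    have h := (tr_cont F hbd hq).mono (prod_mono_right (Ioi_subset_Ici_self (a := (0 : ℝ)))
      (s := Ereg q d0 kap))
    exact ((Complex.continuous_re.comp_continuousOn h).sub continuousOn_const).abs
  have hA := gm_pre hS htr (measurableSet_Iic (a := R))
  have h1 := gm_ind hA ((gm_cont F hbd hq).mono inter_subset_left)
  have h2 : (Ereg q d0 kap ×ˢ Ioi (0 : ℝ)).indicator (fun p : ℂ × ℝ => enR q R x p.1 p.2) =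
      ((Ereg q d0 kap ×ˢ Ioi (0 : ℝ)) ∩
        (fun p : ℂ × ℝ => |(tr q p.1 p.2).re - x|) ⁻¹' Iic R).indicator
        (fun p : ℂ × ℝ => en q p.1 p.2) := by
    funext p
    by_cases hp : p ∈ Ereg q d0 kap ×ˢ Ioi (0 : ℝ)
    · rw [indicator_of_mem hp]
      by_cases hR : |(tr q p.1 p.2).re - x| ≤ R
      · have hm : p ∈ (Ereg q d0 kap ×ˢ Ioi (0 : ℝ)) ∩
            (fun p : ℂ × ℝ => |(tr q p.1 p.2).re - x|) ⁻¹' Iic R := ⟨hp, hR⟩
        rw [indicator_of_mem hm]
        exact indicator_of_mem (s := {t | |(tr q p.1 t).re - x| ≤ R}) hR _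
      · rw [indicator_of_notMem (fun h => hR h.2)]
        exact indicator_of_notMem (s := {t | |(tr q p.1 t).re - x| ≤ R}) hR _
    · rw [indicator_of_notMem hp, indicator_of_notMem (fun h => hp h.1)]
  rw [h2]
  exact h1

end MP_ae5b4e_LD
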