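import Mathlib

/-! THEOREM B', module Int1: elementary integrals.

`int_min`: split at `Y = sqrt (C/a)`: `∫_0^Y a + ∫_Y^∞ C/y² = 2 sqrt (C a)`.
`int_exp`: `∫_0^∞ (1+t)^4 e^{-t} dt = 1 + 4 + 12 + 24 + 24 = 65` (Gamma integrals), or any proof
of `≤`.
`int_strip`: `h z = ofReal (min (C / z.im^2) a)` over `{z | a1 ≤ Re z ≤ b1, Im z < -d0}`: Tonelli on
`ℂ ≃ ℝ × ℝ` (`Complex.volume_preserving_equiv_real_prod`) and `int_min`. -/

open Complex Set MeasureTheory
open scoped ENNReal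

namespace MP_ae5b4e_LD

theorem int_min {C a : ℝ} (hC : 0 < C) (ha : 0 < a) :
    ∫⁻ y in Ioi (0 : ℝ), ENNReal.ofReal (min (C / y ^ 2) a) ≤
      ENNReal.ofReal (2 * Real.sqrt (C * a)) := by
  have hs : 0 < Real.sqrt (C * a) := Real.sqrt_pos.2 (mul_pos hC ha)
  have hsq : Real.sqrt (C * a) * Real.sqrt (C * a) = C * a :=
    Real.mul_self_sqrt (mul_pos hC ha).le
  obtain ⟨Y, hY⟩ : ∃ Y, Y = Real.sqrt (C * a) / a := ⟨_, rfl⟩
  have hY0 : 0 < Y := by rw [hY]; positivity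
  have haY : a * Y = Real.sqrt (C * a) := by
    rw [hY]
    field_simp
  have hCY : C * Y⁻¹ = Real.sqrt (C * a) := by
    rw [hY, inv_div, ← mul_div_assoc, div_eq_iff hs.ne', hsq]
  have hsub : Ioi (0 : ℝ) = Ioc 0 Y ∪ Ioi Y := (Ioc_union_Ioi_eq_Ioi hY0.le).symm
  rw [hsub]
  refine (lintegral_union_le _ _ _).trans ?_
  have h1 : ∫⁻ y in Ioc (0 : ℝ) Y, ENNReal.ofReal (min (C / y ^ 2) a) ≤
      ENNReal.ofReal (Real.sqrt (C * a)) := by
    calc ∫⁻ y in Ioc (0 : ℝ) Y, ENNReal.ofReal (min (C / y ^ 2) a)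
        ≤ ∫⁻ _ in Ioc (0 : ℝ) Y, ENNReal.ofReal a :=
          lintegral_mono fun y => ENNReal.ofReal_le_ofReal (min_le_right _ _)
      _ = ENNReal.ofReal a * ENNReal.ofReal Y := by
          rw [setLIntegral_const, Real.volume_Ioc, sub_zero]
      _ = ENNReal.ofReal (Real.sqrt (C * a)) := by
          rw [← ENNReal.ofReal_mul ha.le, haY]
  have h2 : ∫⁻ y in Ioi Y, ENNReal.ofReal (min (C / y ^ 2) a) ≤
      ENNReal.ofReal (Real.sqrt (C * a)) := by
    have hi : IntegrableOn (fun y : ℝ => C * y ^ (-2 : ℝ)) (Ioi Y) :=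
      (integrableOn_Ioi_rpow_of_lt (by norm_num) hY0).const_mul C
    have hval : ∫ y in Ioi Y, C * y ^ (-2 : ℝ) = Real.sqrt (C * a) := by
      rw [integral_const_mul, integral_Ioi_rpow_of_lt (by norm_num) hY0, ← hCY]
      have h3 : (-2 : ℝ) + 1 = -1 := by norm_num
      rw [h3, Real.rpow_neg_one]
      ring
    have hnn : 0 ≤ᵐ[volume.restrict (Ioi Y)] fun y : ℝ => C * y ^ (-2 : ℝ) := by
      refine (ae_restrict_mem measurableSet_Ioi).mono fun y hy => ?_
      have hy0 : 0 < y := hY0.trans hy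
      exact mul_nonneg hC.le (Real.rpow_nonneg hy0.le _)
    rw [← hval, ofReal_integral_eq_lintegral_ofReal hi hnn]
    refine setLIntegral_mono' measurableSet_Ioi fun y hy => ENNReal.ofReal_le_ofReal ?_
    have hy0 : 0 < y := hY0.trans hy
    refine (min_le_left _ _).trans (le_of_eq ?_)
    rw [Real.rpow_neg hy0.le, ← div_eq_mul_inv]
    congr 1
    exact (Real.rpow_natCast y 2).symm
  refine (add_le_add h1 h2).trans (le_of_eq ?_)
  rw [← ENNReal.ofReal_add hs.le hs.le]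
  congr 1
  ring

theorem int_exp :
    ∫⁻ t in Ioi (0 : ℝ), ENNReal.ofReal ((1 + t) ^ 4 * Real.exp (-t)) ≤ 65 := by
  have hd : ∀ t ∈ Ici (0 : ℝ), HasDerivAt
      (fun t : ℝ => -((t ^ 4 + 8 * t ^ 3 + 30 * t ^ 2 + 64 * t + 65) * Real.exp (-t)))
      ((1 + t) ^ 4 * Real.exp (-t)) t := by
    intro t _
    have h1 : HasDerivAt (fun t : ℝ => t ^ 4 + 8 * t ^ 3 + 30 * t ^ 2 + 64 * t + 65)
        (4 * t ^ 3 + 8 * (3 * t ^ 2) + 30 * (2 * t) + 64) t := by
      have e4 := hasDerivAt_pow 4 t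
      have e3 := (hasDerivAt_pow 3 t).const_mul 8
      have e2 := (hasDerivAt_pow 2 t).const_mul 30
      have e1 := (hasDerivAt_id t).const_mul 64
      have e := (((e4.add e3).add e2).add e1).add_const 65
      refine HasDerivAt.congr_deriv e ?_
      norm_num
    have h2 : HasDerivAt (fun t : ℝ => Real.exp (-t)) (Real.exp (-t) * -1) t :=
      (Real.hasDerivAt_exp (-t)).comp t (hasDerivAt_neg t)
    refine HasDerivAt.congr_deriv (h1.mul h2).neg ?_
    ring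
  have hnn : ∀ t ∈ Ioi (0 : ℝ), 0 ≤ (1 + t) ^ 4 * Real.exp (-t) := by
    intro t _
    positivity
  have hl : Filter.Tendsto
      (fun t : ℝ => -((t ^ 4 + 8 * t ^ 3 + 30 * t ^ 2 + 64 * t + 65) * Real.exp (-t)))
      Filter.atTop (nhds 0) := by
    have e4 := Real.tendsto_pow_mul_exp_neg_atTop_nhds_zero 4
    have e3 := (Real.tendsto_pow_mul_exp_neg_atTop_nhds_zero 3).const_mul 8
    have e2 := (Real.tendsto_pow_mul_exp_neg_atTop_nhds_zero 2).const_mul 30
    have e1 := (Real.tendsto_pow_mul_exp_neg_atTop_nhds_zero 1).const_mul 64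
    have e0 := (Real.tendsto_pow_mul_exp_neg_atTop_nhds_zero 0).const_mul 65
    have e := ((((e4.add e3).add e2).add e1).add e0).neg
    refine (Filter.Tendsto.congr (fun t => ?_) e).trans_eq ?_
    · ring
    · norm_num
  have hi := integrableOn_Ioi_deriv_of_nonneg' hd hnn hl
  have hv := integral_Ioi_of_hasDerivAt_of_nonneg' hd hnn hl
  have h := ofReal_integral_eq_lintegral_ofReal hi
    ((ae_restrict_mem measurableSet_Ioi).mono fun t ht => hnn t ht)
  rw [← h, hv]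
  refine ENNReal.ofReal_le_of_le_toReal ?_
  norm_num

theorem int_strip {C a a1 b1 d0 : ℝ} (hC : 0 < C) (ha : 0 < a) (hd : 0 < d0) (hab : a1 ≤ b1) :
    ∫⁻ z in {z : ℂ | a1 ≤ z.re ∧ z.re ≤ b1 ∧ z.im < -d0}, ENNReal.ofReal (min (C / z.im ^ 2) a)
      ≤ ENNReal.ofReal ((b1 - a1) * (2 * Real.sqrt (C * a))) := by
  have hm : Measurable fun y : ℝ => ENNReal.ofReal (min (C / y ^ 2) a) := by fun_prop
  have hset : {z : ℂ | a1 ≤ z.re ∧ z.re ≤ b1 ∧ z.im < -d0} =
      Complex.measurableEquivRealProd ⁻¹' (Icc a1 b1 ×ˢ Iio (-d0)) := by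
    ext z
    constructor
    · rintro ⟨h1, h2, h3⟩
      exact ⟨⟨h1, h2⟩, h3⟩
    · rintro ⟨⟨h1, h2⟩, h3⟩
      exact ⟨h1, h2, h3⟩
  have h1 : ∫⁻ z in {z : ℂ | a1 ≤ z.re ∧ z.re ≤ b1 ∧ z.im < -d0},
      ENNReal.ofReal (min (C / z.im ^ 2) a) =
      ∫⁻ p in Icc a1 b1 ×ˢ Iio (-d0), ENNReal.ofReal (min (C / p.2 ^ 2) a) := by
    rw [hset]
    exact Complex.volume_preserving_equiv_real_prod.setLIntegral_comp_preimage
      (measurableSet_Icc.prod measurableSet_Iio) (hm.comp measurable_snd)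
  have h2 : ∫⁻ y in Iio (0 : ℝ), ENNReal.ofReal (min (C / y ^ 2) a) ≤
      ENNReal.ofReal (2 * Real.sqrt (C * a)) := by
    have h3 := (Measure.measurePreserving_neg (volume : Measure ℝ)).setLIntegral_comp_preimage
      (measurableSet_Ioi (a := (0 : ℝ))) hm
    have h4 : Neg.neg ⁻¹' Ioi (0 : ℝ) = Iio 0 := by
      ext y
      simp
    rw [h4] at h3
    have h5 : ∫⁻ y in Iio (0 : ℝ), ENNReal.ofReal (min (C / y ^ 2) a) =
        ∫⁻ y in Iio (0 : ℝ), ENNReal.ofReal (min (C / (-y) ^ 2) a) := by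
      refine lintegral_congr fun y => ?_
      rw [neg_sq]
    rw [h5, h3]
    exact int_min hC ha
  have hm2 : Measurable fun p : ℝ × ℝ => ENNReal.ofReal (min (C / p.2 ^ 2) a) :=
    hm.comp measurable_snd
  rw [h1, Measure.volume_eq_prod, ← Measure.prod_restrict, lintegral_prod _ hm2.aemeasurable]
  have h3 : ∀ x : ℝ, ∫⁻ y in Iio (-d0), ENNReal.ofReal (min (C / (x, y).2 ^ 2) a) ≤
      ENNReal.ofReal (2 * Real.sqrt (C * a)) := by
    intro x
    refine (lintegral_mono_set (Iio_subset_Iio (by linarith : -d0 ≤ 0))).trans h2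
  refine (lintegral_mono fun x => h3 x).trans ?_
  rw [lintegral_const, Measure.restrict_apply_univ, Real.volume_Icc, mul_comm,
    ← ENNReal.ofReal_mul (by linarith)]

end MP_ae5b4e_LD
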