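import Mathlib

/-! LEMMA D (density), module Jen: Jensen type bound for the number of zeros.

`jensen_card`: `f` holomorphic and bounded by `M` on `ball c R`, `f c ≠ 0`; then a finite set `Z` of
zeros in `closedBall c (R/3)` satisfies `2 ^ #Z * ‖f c‖ ≤ M`.

PROOF. Put `p z = ∏ w ∈ Z, (z - w)`. There is `g` holomorphic on the ball with `f = p * g` there
(induction on `Z`: `dslope f w` is holomorphic, `f z = (z - w) * dslope f w z` when `f w = 0`, and the
other points of `Z` are zeros of `dslope f w`; see `Complex.differentiableOn_dslope`). Let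
`R/3 < ρ < R`. For `‖z - c‖ = ρ` and `w ∈ Z`: `‖z - w‖ ≥ ρ - R/3`, so `‖g z‖ ≤ M / (ρ - R/3) ^ #Z`; by
the maximum principle (`Complex.norm_le_of_forall_mem_frontier_norm_le`) the same holds at `z = c`.
Since `‖c - w‖ ≤ R/3`: `‖f c‖ = ‖p c‖ ‖g c‖ ≤ (R/3)^n M / (ρ - R/3)^n`. Let `ρ → R`. -/

open Complex Metric Set

namespace MP_ae5b4e_LD

private theorem Jen_factor {c : ℂ} {R : ℝ} (Z : Finset ℂ) :
    ∀ f : ℂ → ℂ, DifferentiableOn ℂ f (ball c R) → (∀ z ∈ Z, z ∈ ball c R ∧ f z = 0) →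
      ∃ g : ℂ → ℂ, DifferentiableOn ℂ g (ball c R) ∧
        ∀ z ∈ ball c R, f z = (∏ w ∈ Z, (z - w)) * g z := by
  induction Z using Finset.induction_on with
  | empty =>
    intro f hf _
    exact ⟨f, hf, fun z _ => by simp⟩
  | insert a Z ha ih =>
    intro f hf hZ
    obtain ⟨haB, hfa⟩ := hZ a (Finset.mem_insert_self _ _)
    have h1 : DifferentiableOn ℂ (dslope f a) (ball c R) :=
      (Complex.differentiableOn_dslope (isOpen_ball.mem_nhds haB)).2 hf
    have h2 : ∀ z, f z = (z - a) * dslope f a z := by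
      intro z
      have h3 := sub_smul_dslope f a z
      rw [hfa, sub_zero, smul_eq_mul] at h3
      exact h3.symm
    obtain ⟨g, hg, hg2⟩ := ih (dslope f a) h1 (fun w hw => by
      obtain ⟨h3, h4⟩ := hZ w (Finset.mem_insert_of_mem hw)
      refine ⟨h3, ?_⟩
      rw [h2 w] at h4
      rcases mul_eq_zero.1 h4 with h5 | h5
      · exact absurd (sub_eq_zero.1 h5 ▸ hw) ha
      · exact h5)
    refine ⟨g, hg, fun z hz => ?_⟩
    rw [h2 z, hg2 z hz, Finset.prod_insert ha, mul_assoc]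

theorem jensen_card {f : ℂ → ℂ} {c : ℂ} {R M : ℝ} (hR : 0 < R)
    (hf : DifferentiableOn ℂ f (ball c R)) (hM : ∀ z ∈ ball c R, ‖f z‖ ≤ M)
    (Z : Finset ℂ) (hZ : ∀ z ∈ Z, ‖z - c‖ ≤ R / 3 ∧ f z = 0) :
    2 ^ Z.card * ‖f c‖ ≤ M := by
  have hM0 : 0 ≤ M := (norm_nonneg _).trans (hM c (mem_ball_self hR))
  obtain ⟨g, hg, hfg⟩ := Jen_factor Z f hf (fun z hz => ⟨by
    rw [mem_ball, dist_eq_norm]
    have := (hZ z hz).1
    linarith, (hZ z hz).2⟩)
  have key : ∀ ρ : ℝ, R / 3 < ρ → ρ < R →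
      ‖f c‖ * (ρ - R / 3) ^ Z.card ≤ (R / 3) ^ Z.card * M := by
    intro ρ h1 h2
    have hρ : 0 < ρ := by linarith
    have hρ' : 0 < ρ - R / 3 := by linarith
    have hsub : closure (ball c ρ) ⊆ ball c R := by
      rw [closure_ball c hρ.ne']
      exact closedBall_subset_ball h2
    have h3 : ‖g c‖ ≤ M / (ρ - R / 3) ^ Z.card := by
      refine Complex.norm_le_of_forall_mem_frontier_norm_le (U := ball c ρ) isBounded_ball
        (hg.mono hsub).diffContOnCl ?_ (subset_closure (mem_ball_self hρ))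
      intro z hz
      rw [frontier_ball c hρ.ne', mem_sphere, dist_eq_norm] at hz
      have hzR : z ∈ ball c R := by
        rw [mem_ball, dist_eq_norm, hz]
        exact h2
      have h4 : (ρ - R / 3) ^ Z.card ≤ ∏ w ∈ Z, ‖z - w‖ := by
        rw [← Finset.prod_const]
        refine Finset.prod_le_prod (fun w _ => hρ'.le) fun w hw => ?_
        have h5 : ‖z - c‖ ≤ ‖z - w‖ + ‖w - c‖ := by
          have := norm_add_le (z - w) (w - c)
          rwa [sub_add_sub_cancel] at this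
        have h6 := (hZ w hw).1
        linarith
      have h7 : (∏ w ∈ Z, ‖z - w‖) * ‖g z‖ ≤ M := by
        rw [← norm_prod, ← norm_mul, ← hfg z hzR]
        exact hM z hzR
      rw [le_div_iff₀ (pow_pos hρ' _)]
      calc ‖g z‖ * (ρ - R / 3) ^ Z.card ≤ ‖g z‖ * ∏ w ∈ Z, ‖z - w‖ :=
            mul_le_mul_of_nonneg_left h4 (norm_nonneg _)
        _ = (∏ w ∈ Z, ‖z - w‖) * ‖g z‖ := mul_comm _ _
        _ ≤ M := h7
    have h8 : ‖f c‖ ≤ (R / 3) ^ Z.card * (M / (ρ - R / 3) ^ Z.card) := by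
      rw [hfg c (mem_ball_self hR), norm_mul, norm_prod]
      refine mul_le_mul ?_ h3 (norm_nonneg _) (by positivity)
      rw [← Finset.prod_const]
      refine Finset.prod_le_prod (fun w _ => norm_nonneg _) fun w hw => ?_
      rw [norm_sub_rev]
      exact (hZ w hw).1
    rw [← mul_div_assoc, le_div_iff₀ (pow_pos hρ' _)] at h8
    exact h8
  have hlim : ‖f c‖ * (R - R / 3) ^ Z.card ≤ (R / 3) ^ Z.card * M := by
    have hcont : Continuous fun ρ : ℝ => ‖f c‖ * (ρ - R / 3) ^ Z.card := by fun_prop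
    have ht : Filter.Tendsto (fun ρ : ℝ => ‖f c‖ * (ρ - R / 3) ^ Z.card)
        (nhdsWithin R (Set.Iio R)) (nhds (‖f c‖ * (R - R / 3) ^ Z.card)) :=
      (hcont.tendsto R).mono_left nhdsWithin_le_nhds
    refine le_of_tendsto ht ?_
    filter_upwards [Ioo_mem_nhdsLT (show R / 3 < R by linarith)] with ρ hρ
    exact key ρ hρ.1 hρ.2
  have h9 : (R - R / 3) ^ Z.card = (R / 3) ^ Z.card * 2 ^ Z.card := by
    rw [← mul_pow]
    congr 1
    ring
  rw [h9] at hlim
  have h10 : 0 < (R / 3) ^ Z.card := by positivity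
  have h11 : (R / 3) ^ Z.card * (2 ^ Z.card * ‖f c‖) ≤ (R / 3) ^ Z.card * M := by
    calc (R / 3) ^ Z.card * (2 ^ Z.card * ‖f c‖)
        = ‖f c‖ * ((R / 3) ^ Z.card * 2 ^ Z.card) := by ring
      _ ≤ _ := hlim
  exact le_of_mul_le_mul_left h11 h10

end MP_ae5b4e_LD
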