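import Pool.Agent.Lib.MP_ae5b4e_an_LD.CS

/-! THEOREM B', module Loc: from almost every point to almost every phase, locally.

`loc_null`. PROOF. `h z = log (q z / q P0)` (principal logarithm) is holomorphic near `P0`, `h P0 = 0`,
`deriv h P0 = deriv q P0 / q P0 ≠ 0`, and `q z = q P0 * exp (h z)` near `P0`. Inverse function theorem:
there are `η > 0` and a continuous `k : ball 0 (2 η) → U` with `h (k w) = w`, `k (h z) = z` for `z` in the
open set `k '' ball 0 (2 η)`, and `‖q (k w)‖ < kap`; use the open square `S = {|Re w| < η, |Im w| < η}`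
instead of the ball, `V = k '' S` (open). Let `Bad = {P ∈ Ereg ∩ U : ¬ GoodV q P}`, a null set. Let
`α` be a generic phase and `P ∈ V`, `q P = r e^{iα}`, `¬ GoodV q P`, `h P = x + i β`. For every `|x'| < η`
the point `P' = k (x' + iβ)` is in `Bad`: its phase is `α` (`q P' = q P0 e^{x' + iβ} = q P e^{x'-x}`), so
`P' ∈ Ereg` (as in `mem_ereg`); if `x' ≤ x` then `P' = tr q P ((x - x')/2)`, since
`s ↦ k (x - 2s + iβ)` is a lift of `q P e^{-2s}` starting at `P` (`eq_of_meet` with `tr q P`), if `x' > x`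
then `P = tr q P' ((x' - x)/2)`; `goodV_iff`. So with `B = {Im (h P) : such α, P}` the set
`{w : |Re w| < η, Im w ∈ B} ⊆ h '' (Bad ∩ k '' ball)` is null: `h` is differentiable, images of null sets
are null (`MeasureTheory.addHaar_image_eq_zero_of_differentiableOn_of_addHaar_eq_zero`). By
`Complex.volume_preserving_equiv_real_prod` and `Measure.prod_prod` (true for all sets):
`2 η * volume B = 0`. Finally `e^{iα} = (q P0/‖q P0‖) e^{iβ}`, so `α ∈ arg (q P0) + B + 2 π ℤ`: null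
(countable union of translates). -/

open Complex Set Filter PorTR MeasureTheory Topology
open scoped ENNReal

namespace MP_ae5b4e_LD

private theorem loc_chart {q : ℂ → ℂ} (hq : DifferentiableOn ℂ q Hm) {U : Set ℂ} (hU : IsOpen U)
    (hUH : U ⊆ Hm) {P0 : ℂ} (hP0 : P0 ∈ U) (h0 : q P0 ≠ 0) (hd : deriv q P0 ≠ 0) :
    ∃ (k h : ℂ → ℂ) (V : Set ℂ) (η : ℝ), 0 < η ∧ IsOpen V ∧ P0 ∈ V ∧ V ⊆ U ∧
      (∀ z ∈ V, |(h z).re| < η ∧ |(h z).im| < η ∧ k (h z) = z) ∧
      (∀ w : ℂ, |w.re| < η → |w.im| < η → k w ∈ V ∧ h (k w) = w) ∧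
      ContinuousOn k {w : ℂ | |w.re| < η ∧ |w.im| < η} ∧ DifferentiableOn ℂ h V ∧
      ∀ z ∈ V, q z = q P0 * exp (h z) := by
  have hop : IsOpen Hm := isOpen_lt Complex.continuous_im continuous_const
  have hqc : ContinuousOn (fun z => q z / q P0) U := (hq.continuousOn.mono hUH).div_const _
  obtain ⟨U1, hU1⟩ : ∃ U1, U1 = U ∩ (fun z => q z / q P0) ⁻¹' slitPlane := ⟨_, rfl⟩
  have hU1o : IsOpen U1 := by
    rw [hU1]
    exact hqc.isOpen_inter_preimage hU isOpen_slitPlane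
  have hP1 : P0 ∈ U1 := by
    rw [hU1]
    refine ⟨hP0, ?_⟩
    show q P0 / q P0 ∈ slitPlane
    rw [div_self h0]
    exact one_mem_slitPlane
  obtain ⟨h, hh⟩ : ∃ h : ℂ → ℂ, h = fun z => log (q z / q P0) := ⟨_, rfl⟩
  have hha : ∀ z ∈ U1, q z = q P0 * exp (h z) := by
    intro z hz
    rw [hU1] at hz
    have h1 : q z / q P0 ≠ 0 := slitPlane_ne_zero hz.2
    rw [hh]
    show q z = q P0 * exp (log (q z / q P0))
    rw [exp_log h1, mul_div_cancel₀ _ h0]
  have hhd : DifferentiableOn ℂ h U1 := by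
    intro z hz
    rw [hU1] at hz
    have h1 : DifferentiableAt ℂ q z := hq.differentiableAt (hop.mem_nhds (hUH hz.1))
    rw [hh]
    exact ((h1.div_const _).clog hz.2).differentiableWithinAt
  have hhs : HasStrictDerivAt h (deriv q P0 / q P0 / (q P0 / q P0)) P0 := by
    have h1 : HasStrictDerivAt q (deriv q P0) P0 :=
      (hq.analyticAt (hop.mem_nhds (hUH hP0))).hasStrictDerivAt
    rw [hh]
    refine (h1.div_const (q P0)).clog ?_
    rw [div_self h0]
    exact one_mem_slitPlane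
  have hc : deriv q P0 / q P0 / (q P0 / q P0) ≠ 0 := by
    rw [div_self h0, div_one]
    exact div_ne_zero hd h0
  have hh0 : h P0 = 0 := by
    rw [hh]
    show log (q P0 / q P0) = 0
    rw [div_self h0, log_one]
  obtain ⟨e, he⟩ : ∃ e : OpenPartialHomeomorph ℂ ℂ,
      e = ((hhs.hasStrictFDerivAt_equiv hc).toOpenPartialHomeomorph h).restrOpen U1 hU1o :=
    ⟨_, rfl⟩
  have hec : ∀ z, e z = h z := by
    intro z
    rw [he]
    rfl
  have hes : e.source ⊆ U1 := by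
    rw [he]
    exact fun z hz => hz.2
  have heP : P0 ∈ e.source := by
    rw [he]
    exact ⟨(hhs.hasStrictFDerivAt_equiv hc).mem_toOpenPartialHomeomorph_source, hP1⟩
  have het : (0 : ℂ) ∈ e.target := by
    have h1 := e.map_source heP
    rwa [hec, hh0] at h1
  obtain ⟨ρ, hρ, hball⟩ := Metric.isOpen_iff.1 e.open_target 0 het
  have hsq : ∀ w : ℂ, |w.re| < ρ / 2 → |w.im| < ρ / 2 → w ∈ e.target := by
    intro w h1 h2
    apply hball
    rw [Metric.mem_ball, dist_zero_right]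
    refine (norm_le_abs_re_add_abs_im w).trans_lt ?_
    linarith
  have hSo : IsOpen {w : ℂ | |w.re| < ρ / 2 ∧ |w.im| < ρ / 2} := by
    have h1 : Continuous fun w : ℂ => |w.re| := continuous_re.abs
    have h2 : Continuous fun w : ℂ => |w.im| := continuous_im.abs
    exact (isOpen_lt h1 continuous_const).inter (isOpen_lt h2 continuous_const)
  refine ⟨e.symm, h, e.source ∩ e ⁻¹' {w : ℂ | |w.re| < ρ / 2 ∧ |w.im| < ρ / 2}, ρ / 2,
    by linarith, e.isOpen_inter_preimage hSo, ⟨heP, ?_⟩, ?_, ?_, ?_, ?_, ?_, ?_⟩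
  · show |(e P0).re| < ρ / 2 ∧ |(e P0).im| < ρ / 2
    rw [hec, hh0]
    simp only [zero_re, zero_im, abs_zero]
    exact ⟨by linarith, by linarith⟩
  · intro z hz
    have h1 := hes hz.1
    rw [hU1] at h1
    exact h1.1
  · intro z hz
    have h1 : |(e z).re| < ρ / 2 ∧ |(e z).im| < ρ / 2 := hz.2
    have h2 := e.left_inv hz.1
    rw [hec] at h1 h2
    exact ⟨h1.1, h1.2, h2⟩
  · intro w h1 h2
    have h3 := hsq w h1 h2
    have h4 := e.right_inv h3
    refine ⟨⟨e.map_target h3, ?_⟩, by rw [← hec]; exact h4⟩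
    show |(e (e.symm w)).re| < ρ / 2 ∧ |(e (e.symm w)).im| < ρ / 2
    rw [h4]
    exact ⟨h1, h2⟩
  · exact e.symm.continuousOn.mono fun w hw => hsq w hw.1 hw.2
  · exact hhd.mono fun z hz => hes hz.1
  · exact fun z hz => hha z (hes hz.1)

private theorem loc_flow {W : Set (ℂ → ℂ)} {C d0 Ce kap : ℝ} (F : Fam W C d0 Ce kap)
    {q : ℂ → ℂ} (hq : q ∈ W) {k : ℂ → ℂ} {c : ℂ} {η : ℝ}
    (hk : ContinuousOn k {w : ℂ | |w.re| < η ∧ |w.im| < η})
    (hkq : ∀ w : ℂ, |w.re| < η → |w.im| < η → q (k w) = c * exp w)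
    {x x' β : ℝ} (hx : |x| < η) (hx' : |x'| < η) (hβ : |β| < η) (hxx : x' ≤ x)
    (hP : k (x + β * I) ∈ Ereg q d0 kap) :
    tr q (k (x + β * I)) ((x - x') / 2) = k (x' + β * I) := by
  have hT := tr_traj F hq hP
  have h2 : 0 ≤ (x - x') / 2 := by linarith
  have hbd : ∀ t ∈ Icc 0 ((x - x') / 2), |x - 2 * t| < η := by
    intro t ht
    rw [abs_lt] at hx hx' ⊢
    constructor
    · linarith [ht.2]
    · linarith [ht.1]
  have hre : ∀ a : ℝ, ((a : ℂ) + β * I).re = a := fun a => by simp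
  have him : ∀ a : ℝ, ((a : ℂ) + β * I).im = β := fun a => by simp
  have key := eq_of_meet (F.hol q hq) (a := 0) (b := (x - x') / 2) (s := 0)
    (l := tr q (k (x + β * I))) (l' := fun t => k (((x - 2 * t : ℝ) : ℂ) + β * I))
    ⟨le_rfl, h2⟩ (hT.cont.mono fun t ht => ht.1) ?_ (fun t ht => hT.low t ht.1)
    (fun t ht => hT.reg t ht.1) ?_ ?_ ((x - x') / 2) ⟨h2, le_rfl⟩
  · rw [key]
    congr 3
    ring
  · refine hk.comp (Continuous.continuousOn ?_) ?_
    · fun_prop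
    · intro t ht
      refine ⟨?_, ?_⟩
      · rw [hre]; exact hbd t ht
      · rw [him]; exact hβ
  · intro t ht
    rw [hT.val t ht.1, hkq _ (by rw [hre]; exact hx) (by rw [him]; exact hβ),
      hkq _ (by rw [hre]; exact hbd t ht) (by rw [him]; exact hβ), mul_assoc]
    congr 1
    rw [Complex.ofReal_exp, ← Complex.exp_add]
    congr 1
    push_cast
    ring
  · rw [hT.start]
    congr 3
    ring

theorem loc_null {W : Set (ℂ → ℂ)} {C d0 Ce kap : ℝ} (F : Fam W C d0 Ce kap)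
    (hbd : DeepBd W C d0) {q : ℂ → ℂ} (hq : q ∈ W) {U : Set ℂ} (hU : IsOpen U)
    (hUd : ∀ P ∈ U, 2 * d0 < -P.im) {P0 : ℂ} (hP0 : P0 ∈ U) (h0 : q P0 ≠ 0)
    (hk : ‖q P0‖ < kap) (hd : deriv q P0 ≠ 0)
    (hnull : volume {P : ℂ | P ∈ Ereg q d0 kap ∩ U ∧ ¬ GoodV q P} = 0) :
    ∃ V : Set ℂ, IsOpen V ∧ P0 ∈ V ∧
      volume {α : ℝ | Generic q α ∧ ∃ P ∈ V, ∃ r : ℝ, 0 < r ∧ r < kap ∧
        q P = r * cexp (α * I) ∧ ¬ GoodV q P} = 0 := by
  have hd0 := F.d0_pos
  have hUH : U ⊆ Hm := by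
    intro P hP
    have h1 := hUd P hP
    show P.im < 0
    linarith
  have hqc : ContinuousOn (fun z => ‖q z‖) U := ((F.hol q hq).continuousOn.mono hUH).norm
  obtain ⟨U1, hU1⟩ : ∃ U1, U1 = U ∩ (fun z => ‖q z‖) ⁻¹' Iio kap := ⟨_, rfl⟩
  have hU1o : IsOpen U1 := by
    rw [hU1]
    exact hqc.isOpen_inter_preimage hU isOpen_Iio
  have hP1 : P0 ∈ U1 := by
    rw [hU1]
    exact ⟨hP0, hk⟩
  have hU1U : U1 ⊆ U := by
    rw [hU1]
    exact inter_subset_left
  obtain ⟨k, h, V, η, hη, hVo, hPV, hVU, hV1, hV2, hkc, hhd, hqh⟩ :=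
    loc_chart (F.hol q hq) hU1o (hU1U.trans hUH) hP1 h0 hd
  have hkap : ∀ z ∈ V, ‖q z‖ < kap := by
    intro z hz
    have h1 := hVU hz
    rw [hU1] at h1
    exact h1.2
  refine ⟨V, hVo, hPV, ?_⟩
  obtain ⟨B, hB⟩ : ∃ B : Set ℝ, B = {β : ℝ | ∀ x : ℝ, |x| < η → ∃ P ∈ V,
      P ∈ Ereg q d0 kap ∧ ¬ GoodV q P ∧ h P = x + β * I} := ⟨_, rfl⟩
  have hB0 : volume B = 0 := by
    obtain ⟨T, hT⟩ : ∃ T : Set ℂ, T = h '' {P | P ∈ V ∧ P ∈ Ereg q d0 kap ∧ ¬ GoodV q P} :=
      ⟨_, rfl⟩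
    have hT0 : volume T = 0 := by
      rw [hT]
      apply addHaar_image_eq_zero_of_differentiableOn_of_addHaar_eq_zero
      · exact (hhd.restrictScalars ℝ).mono fun z hz => hz.1
      · refine measure_mono_null ?_ hnull
        intro z hz
        exact ⟨⟨hz.2.1, hU1U (hVU hz.1)⟩, hz.2.2⟩
    have h1 : volume (Ioo (-η) η ×ˢ B) = 0 := by
      have h2 := volume_preserving_equiv_real_prod.symm
      have h3 : volume (measurableEquivRealProd.symm ⁻¹' T) = 0 := by
        rw [h2.measure_preimage_equiv]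
        exact hT0
      refine measure_mono_null ?_ h3
      rintro ⟨x, β⟩ ⟨hx, hβ⟩
      rw [hB] at hβ
      obtain ⟨P, hPV', hP1, hP2, hP3⟩ := hβ x (abs_lt.2 hx)
      show measurableEquivRealProd.symm (x, β) ∈ T
      rw [hT]
      refine ⟨P, ⟨hPV', hP1, hP2⟩, ?_⟩
      rw [hP3]
      apply Complex.ext <;> simp
    rw [Measure.volume_eq_prod, Measure.prod_prod, mul_eq_zero] at h1
    rcases h1 with h1 | h1
    · rw [Real.volume_Ioo, ENNReal.ofReal_eq_zero] at h1
      exfalso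
      linarith
    · exact h1
  have hcov : {α : ℝ | Generic q α ∧ ∃ P ∈ V, ∃ r : ℝ, 0 < r ∧ r < kap ∧
      q P = r * cexp (α * I) ∧ ¬ GoodV q P} ⊆
      ⋃ n : ℤ, (fun α : ℝ => α + (-(arg (q P0)) - n * (2 * Real.pi))) ⁻¹' B := by
    rintro α ⟨hg, P, hP, r, hr, hrk, hqP, hbad⟩
    have hPd : 2 * d0 < -P.im := hUd P (hU1U (hVU hP))
    have hPE : P ∈ Ereg q d0 kap := mem_ereg hg hPd hr hrk hqP
    obtain ⟨n, hn⟩ : ∃ n : ℤ, ((Real.log r : ℝ) : ℂ) + α * I =
        (((Real.log ‖q P0‖ : ℝ) : ℂ) + arg (q P0) * I + h P) + n * (2 * Real.pi * I) := by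
      rw [← Complex.exp_eq_exp_iff_exists_int]
      rw [Complex.exp_add, Complex.exp_add, Complex.exp_add, ← Complex.ofReal_exp,
        ← Complex.ofReal_exp, Real.exp_log hr, Real.exp_log (norm_pos_iff.2 h0),
        norm_mul_exp_arg_mul_I, ← hqP]
      exact hqh P hP
    have him : α = arg (q P0) + (h P).im + n * (2 * Real.pi) := by
      have h1 := congrArg Complex.im hn
      simpa using h1
    obtain ⟨h1, h2, h3⟩ := hV1 P hP
    rw [mem_iUnion]
    refine ⟨n, ?_⟩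
    show α + (-(arg (q P0)) - n * (2 * Real.pi)) ∈ B
    have h4 : α + (-(arg (q P0)) - n * (2 * Real.pi)) = (h P).im := by
      rw [him]
      ring
    rw [h4, hB]
    intro x hx
    have hre : ((x : ℂ) + (h P).im * I).re = x := by simp
    have him2 : ((x : ℂ) + (h P).im * I).im = (h P).im := by simp
    obtain ⟨h5, h6⟩ := hV2 ((x : ℂ) + (h P).im * I) (by rw [hre]; exact hx)
      (by rw [him2]; exact h2)
    have hkq : ∀ w : ℂ, |w.re| < η → |w.im| < η → q (k w) = q P0 * exp w := by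
      intro w hw1 hw2
      obtain ⟨h7, h8⟩ := hV2 w hw1 hw2
      rw [hqh _ h7, h8]
    have hPk : k (((h P).re : ℂ) + (h P).im * I) = P := by
      rw [re_add_im]
      exact h3
    have hqP' : q (k ((x : ℂ) + (h P).im * I)) =
        ((r * Real.exp (x - (h P).re) : ℝ) : ℂ) * cexp (α * I) := by
      rw [hkq _ (by rw [hre]; exact hx) (by rw [him2]; exact h2)]
      have h7 : (x : ℂ) + (h P).im * I = h P + ((x - (h P).re : ℝ) : ℂ) := by
        apply Complex.ext <;> simp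
      rw [h7, Complex.exp_add, ← mul_assoc, ← hqh P hP, hqP]
      push_cast
      ring
    have hr' : 0 < r * Real.exp (x - (h P).re) := mul_pos hr (Real.exp_pos _)
    have hrk' : r * Real.exp (x - (h P).re) < kap := by
      have h7 := hkap _ h5
      rwa [hqP', norm_mul, Complex.norm_exp_ofReal_mul_I, mul_one, Complex.norm_real,
        Real.norm_of_nonneg hr'.le] at h7
    have hE' : k ((x : ℂ) + (h P).im * I) ∈ Ereg q d0 kap :=
      mem_ereg hg (hUd _ (hU1U (hVU h5))) hr' hrk' hqP'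
    refine ⟨k ((x : ℂ) + (h P).im * I), h5, hE', ?_, h6⟩
    rcases le_total x (h P).re with hle | hle
    · have hfl := loc_flow F hq hkc hkq h1 hx h2 hle (by rw [hPk]; exact hPE)
      rw [hPk] at hfl
      exact fun hgood => hbad ((goodV_iff F hbd hq hPE hE' (by linarith) hfl).2 hgood)
    · have hfl := loc_flow F hq hkc hkq hx h1 h2 hle hE'
      rw [hPk] at hfl
      exact fun hgood => hbad ((goodV_iff F hbd hq hE' hPE (by linarith) hfl).1 hgood)
  refine measure_mono_null hcov (measure_iUnion_null fun n => ?_)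
  rw [measure_preimage_add_right]
  exact hB0

end MP_ae5b4e_LD
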