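import Pool.Agent.Lib.MP_ae5b4e_an_LD.Box
import Pool.Agent.Lib.MP_ae5b4e_an_LD.Cnt
import Pool.Agent.Lib.MP_ae5b4e_an_LD.Alp
import Pool.Agent.Lib.MP_ae5b4e_an_LD.Asy
import Pool.Agent.Lib.MP_ae5b4e_an_TR.Der

/-! LEMMA D (density), end theorem `density`: there are a window limit `q`, a generic phase `α` close
to `π` and a box of any given width, all trajectories of phase `α` of which (with `|q| < kap` at the
start) are finite. -/

open Complex Set Filter PorTR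

namespace MP_ae5b4e_LD

/-- PLACE: consequence of NB_5(B) at the places where `|Q|` is maximal at depth `D V_n`. -/
def Place (W : Set (ℂ → ℂ)) (c B D0 : ℝ) : Prop :=
  ∀ D : ℝ, D0 ≤ D → ∃ q ∈ W, c * D ^ (-B) ≤ ‖q (-((D : ℂ) * I))‖

private lemma mem_Hm_add {z : ℂ} (hz : z ∈ Hm) (s : ℝ) : z + (s : ℂ) ∈ Hm := by
  have h : z.im < 0 := hz
  show (z + (s : ℂ)).im < 0
  simpa using h

private lemma deriv_shift (q : ℂ → ℂ) (s : ℝ) (z : ℂ) :
    deriv (fun w => q (w + (s : ℂ))) z = deriv q (z + (s : ℂ)) :=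
  deriv_comp_add_const q (s : ℂ) z

private lemma generic_trans {q : ℂ → ℂ} {α : ℝ} (h : Generic q α) (s : ℝ) :
    Generic (fun z => q (z + (s : ℂ))) α := by
  intro z hz hd r hr
  rw [deriv_shift] at hd
  exact h _ (mem_Hm_add hz s) hd r hr

private lemma infTraj_trans {q : ℂ → ℂ} {P : ℂ} {s : ℝ}
    (h : InfTraj (fun z => q (z + (s : ℂ))) P) : InfTraj q (P + (s : ℂ)) := by
  obtain ⟨l, hl, hlim⟩ := h
  refine ⟨fun t => l t + (s : ℂ), ⟨?_, ?_, ?_, ?_, ?_⟩, ?_⟩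
  · simp [hl.start]
  · exact hl.cont.add continuousOn_const
  · intro t ht
    exact mem_Hm_add (hl.low t ht) s
  · intro t ht
    exact hl.val t ht
  · intro t ht
    have := hl.reg t ht
    rwa [deriv_shift] at this
  · simpa using hlim

private lemma not_const {W : Set (ℂ → ℂ)} {C d0 Ce kap : ℝ} (F : Fam W C d0 Ce kap) {q : ℂ → ℂ}
    (hq : q ∈ W) : ¬ ∃ c : ℂ, ∀ z ∈ Hm, q z = c := by
  rintro ⟨c, hc⟩
  have hd := F.d0_pos
  obtain ⟨e, he, hosc⟩ := F.osc 1 one_pos d0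
  have hcont : ContinuousOn (fun t : ℝ => (t : ℂ) - (d0 : ℂ) * I) (Icc 0 1) := by
    fun_prop
  have hmap : MapsTo (fun t : ℝ => (t : ℂ) - (d0 : ℂ) * I) (Icc 0 1) (Strip d0 d0) := by
    intro t _
    show d0 ≤ -((t : ℂ) - (d0 : ℂ) * I).im ∧ -((t : ℂ) - (d0 : ℂ) * I).im ≤ d0
    simp
  have hdist : 1 ≤ dist ((fun t : ℝ => (t : ℂ) - (d0 : ℂ) * I) 0)
      ((fun t : ℝ => (t : ℂ) - (d0 : ℂ) * I) 1) := by
    have h : (((0 : ℝ) : ℂ) - (d0 : ℂ) * I) - (((1 : ℝ) : ℂ) - (d0 : ℂ) * I) = -1 := by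
      push_cast
      ring
    show 1 ≤ dist (((0 : ℝ) : ℂ) - (d0 : ℂ) * I) (((1 : ℝ) : ℂ) - (d0 : ℂ) * I)
    rw [dist_eq_norm, h]
    simp
  obtain ⟨t, ht, hle⟩ := hosc q hq 0 1 _ zero_le_one hcont hmap hdist
  have hH : ∀ t : ℝ, (t : ℂ) - (d0 : ℂ) * I ∈ Hm := by
    intro t
    show ((t : ℂ) - (d0 : ℂ) * I).im < 0
    simpa using hd
  have h1 : q ((t : ℂ) - (d0 : ℂ) * I) = c := hc _ (hH t)
  have h2 : q (((0 : ℝ) : ℂ) - (d0 : ℂ) * I) = c := hc _ (hH 0)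
  have : dist (q ((t : ℂ) - (d0 : ℂ) * I)) (q (((0 : ℝ) : ℂ) - (d0 : ℂ) * I)) = 0 := by
    rw [h1, h2, dist_self]
  have hle' : e ≤ dist (q ((t : ℂ) - (d0 : ℂ) * I)) (q (((0 : ℝ) : ℂ) - (d0 : ℂ) * I)) := hle
  rw [this] at hle'
  exact absurd hle' (not_le.mpr he)

theorem density {W : Set (ℂ → ℂ)} {C d0 Ce kap c B D0 : ℝ} (F : Fam W C d0 Ce kap)
    (hc : 0 < c) (hB : 0 ≤ B) (hPl : Place W c B D0) {X φ C5 : ℝ} (hX : 0 ≤ X) (hφ : 0 < φ)
    (hφ2 : φ ≤ Real.pi / 2) :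
    ∃ q ∈ W, ∃ α : ℝ, Real.pi - 2 * φ < α ∧ α < Real.pi ∧ Generic q α ∧
      ∀ (P : ℂ) (r : ℝ), |P.re| ≤ X → 2 * d0 ≤ -P.im → -P.im ≤ C5 → 0 < r → r < kap →
        q P = r * cexp (α * I) → FinTraj q P := by
  by_contra hcon
  push Not at hcon
  have hd := F.d0_pos
  have hC := F.C_pos
  set M : ℝ := max 1 (4 * C / d0 ^ 2) with hMdef
  have hM1 : 1 ≤ M := le_max_left _ _
  obtain ⟨c0, hc0, hfib⟩ := fib F C5
  have hN1 : 0 ≤ kap / c0 + 1 := by
    have := F.kap_pos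
    positivity
  obtain ⟨D, s, n, K, J, hD1, hs1, hds, hsD, hn, hns, hK, hKs, hKs', hJ, hasy⟩ :=
    asy (d0 := d0) (M := M) (c := c) (B := B) (φ := φ) (X := X) (N1 := kap / c0 + 1)
      hd hM1 hc hB hφ hX hN1 (max D0 1) (C5 + 1)
  have hD0 : D0 ≤ D := le_trans (le_max_left _ _) hD1
  have hDpos : 0 < D := lt_of_lt_of_le one_pos (le_trans (le_max_right _ _) hD1)
  have hs : 0 < s := lt_of_lt_of_le hd hds
  obtain ⟨q, hq, hqD⟩ := hPl D hD0
  have hqdiff : DifferentiableOn ℂ q {z | z.im < 0} := F.hol q hq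
  have hpow : 0 < c * D ^ (-B) := mul_pos hc (Real.rpow_pos_of_pos hDpos _)
  have hqpos : 0 < ‖q (-((D : ℂ) * I))‖ := lt_of_lt_of_le hpow hqD
  have h0 : q (-((D : ℂ) * I)) ≠ 0 := norm_pos_iff.mp hqpos
  set L : ℝ := Real.log M - Real.log c + B * Real.log D with hLdef
  have hL : Real.log M - Real.log ‖q (-((D : ℂ) * I))‖ ≤ L := by
    have h1 : Real.log (c * D ^ (-B)) ≤ Real.log ‖q (-((D : ℂ) * I))‖ := Real.log_le_log hpow hqD
    have h2 : Real.log (c * D ^ (-B)) = Real.log c - B * Real.log D := by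
      rw [Real.log_mul hc.ne' (Real.rpow_pos_of_pos hDpos _).ne', Real.log_rpow hDpos]
      ring
    rw [hLdef]
    linarith
  -- the bound M
  have hMb : ∀ z : ℂ, z.im ≤ -(d0 / 2) → ‖q z‖ ≤ M := by
    intro z hz
    have hz' : z ∈ Hm := by
      show z.im < 0
      linarith
    have h1 := F.bound q hq z hz'
    have h2 : C / z.im ^ 2 ≤ 4 * C / d0 ^ 2 := by
      have h3 : (d0 / 2) ^ 2 ≤ z.im ^ 2 := by nlinarith
      have h4 : 0 < (d0 / 2) ^ 2 := by positivity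
      calc C / z.im ^ 2 ≤ C / (d0 / 2) ^ 2 := by
            apply div_le_div_of_nonneg_left hC.le h4 h3
        _ = 4 * C / d0 ^ 2 := by
            field_simp
            ring
    exact le_trans (le_trans h1 h2) (le_max_right _ _)
  have hMs : ∀ z : ℂ, z.im ≤ -s → ‖q z‖ ≤ M := fun z hz => hMb z (by linarith)
  have hMd : ∀ z : ℂ, z.im ≤ -d0 → ‖q z‖ ≤ M := fun z hz => hMb z (by linarith)
  obtain ⟨cc, hcc, hcc0, hccL⟩ :=
    bottom_centres hs (by linarith) hM1 hqdiff hMs h0 hL n hn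
  have hKD : d0 * (4 / 3 : ℝ) ^ (K - 1) ≤ D / 2 := by linarith
  obtain ⟨x₁, hx1a, hx1b, hx1⟩ := good_vertical hK hd hKD hM1 hqdiff hMd h0 hL (-(D / 2)) (-(D / 4))
    (by linarith) (by linarith) (by ring)
  obtain ⟨x₂, hx2a, hx2b, hx2⟩ := good_vertical hK hd hKD hM1 hqdiff hMd h0 hL (D / 4) (D / 2)
    (by linarith) (by linarith) (by ring)
  -- the phase
  have hcount : {al : ℝ | ¬ Generic q al}.Countable := countable_not_generic hqdiff (not_const F hq)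
  obtain ⟨α, hα1, hα2, hαN, hαv⟩ := exists_alpha hφ hφ2 hcount
    (ι := Fin n ⊕ (Fin K ⊕ Fin K))
    (Sum.elim (fun i => q ((cc i : ℂ) - (s : ℂ) * I))
      (Sum.elim (fun k => q ((x₁ : ℂ) - ((d0 * (4 / 3 : ℝ) ^ (k : ℕ) : ℝ) : ℂ) * I))
        (fun k => q ((x₂ : ℂ) - ((d0 * (4 / 3 : ℝ) ^ (k : ℕ) : ℝ) : ℂ) * I))))
  have hgen : Generic q α := by
    by_contra hg
    exact hαN hg
  set δ : ℝ := φ / (8 * ((Fintype.card (Fin n ⊕ (Fin K ⊕ Fin K)) : ℝ) + 1)) with hδdef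
  have hcard : (Fintype.card (Fin n ⊕ (Fin K ⊕ Fin K)) : ℝ) = n + 2 * K := by
    simp only [Fintype.card_sum, Fintype.card_fin]
    push_cast
    ring
  have hδ : 0 < δ := by
    rw [hδdef]
    positivity
  have hδinv : δ⁻¹ = 8 * ((n : ℝ) + 2 * K + 1) / φ := by
    rw [hδdef, hcard, inv_div]
  -- the trajectories
  have hbox : ∀ j : Fin J, ∃ (P : ℂ) (r : ℝ), |P.re - (j : ℕ) * (2 * X + 3)| ≤ X ∧
      2 * d0 ≤ -P.im ∧ -P.im ≤ C5 ∧ 0 < r ∧ r < kap ∧ q P = r * cexp (α * I) ∧ InfTraj q P := by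
    intro j
    have hmem := F.trans q hq ((j : ℕ) * (2 * X + 3))
    obtain ⟨P, r, hPX, hPd, hPC, hr0, hrk, hqP, hnf⟩ :=
      hcon _ hmem α hα1 hα2 (generic_trans hgen _)
    refine ⟨P + (((j : ℕ) * (2 * X + 3) : ℝ) : ℂ), r, ?_, ?_, ?_, hr0, hrk, hqP, ?_⟩
    · have : (P + (((j : ℕ) * (2 * X + 3) : ℝ) : ℂ)).re - (j : ℕ) * (2 * X + 3) = P.re := by
        rw [add_re, ofReal_re]
        ring
      rw [this]
      exact hPX
    · rw [add_im, ofReal_im, add_zero]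
      exact hPd
    · rw [add_im, ofReal_im, add_zero]
      exact hPC
    · apply infTraj_trans
      have hexp : ‖cexp (α * I)‖ = 1 := norm_exp_ofReal_mul_I α
      have hne : ((r : ℂ) * cexp (α * I)) ≠ 0 :=
        mul_ne_zero (by exact_mod_cast hr0.ne') (exp_ne_zero _)
      have hnorm : ‖(r : ℂ) * cexp (α * I)‖ = r := by
        rw [norm_mul, hexp, mul_one, norm_real, Real.norm_of_nonneg hr0.le]
      have hdich := F.dich hmem (P := P) hPd (by rw [hqP]; exact hne)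
        (by rw [hqP, hnorm]; exact hrk) (by
          intro z hz hz0 r' hr' _
          rw [hqP]
          intro heq
          refine generic_trans hgen _ z hz hz0 (r' * r) (mul_pos hr' hr0) (heq.trans ?_)
          push_cast
          ring)
      rcases hdich with h1 | h1
      · exact absurd h1 hnf
      · exact h1
  choose P r hPX hPd hPC hr0 hrk hqP hinf using hbox
  have hJb : ∀ j : Fin J, (j : ℕ) * (2 * X + 3) + X ≤ D / 4 := by
    intro j
    have h1 : ((j : ℕ) : ℝ) ≤ J := by exact_mod_cast j.2.le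
    have h2 : 0 ≤ 2 * X + 3 := by linarith
    nlinarith [mul_le_mul_of_nonneg_right h1 h2]
  have hre1 : ∀ j, x₁ < (P j).re := by
    intro j
    have h1 := (abs_le.mp (hPX j)).1
    have h2 := hJb j
    have h3 : (0 : ℝ) ≤ (j : ℕ) * (2 * X + 3) := by positivity
    linarith
  have hre2 : ∀ j, (P j).re < x₂ := by
    intro j
    have h1 := (abs_le.mp (hPX j)).2
    have h2 := hJb j
    linarith
  have him : ∀ j, -s < (P j).im := by
    intro j
    have := hPC j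
    linarith
  obtain ⟨Z, hJZ, hZ⟩ := box_count F hq hc0 (hfib q hq) P r hPX hre1 hre2 him hPd hPC
    (fun j => ⟨hr0 j, hrk j⟩) hqP hinf
  have hZc := exits_card (q := q) (s := s) (D := D) (M := M) (L := L) (δ := δ) (α := α) (d0 := d0)
    (lam := 32 * Real.pi * K * (L + 1)) (x₁ := x₁) (x₂ := x₂) (K := K) hs hDpos hd hds hqdiff hMb
    n hn hns cc hcc hcc0 hccL hδ (fun i => hαv (Sum.inl i)) hK hKs hx1
    (fun k hk => hαv (Sum.inr (Sum.inl ⟨k, hk⟩))) hx2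
    (fun k hk => hαv (Sum.inr (Sum.inr ⟨k, hk⟩))) (by linarith) (by linarith) Z hZ
  rw [hδinv] at hZc
  have hlog2 : 0 < Real.log 2 := Real.log_pos (by norm_num)
  have h5 : (J : ℝ) * Real.log 2 ≤ (kap / c0 + 1) * (Z.card * Real.log 2) := by
    calc (J : ℝ) * Real.log 2 ≤ ((kap / c0 + 1) * Z.card) * Real.log 2 :=
          mul_le_mul_of_nonneg_right hJZ hlog2.le
      _ = _ := by ring
  have h6 := mul_le_mul_of_nonneg_left hZc hN1
  linarith

end MP_ae5b4e_LD
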