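import Pool.Agent.Lib.MP_ae5b4e_an_LD.MainG

/-! THEOREM B', end theorem `density_ae`: there is a window limit `q` such that for almost every phase
`α` all starting points in a given box, of phase `α` and with `|q| < kap`, are good. -/

open Complex Set Filter PorTR MeasureTheory Topology
open scoped ENNReal

namespace MP_ae5b4e_LD

private lemma fam_not_const {W : Set (ℂ → ℂ)} {C d0 Ce kap : ℝ} (F : Fam W C d0 Ce kap)
    {q : ℂ → ℂ} (hq : q ∈ W) : ¬ ∃ c : ℂ, ∀ z ∈ Hm, q z = c := by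
  rintro ⟨c, hc⟩
  have hd := F.d0_pos
  obtain ⟨e, he, hosc⟩ := F.osc 1 one_pos d0
  have hcont : ContinuousOn (fun t : ℝ => (t : ℂ) - (d0 : ℂ) * I) (Icc 0 1) := by
    fun_prop
  have hmap : MapsTo (fun t : ℝ => (t : ℂ) - (d0 : ℂ) * I) (Icc 0 1) (Strip d0 d0) := by
    intro t _
    show d0 ≤ -((t : ℂ) - (d0 : ℂ) * I).im ∧ -((t : ℂ) - (d0 : ℂ) * I).im ≤ d0
    simp
  have hdist : 1 ≤ dist ((fun t : ℝ => (t : ℂ) - (d0 : ℂ) * I) 0)
      ((fun t : ℝ => (t : ℂ) - (d0 : ℂ) * I) 1) := by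
    have h : (((0 : ℝ) : ℂ) - (d0 : ℂ) * I) - (((1 : ℝ) : ℂ) - (d0 : ℂ) * I) = -1 := by
      push_cast
      ring
    show 1 ≤ dist (((0 : ℝ) : ℂ) - (d0 : ℂ) * I) (((1 : ℝ) : ℂ) - (d0 : ℂ) * I)
    rw [dist_eq_norm, h]
    simp
  obtain ⟨t, ht, hle⟩ := hosc q hq 0 1 _ zero_le_one hcont hmap hdist
  have hH : ∀ t : ℝ, (t : ℂ) - (d0 : ℂ) * I ∈ Hm := by
    intro t
    show ((t : ℂ) - (d0 : ℂ) * I).im < 0
    simpa using hd
  have h1 : q ((t : ℂ) - (d0 : ℂ) * I) = c := hc _ (hH t)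
  have h2 : q (((0 : ℝ) : ℂ) - (d0 : ℂ) * I) = c := hc _ (hH 0)
  have : dist (q ((t : ℂ) - (d0 : ℂ) * I)) (q (((0 : ℝ) : ℂ) - (d0 : ℂ) * I)) = 0 := by
    rw [h1, h2, dist_self]
  have hle' : e ≤ dist (q ((t : ℂ) - (d0 : ℂ) * I)) (q (((0 : ℝ) : ℂ) - (d0 : ℂ) * I)) := hle
  rw [this] at hle'
  exact absurd hle' (not_le.mpr he)

theorem density_ae {W : Set (ℂ → ℂ)} {C d0 Ce kap : ℝ} (F : Fam W C d0 Ce kap)
    (hbd : DeepBd W C d0) (hcpt : Cpt W) (hne : W.Nonempty) {X : ℝ} (hX : 0 ≤ X) (C5 : ℝ) :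
    ∃ q ∈ W, ∀ᵐ α : ℝ, Generic q α ∧
      ∀ (P : ℂ) (r : ℝ), |P.re| ≤ X → 2 * d0 < -P.im → -P.im ≤ C5 → 0 < r → r < kap →
        q P = r * cexp (α * I) → Good q P := by
  obtain ⟨q, hq, hen⟩ := finite_energy F hbd hne hcpt (X := X + 1) (C5 + 1) (by linarith)
  refine ⟨q, hq, ?_⟩
  have h1 := ae_good F hbd hq (X := X + 1) (C5 := C5 + 1) (lt_of_le_of_lt hen ENNReal.ofReal_lt_top)
  have h2 := glob_null F hbd hq h1
  have hdiff : DifferentiableOn ℂ q Hm := F.hol q hq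
  have h3 : volume {α : ℝ | ¬ Generic q α} = 0 :=
    (countable_not_generic hdiff (fam_not_const F hq)).measure_zero _
  have h4 : volume ({α : ℝ | ¬ Generic q α} ∪
      {α : ℝ | Generic q α ∧ ∃ P, 2 * d0 < -P.im ∧ P ∈ bx (X + 1) (C5 + 1) 0 ∧ ∃ r : ℝ, 0 < r ∧
      r < kap ∧ q P = r * cexp (α * I) ∧ ¬ GoodV q P}) = 0 := measure_union_null h3 h2
  rw [ae_iff]
  refine measure_mono_null ?_ h4
  intro α hα
  by_cases hg : Generic q α
  · right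
    refine ⟨hg, ?_⟩
    by_contra hno
    apply hα
    refine ⟨hg, ?_⟩
    intro P r hPX hPd hPC hr hrk hqP
    have hPE : P ∈ Ereg q d0 kap := mem_ereg hg hPd hr hrk hqP
    apply good_of_goodV F hbd hq hPE
    by_contra hbad
    exact hno ⟨P, hPd, ⟨by rw [sub_zero]; linarith, by linarith⟩, r, hr, hrk, hqP, hbad⟩
  · left
    exact hg

end MP_ae5b4e_LD
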