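import Pool.Agent.Lib.MP_ae5b4e_an_LD.Fat
import Pool.Agent.Lib.MP_ae5b4e_an_LD.Loc

/-! THEOREM B', end theorem `density_ae`. -/

open Complex Set Filter PorTR MeasureTheory Topology
open scoped ENNReal

namespace MP_ae5b4e_LD

/-- From almost every point to almost every phase. PROOF. `U = {2 d0 < -Im P} ∩ bx X C5 0` is open. For
`P0 ∈ U` with `q P0 ≠ 0`, `‖q P0‖ < kap`, `deriv q P0 ≠ 0` take the neighbourhood `V P0` of `loc_null`. The set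
`U'` of these points is covered by countably many `V P0` (`TopologicalSpace.countable_cover_nhdsWithin`
or `isLindelof`). If `α` is generic and `P ∈ U`, `q P = r e^{iα}`, `0 < r < kap`, then `deriv q P ≠ 0`
(`Generic`), so `P ∈ U'`. Countable union of null sets. -/
theorem glob_null {W : Set (ℂ → ℂ)} {C d0 Ce kap : ℝ} (F : Fam W C d0 Ce kap)
    (hbd : DeepBd W C d0) {q : ℂ → ℂ} (hq : q ∈ W) {X C5 : ℝ}
    (hnull : volume {P : ℂ | P ∈ Ereg q d0 kap ∩ bx X C5 0 ∧ ¬ GoodV q P} = 0) :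
    volume {α : ℝ | Generic q α ∧ ∃ P, 2 * d0 < -P.im ∧ P ∈ bx X C5 0 ∧ ∃ r : ℝ, 0 < r ∧
      r < kap ∧ q P = r * cexp (α * I) ∧ ¬ GoodV q P} = 0 := by
  have hd0 := F.d0_pos
  have hU : IsOpen ({P : ℂ | 2 * d0 < -P.im} ∩ bx X C5 0) := by
    refine IsOpen.inter (isOpen_lt continuous_const continuous_im.neg) ?_
    unfold bx
    have h1 : IsOpen {P : ℂ | |P.re - 0| < X} :=
      isOpen_lt ((continuous_re.sub continuous_const).abs) continuous_const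
    have h2 : IsOpen {P : ℂ | -P.im < C5} := isOpen_lt continuous_im.neg continuous_const
    exact h1.inter h2
  set U : Set ℂ := {P : ℂ | 2 * d0 < -P.im} ∩ bx X C5 0 with hUdef
  have hnullU : volume {P : ℂ | P ∈ Ereg q d0 kap ∩ U ∧ ¬ GoodV q P} = 0 := by
    refine measure_mono_null ?_ hnull
    rintro P ⟨⟨h1, h2⟩, h3⟩
    exact ⟨⟨h1, h2.2⟩, h3⟩
  have hV : ∀ P0 ∈ {P0 : ℂ | P0 ∈ U ∧ q P0 ≠ 0 ∧ ‖q P0‖ < kap ∧ deriv q P0 ≠ 0},
      ∃ V : Set ℂ, IsOpen V ∧ P0 ∈ V ∧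
      volume {α : ℝ | Generic q α ∧ ∃ P ∈ V, ∃ r : ℝ, 0 < r ∧ r < kap ∧
        q P = r * cexp (α * I) ∧ ¬ GoodV q P} = 0 := by
    rintro P0 ⟨h1, h2, h3, h4⟩
    exact loc_null F hbd hq hU (fun P hP => hP.1) h1 h2 h3 h4 hnullU
  choose! V hVo hVm hVn using hV
  obtain ⟨t, htU, htc, ht⟩ := TopologicalSpace.countable_cover_nhdsWithin
    (s := {P0 : ℂ | P0 ∈ U ∧ q P0 ≠ 0 ∧ ‖q P0‖ < kap ∧ deriv q P0 ≠ 0}) (f := V)
    (fun P0 hP0 => mem_nhdsWithin_of_mem_nhds ((hVo P0 hP0).mem_nhds (hVm P0 hP0)))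
  refine measure_mono_null (t := ⋃ P0 ∈ t, {α : ℝ | Generic q α ∧ ∃ P ∈ V P0, ∃ r : ℝ, 0 < r ∧
    r < kap ∧ q P = r * cexp (α * I) ∧ ¬ GoodV q P}) ?_
    ((measure_biUnion_null_iff htc).2 fun P0 hP0 => hVn P0 (htU hP0))
  rintro α ⟨hg, P, hP, hPb, r, hr, hrk, hqP, hbad⟩
  have hexp : ‖cexp (α * I)‖ = 1 := norm_exp_ofReal_mul_I α
  have hPU' : P ∈ {P0 : ℂ | P0 ∈ U ∧ q P0 ≠ 0 ∧ ‖q P0‖ < kap ∧ deriv q P0 ≠ 0} := by
    refine ⟨⟨hP, hPb⟩, ?_, ?_, ?_⟩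
    · rw [hqP]
      exact mul_ne_zero (by exact_mod_cast hr.ne') (exp_ne_zero _)
    · rw [hqP, norm_mul, hexp, mul_one, norm_real, Real.norm_of_nonneg hr.le]
      exact hrk
    · intro h0
      have hPH : P ∈ Hm := by
        show P.im < 0
        linarith
      exact hg P hPH h0 r hr hqP
  obtain ⟨P0, hP0, hPV⟩ := mem_iUnion₂.1 (ht hPU')
  exact mem_iUnion₂.2 ⟨P0, hP0, hg, P, hPV, r, hr, hrk, hqP, hbad⟩

end MP_ae5b4e_LD
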