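import Mathlib

/-! LEMMA D (density), module Poi: Poisson inequality in a half plane (angular variable).

`poisson_theta`: `q` holomorphic on `{Im z < 0}`, `‖q‖ ≤ M` on `{Im z ≤ -s}`, `1 ≤ M`,
`0 < s < D`, `q (-iD) ≠ 0`. Then
`∫_{-π}^{π} log⁺ (‖q ((D - s) tan (θ/2) - i s)‖⁻¹) dθ ≤ 2 π (log M - log ‖q (-iD)‖)`.

PROOF. `φ w = -i s - i (D - s) (1 - w)/(1 + w)` maps the unit disc into `{Im < -s}`
(`Re ((1-w)/(1+w)) = (1 - ‖w‖²)/‖1+w‖² > 0`), `φ 0 = -iD`, and
`φ (e^{-iθ}) = (D - s) tan (θ/2) - i s` for `|θ| < π` (`(1 - e^{-iθ})/(1 + e^{-iθ}) = i tan (θ/2)`).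
`F = q ∘ φ` is holomorphic on a neighbourhood of `closedBall 0 r`, `0 < r < 1`, and `F 0 ≠ 0`. JENSEN
(Mathlib: `MeromorphicOn.circleAverage_log_norm`, or the subharmonic form for analytic functions; all
terms `log (r/‖zero‖)` are `≥ 0`): `log ‖F 0‖ ≤ circleAverage (log ‖F ·‖) 0 r`. As
`log x = log⁺ x - log⁺ x⁻¹` and `log⁺ ‖F‖ ≤ log M`:
`∫_{-π}^{π} log⁺ (‖F (r e^{-iθ})‖⁻¹) dθ ≤ 2 π (log M - log ‖F 0‖)` for all `r < 1`. Let `r → 1`
(`r = 1 - 1/(n+2)`): for `|θ| < π` the integrand at `θ` is at most the liminf of the integrands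
(if `F (e^{-iθ}) ≠ 0` it converges by continuity of `q` and `φ`; if `F (e^{-iθ}) = 0` the left side is
`log⁺ 0 = 0`). FATOU: `MeasureTheory.lintegral_liminf_le`. -/

open Complex Metric Set MeasureTheory

namespace MP_ae5b4e_LD

private theorem Poi_im (s D : ℝ) (w : ℂ) :
    (-(I * s) - I * (D - s) * ((1 - w) / (1 + w))).im =
      -s - (D - s) * ((1 - normSq w) / normSq (1 + w)) := by
  have h1 : ((1 - w) / (1 + w)).re = (1 - normSq w) / normSq (1 + w) := by
    rw [Complex.div_re, ← add_div]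
    congr 1
    simp only [Complex.sub_re, Complex.one_re, Complex.add_re, Complex.sub_im, Complex.one_im,
      Complex.add_im, normSq_apply]
    ring
  have h2 : (-(I * s) - I * (D - s) * ((1 - w) / (1 + w))).im =
      -s - (D - s) * ((1 - w) / (1 + w)).re := by
    simp only [Complex.sub_im, Complex.neg_im, Complex.mul_im, Complex.mul_re, Complex.I_re,
      Complex.I_im, Complex.ofReal_re, Complex.ofReal_im, Complex.sub_re]
    ring
  rw [h2, h1]

private theorem Poi_tan {θ : ℝ} (hc : Real.cos (θ / 2) ≠ 0) :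
    (1 - circleMap 0 1 (-θ)) / (1 + circleMap 0 1 (-θ)) = (Real.tan (θ / 2) : ℂ) * I ∧
      1 + circleMap 0 1 (-θ) ≠ 0 := by
  obtain ⟨u, hu⟩ : ∃ u : ℂ, u = (Real.cos (θ / 2) : ℂ) := ⟨_, rfl⟩
  obtain ⟨v, hv⟩ : ∃ v : ℂ, v = (Real.sin (θ / 2) : ℂ) := ⟨_, rfl⟩
  have hu0 : u ≠ 0 := by rw [hu]; exact_mod_cast hc
  have h1 : u ^ 2 + v ^ 2 = 1 := by
    rw [hu, hv, ← Complex.ofReal_pow, ← Complex.ofReal_pow, ← Complex.ofReal_add,
      Real.cos_sq_add_sin_sq, Complex.ofReal_one]
  have hI : I ^ 2 = -1 := Complex.I_sq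
  have h2 : circleMap 0 1 (-θ) = (u - v * I) ^ 2 := by
    have h3 : circleMap 0 1 (-θ) = Complex.exp (-(θ / 2 : ℝ) * I) ^ 2 := by
      rw [← Complex.exp_nat_mul]
      simp only [circleMap, zero_add, Complex.ofReal_one, one_mul]
      congr 1
      push_cast
      ring
    rw [h3]
    congr 1
    have h4 : (-((θ / 2 : ℝ) : ℂ)) * I = ((-(θ / 2) : ℝ) : ℂ) * I := by push_cast; ring
    rw [h4, Complex.exp_mul_I, ← Complex.ofReal_cos, ← Complex.ofReal_sin, Real.cos_neg,
      Real.sin_neg, hu, hv]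
    push_cast
    ring
  have h3 : 1 + circleMap 0 1 (-θ) = 2 * u * (u - v * I) := by
    rw [h2]
    linear_combination (-1 : ℂ) * h1 + v ^ 2 * hI
  have h4 : 1 - circleMap 0 1 (-θ) = 2 * v * I * (u - v * I) := by
    rw [h2]
    linear_combination (-1 : ℂ) * h1 + v ^ 2 * hI
  have h5 : u - v * I ≠ 0 := by
    intro h
    have h6 : (u - v * I) * (u + v * I) = 1 := by
      linear_combination h1 - v ^ 2 * hI
    rw [h, zero_mul] at h6
    exact zero_ne_one h6
  have h6 : (Real.tan (θ / 2) : ℂ) = v / u := by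
    rw [hu, hv, Real.tan_eq_sin_div_cos, Complex.ofReal_div]
  refine ⟨?_, ?_⟩
  · rw [h3, h4, h6]
    field_simp
  · rw [h3]
    exact mul_ne_zero (mul_ne_zero two_ne_zero hu0) h5

/-- Jensen's inequality for analytic functions on a disc -/
private theorem Poi_jensen {F : ℂ → ℂ} {M r : ℝ} (hr : 0 < r) (hM1 : 1 ≤ M)
    (hF : AnalyticOnNhd ℂ F (closedBall 0 |r|)) (h0 : F 0 ≠ 0)
    (hM : ∀ z ∈ sphere (0 : ℂ) |r|, ‖F z‖ ≤ M) :
    CircleIntegrable (fun z => Real.posLog ‖F z‖⁻¹) 0 r ∧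
      Real.circleAverage (fun z => Real.posLog ‖F z‖⁻¹) 0 r ≤ Real.log M - Real.log ‖F 0‖ := by
  have hmer : MeromorphicOn F (sphere 0 |r|) := (hF.mono sphere_subset_closedBall).meromorphicOn
  have hi1 : CircleIntegrable (fun z => Real.log ‖F z‖) 0 r := hmer.circleIntegrable_log_norm
  have hi2 : CircleIntegrable (fun z => Real.posLog ‖F z‖) 0 r := hmer.circleIntegrable_posLog_norm
  have he : (fun z => Real.posLog ‖F z‖⁻¹) = fun z => Real.posLog ‖F z‖ - Real.log ‖F z‖ := by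
    funext z
    have := Real.posLog_sub_posLog_inv (x := ‖F z‖)
    linarith
  have hi3 : CircleIntegrable (fun z => Real.posLog ‖F z‖⁻¹) 0 r := by
    rw [he]
    exact hi2.sub hi1
  refine ⟨hi3, ?_⟩
  rw [he, Real.circleAverage_fun_sub hi2 hi1]
  have h1 : Real.circleAverage (fun z => Real.posLog ‖F z‖) 0 r ≤ Real.log M := by
    refine Real.circleAverage_mono_on_of_le_circle hi2 fun z hz => ?_
    refine (Real.posLog_le_posLog (norm_nonneg _) (hM z hz)).trans ?_
    rw [Real.posLog_eq_log]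
    rw [abs_of_nonneg (by linarith)]
    exact hM1
  have h2 : Real.log ‖F 0‖ ≤ Real.circleAverage (fun z => Real.log ‖F z‖) 0 r := by
    rw [AnalyticOnNhd.circleAverage_log_norm hr.ne' hF h0]
    have h3 : 0 ≤ ∑ᶠ u, (MeromorphicOn.divisor F (closedBall 0 |r|) u : ℝ) *
        Real.log (r * ‖0 - u‖⁻¹) := by
      refine finsum_nonneg fun u => ?_
      by_cases hu : u ∈ closedBall (0 : ℂ) |r|
      · refine mul_nonneg (mod_cast MeromorphicOn.AnalyticOnNhd.divisor_nonneg hF u) ?_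
        by_cases hu0 : u = 0
        · rw [hu0]
          simp
        · refine Real.log_nonneg ?_
          rw [← div_eq_mul_inv, one_le_div (by simpa using hu0)]
          rw [mem_closedBall, dist_eq_norm, abs_of_pos hr] at hu
          rw [norm_sub_rev]
          exact hu
      · rw [Function.locallyFinsuppWithin.apply_eq_zero_of_notMem _ hu]
        simp
    linarith
  linarith

private theorem Poi_circ {g : ℂ → ℝ} {r B : ℝ} (hg : CircleIntegrable g 0 r) (h0 : ∀ z, 0 ≤ g z)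
    (hB : Real.circleAverage g 0 r ≤ B) :
    ∫⁻ θ in Ioo (-Real.pi) Real.pi, ENNReal.ofReal (g (circleMap 0 r (-θ))) ≤
      ENNReal.ofReal (2 * Real.pi * B) := by
  have hper : Function.Periodic (fun θ : ℝ => g (circleMap 0 r θ)) (2 * Real.pi) := fun θ => by
    simp only [periodic_circleMap 0 r θ]
  have hint : ∀ a b : ℝ, IntervalIntegrable (fun θ : ℝ => g (circleMap 0 r θ)) volume a b :=
    fun a b => hper.intervalIntegrable₀ Real.two_pi_pos.ne' hg a b
  have hint' : IntervalIntegrable (fun θ : ℝ => g (circleMap 0 r (-θ))) volume (-Real.pi)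
      Real.pi := by
    have h := (IntervalIntegrable.iff_comp_neg (by simp)).1 (hint Real.pi (-Real.pi))
    simpa using h
  have hle : -Real.pi ≤ Real.pi := by linarith [Real.pi_pos]
  have h1 : IntegrableOn (fun θ : ℝ => g (circleMap 0 r (-θ))) (Ioo (-Real.pi) Real.pi) :=
    ((intervalIntegrable_iff_integrableOn_Ioc_of_le hle).1 hint').mono_set Ioo_subset_Ioc_self
  rw [← ofReal_integral_eq_lintegral_ofReal h1 (Filter.Eventually.of_forall fun θ => h0 _)]
  refine ENNReal.ofReal_le_ofReal ?_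
  rw [← integral_Ioc_eq_integral_Ioo, ← intervalIntegral.integral_of_le hle,
    intervalIntegral.integral_comp_neg (fun θ : ℝ => g (circleMap 0 r θ))]
  have h2 := hper.intervalIntegral_add_eq (-Real.pi) 0
  have e1 : -Real.pi + 2 * Real.pi = Real.pi := by ring
  rw [e1, zero_add] at h2
  rw [neg_neg, h2]
  have h3 : ∫ θ in (0 : ℝ)..2 * Real.pi, g (circleMap 0 r θ) =
      2 * Real.pi * Real.circleAverage g 0 r := by
    rw [Real.circleAverage_def, smul_eq_mul, ← mul_assoc, mul_inv_cancel₀ Real.two_pi_pos.ne',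
      one_mul]
  rw [h3]
  exact mul_le_mul_of_nonneg_left hB Real.two_pi_pos.le

theorem poisson_theta {q : ℂ → ℂ} {s D M : ℝ} (hs : 0 < s) (hsD : s < D) (hM1 : 1 ≤ M)
    (hq : DifferentiableOn ℂ q {z | z.im < 0}) (hM : ∀ z : ℂ, z.im ≤ -s → ‖q z‖ ≤ M)
    (h0 : q (-((D : ℂ) * I)) ≠ 0) :
    ∫⁻ θ in Ioo (-Real.pi) Real.pi,
      ENNReal.ofReal (Real.posLog ‖q ((((D - s) * Real.tan (θ / 2) : ℝ) : ℂ) - (s : ℂ) * I)‖⁻¹)
      ≤ ENNReal.ofReal (2 * Real.pi * (Real.log M - Real.log ‖q (-((D : ℂ) * I))‖)) := by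
  obtain ⟨φ, hφ⟩ : ∃ φ : ℂ → ℂ, φ = fun w => -(I * s) - I * (D - s) * ((1 - w) / (1 + w)) :=
    ⟨_, rfl⟩
  have hUo : IsOpen {z : ℂ | z.im < 0} := isOpen_lt Complex.continuous_im continuous_const
  have hne : ∀ w : ℂ, ‖w‖ < 1 → 1 + w ≠ 0 := by
    intro w hw h
    have h1 : w = -1 := by linear_combination h
    rw [h1, norm_neg, norm_one] at hw
    exact lt_irrefl _ hw
  have him : ∀ w : ℂ, ‖w‖ < 1 → (φ w).im ≤ -s := by
    intro w hw
    rw [hφ]
    have h1 := Poi_im s D w
    have h2 : 0 ≤ (1 - normSq w) / normSq (1 + w) := by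
      refine div_nonneg ?_ (normSq_nonneg _)
      rw [Complex.normSq_eq_norm_sq]
      have := norm_nonneg w
      nlinarith
    have h3 : 0 ≤ (D - s) * ((1 - normSq w) / normSq (1 + w)) :=
      mul_nonneg (by linarith) h2
    change (-(I * s) - I * (D - s) * ((1 - w) / (1 + w))).im ≤ -s
    rw [h1]
    linarith
  have hφd : ∀ w : ℂ, 1 + w ≠ 0 → DifferentiableAt ℂ φ w := by
    intro w hw
    rw [hφ]
    fun_prop (disch := exact hw)
  have hφ0 : φ 0 = -((D : ℂ) * I) := by
    rw [hφ]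
    simp only [sub_zero, add_zero, div_one, mul_one]
    ring
  have hF : DifferentiableOn ℂ (fun w => q (φ w)) (ball 0 1) := by
    intro w hw
    rw [mem_ball_zero_iff] at hw
    have h1 : φ w ∈ {z : ℂ | z.im < 0} := by
      have := him w hw
      change (φ w).im < 0
      linarith
    exact ((hq.differentiableAt (hUo.mem_nhds h1)).comp w (hφd w (hne w hw))).differentiableWithinAt
  have hFa : AnalyticOnNhd ℂ (fun w => q (φ w)) (ball 0 1) := hF.analyticOnNhd isOpen_ball
  -- the radii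
  obtain ⟨r, hr⟩ : ∃ r : ℕ → ℝ, r = fun n : ℕ => 1 - 1 / ((n : ℝ) + 2) :=
    ⟨_, rfl⟩
  have hr0 : ∀ n, 0 < r n ∧ r n < 1 := by
    intro n
    have h1 : (0 : ℝ) < (n : ℝ) + 2 := by positivity
    have h2 : 1 / ((n : ℝ) + 2) < 1 := by
      rw [div_lt_one h1]
      have : (0 : ℝ) ≤ n := by positivity
      linarith
    have h3 : 0 < 1 / ((n : ℝ) + 2) := by positivity
    rw [hr]
    constructor
    · change 0 < 1 - 1 / ((n : ℝ) + 2)
      linarith
    · change 1 - 1 / ((n : ℝ) + 2) < 1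
      linarith
  have hrlim : Filter.Tendsto r Filter.atTop (nhds 1) := by
    rw [hr]
    have h1 : Filter.Tendsto (fun n : ℕ => 1 / ((n : ℝ) + 2)) Filter.atTop (nhds 0) := by
      have h2 : Filter.Tendsto (fun n : ℕ => (n : ℝ) + 2) Filter.atTop Filter.atTop :=
        Filter.tendsto_atTop_add_const_right _ _ tendsto_natCast_atTop_atTop
      exact (tendsto_const_nhds (x := (1 : ℝ))).div_atTop h2
    simpa using (tendsto_const_nhds (x := (1 : ℝ))).sub h1
  have hcb : ∀ n, closedBall (0 : ℂ) |r n| ⊆ ball 0 1 := fun n => by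
    rw [abs_of_pos (hr0 n).1]
    exact closedBall_subset_ball (hr0 n).2
  have hstep : ∀ n, ∫⁻ θ in Ioo (-Real.pi) Real.pi,
      ENNReal.ofReal (Real.posLog ‖q (φ (circleMap 0 (r n) (-θ)))‖⁻¹) ≤
        ENNReal.ofReal (2 * Real.pi * (Real.log M - Real.log ‖q (-((D : ℂ) * I))‖)) := by
    intro n
    have h1 := Poi_jensen (F := fun w => q (φ w)) (M := M) (hr0 n).1 hM1 (hFa.mono (hcb n))
      (by rw [hφ0]; exact h0) (by
        intro z hz
        have h2 := hcb n (sphere_subset_closedBall hz)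
        rw [mem_ball_zero_iff] at h2
        exact hM _ (him z h2))
    rw [hφ0] at h1
    exact Poi_circ h1.1 (fun z => Real.posLog_nonneg) h1.2
  have hmeas : ∀ n, Measurable fun θ : ℝ =>
      ENNReal.ofReal (Real.posLog ‖q (φ (circleMap 0 (r n) (-θ)))‖⁻¹) := by
    intro n
    have h1 : Continuous fun θ : ℝ => q (φ (circleMap 0 (r n) (-θ))) := by
      refine hF.continuousOn.comp_continuous (f := fun θ : ℝ => circleMap 0 (r n) (-θ)) ?_ ?_
      · exact (continuous_circleMap 0 (r n)).comp continuous_neg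
      · intro θ
        refine hcb n (sphere_subset_closedBall ?_)
        exact circleMap_mem_sphere' 0 (r n) (-θ)
    exact ENNReal.measurable_ofReal.comp
      (Real.continuous_posLog.measurable.comp h1.norm.measurable.inv)
  -- Fatou
  have hfat := lintegral_liminf_le (μ := volume.restrict (Ioo (-Real.pi) Real.pi))
    (u := Filter.atTop) hmeas
  have hlim : Filter.liminf (fun n => ∫⁻ θ in Ioo (-Real.pi) Real.pi,
      ENNReal.ofReal (Real.posLog ‖q (φ (circleMap 0 (r n) (-θ)))‖⁻¹)) Filter.atTop ≤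
        ENNReal.ofReal (2 * Real.pi * (Real.log M - Real.log ‖q (-((D : ℂ) * I))‖)) := by
    refine Filter.liminf_le_of_le (by isBoundedDefault) fun b hb => ?_
    obtain ⟨n, hn⟩ := hb.exists
    exact hn.trans (hstep n)
  refine le_trans ?_ (hfat.trans hlim)
  refine setLIntegral_mono' measurableSet_Ioo fun θ hθ => ?_
  have hc : Real.cos (θ / 2) ≠ 0 := by
    refine (Real.cos_pos_of_mem_Ioo ⟨?_, ?_⟩).ne'
    · have := hθ.1
      linarith
    · have := hθ.2
      linarith
  obtain ⟨ht1, ht2⟩ := Poi_tan hc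
  obtain ⟨z, hz⟩ : ∃ z : ℂ, z = (((D - s) * Real.tan (θ / 2) : ℝ) : ℂ) - (s : ℂ) * I := ⟨_, rfl⟩
  rw [← hz]
  have hφz : φ (circleMap 0 1 (-θ)) = z := by
    rw [hφ, hz]
    change -(I * s) - I * (D - s) * ((1 - circleMap 0 1 (-θ)) / (1 + circleMap 0 1 (-θ))) = _
    rw [ht1, Complex.ofReal_mul, Complex.ofReal_sub]
    linear_combination (-(D - s) * (Real.tan (θ / 2) : ℂ)) * Complex.I_sq
  by_cases hqz : q z = 0
  · rw [hqz]
    simp
  · have hzim : z ∈ {z : ℂ | z.im < 0} := by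
      rw [hz]
      change ((((D - s) * Real.tan (θ / 2) : ℝ) : ℂ) - (s : ℂ) * I).im < 0
      simp only [Complex.sub_im, Complex.ofReal_im, Complex.mul_im, Complex.ofReal_re,
        Complex.I_im, Complex.I_re]
      linarith
    have hcont : ContinuousAt (fun w => ENNReal.ofReal (Real.posLog ‖q (φ w)‖⁻¹))
        (circleMap 0 1 (-θ)) := by
      have h1 : ContinuousAt φ (circleMap 0 1 (-θ)) := (hφd _ ht2).continuousAt
      have h2 : ContinuousAt q (φ (circleMap 0 1 (-θ))) := by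
        rw [hφz]
        exact (hq.differentiableAt (hUo.mem_nhds hzim)).continuousAt
      have h3 : ContinuousAt (fun w => q (φ w)) (circleMap 0 1 (-θ)) := h2.comp h1
      have h4 : ContinuousAt (fun w => ‖q (φ w)‖⁻¹) (circleMap 0 1 (-θ)) := by
        refine h3.norm.inv₀ ?_
        rw [hφz]
        exact norm_ne_zero_iff.2 hqz
      exact ENNReal.continuous_ofReal.continuousAt.comp
        (Real.continuous_posLog.continuousAt.comp h4)
    have hseq : Filter.Tendsto (fun n => circleMap 0 (r n) (-θ)) Filter.atTop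
        (nhds (circleMap 0 1 (-θ))) := by
      simp only [circleMap, zero_add]
      have h1 : Filter.Tendsto (fun n => ((r n : ℝ) : ℂ)) Filter.atTop (nhds ((1 : ℝ) : ℂ)) :=
        (Complex.continuous_ofReal.tendsto 1).comp hrlim
      exact h1.mul_const _
    have hlim2 : Filter.Tendsto (fun n =>
        ENNReal.ofReal (Real.posLog ‖q (φ (circleMap 0 (r n) (-θ)))‖⁻¹)) Filter.atTop
        (nhds (ENNReal.ofReal (Real.posLog ‖q z‖⁻¹))) := by
      have := hcont.tendsto.comp hseq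
      rw [hφz] at this
      exact this
    rw [hlim2.liminf_eq]

end MP_ae5b4e_LD
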