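import Pool.Agent.Lib.MP_ae5b4e_an_LD.Poi

/-! LEMMA D (density), module PoiX: Poisson inequality on a segment of a horizontal line.

`poisson_x`: `∫_{-D}^{D} log⁺ (‖q (x - i s)‖⁻¹) dx ≤ 4 π D (log M - log ‖q (-iD)‖)` if `0 < s ≤ D/2`.

PROOF. Change of variables `θ = f x = 2 arctan (x / (D - s))` in `poisson_theta`
(`MeasureTheory.lintegral_image_eq_lintegral_abs_deriv_mul` on `Ioo (-D) D`, `f` is injective, its image
is contained in `Ioo (-π) π`, `(D - s) tan (f x / 2) = x`),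
`f' x = 2 (D - s) / ((D - s)² + x²) ≥ 2 (D/2) / (D² + D²) = 1/(2D)`. So
`(1/(2D)) ∫_{-D}^{D} log⁺ .. dx ≤ ∫_{-π}^{π} log⁺ .. dθ ≤ 2 π (..)`. -/

open Complex Metric Set MeasureTheory

namespace MP_ae5b4e_LD

theorem poisson_x {q : ℂ → ℂ} {s D M : ℝ} (hs : 0 < s) (hsD : s ≤ D / 2) (hM1 : 1 ≤ M)
    (hq : DifferentiableOn ℂ q {z | z.im < 0}) (hM : ∀ z : ℂ, z.im ≤ -s → ‖q z‖ ≤ M)
    (h0 : q (-((D : ℂ) * I)) ≠ 0) :
    ∫⁻ x in Ioo (-D) D, ENNReal.ofReal (Real.posLog ‖q ((x : ℂ) - (s : ℂ) * I)‖⁻¹)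
      ≤ ENNReal.ofReal (4 * Real.pi * D * (Real.log M - Real.log ‖q (-((D : ℂ) * I))‖)) := by
  have hD : 0 < D := by linarith
  have hDs : 0 < D - s := by linarith
  have hsD' : s < D := by linarith
  set L : ℝ := Real.log M - Real.log ‖q (-((D : ℂ) * I))‖ with hL
  let f : ℝ → ℝ := fun x => 2 * Real.arctan (x / (D - s))
  let f' : ℝ → ℝ := fun x => 2 * (1 / (1 + (x / (D - s)) ^ 2) * (1 / (D - s)))
  let g : ℝ → ENNReal := fun θ =>
    ENNReal.ofReal (Real.posLog ‖q ((((D - s) * Real.tan (θ / 2) : ℝ) : ℂ) - (s : ℂ) * I)‖⁻¹)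
  have hf' : ∀ x ∈ Ioo (-D) D, HasDerivWithinAt f (f' x) (Ioo (-D) D) x := by
    intro x _
    have h1 : HasDerivAt (fun x : ℝ => x / (D - s)) (1 / (D - s)) x := by
      simpa using (hasDerivAt_id x).div_const (D - s)
    exact ((h1.arctan).const_mul 2).hasDerivWithinAt
  have hinj : InjOn f (Ioo (-D) D) := by
    intro x _ y _ hxy
    have h1 : Real.arctan (x / (D - s)) = Real.arctan (y / (D - s)) := by
      have : 2 * Real.arctan (x / (D - s)) = 2 * Real.arctan (y / (D - s)) := hxy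
      linarith
    have h2 := Real.arctan_injective h1
    rwa [div_left_inj' hDs.ne'] at h2
  have hcv := lintegral_image_eq_lintegral_abs_deriv_mul measurableSet_Ioo hf' hinj g
  have himg : f '' (Ioo (-D) D) ⊆ Ioo (-Real.pi) Real.pi := by
    rintro _ ⟨x, _, rfl⟩
    have h1 := Real.neg_pi_div_two_lt_arctan (x / (D - s))
    have h2 := Real.arctan_lt_pi_div_two (x / (D - s))
    constructor
    · change -Real.pi < 2 * Real.arctan (x / (D - s))
      linarith
    · change 2 * Real.arctan (x / (D - s)) < Real.pi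
      linarith
  have hgf : ∀ x, g (f x) = ENNReal.ofReal (Real.posLog ‖q ((x : ℂ) - (s : ℂ) * I)‖⁻¹) := by
    intro x
    have h1 : (D - s) * Real.tan (f x / 2) = x := by
      have h2 : f x / 2 = Real.arctan (x / (D - s)) := by
        change 2 * Real.arctan (x / (D - s)) / 2 = _
        ring
      rw [h2, Real.tan_arctan, mul_div_cancel₀ _ hDs.ne']
    change ENNReal.ofReal (Real.posLog
      ‖q ((((D - s) * Real.tan (f x / 2) : ℝ) : ℂ) - (s : ℂ) * I)‖⁻¹) = _
    rw [h1]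
  have hlow : ∀ x ∈ Ioo (-D) D, 1 / (2 * D) ≤ |f' x| := by
    intro x hx
    have hx2 : x ^ 2 ≤ D ^ 2 := sq_le_sq' hx.1.le hx.2.le
    have h1 : f' x = 2 * (D - s) / ((D - s) ^ 2 + x ^ 2) := by
      change 2 * (1 / (1 + (x / (D - s)) ^ 2) * (1 / (D - s))) = _
      have h3 : (D - s) ^ 2 + x ^ 2 ≠ 0 := by positivity
      field_simp
    have h2 : 0 < (D - s) ^ 2 + x ^ 2 := by positivity
    rw [h1, abs_of_pos (by positivity), div_le_div_iff₀ (by positivity) h2]
    nlinarith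
  have h1 : ENNReal.ofReal (1 / (2 * D)) *
      ∫⁻ x in Ioo (-D) D, ENNReal.ofReal (Real.posLog ‖q ((x : ℂ) - (s : ℂ) * I)‖⁻¹) ≤
      ENNReal.ofReal (2 * Real.pi * L) := by
    rw [← lintegral_const_mul' _ _ ENNReal.ofReal_ne_top]
    calc ∫⁻ x in Ioo (-D) D, ENNReal.ofReal (1 / (2 * D)) *
          ENNReal.ofReal (Real.posLog ‖q ((x : ℂ) - (s : ℂ) * I)‖⁻¹)
        ≤ ∫⁻ x in Ioo (-D) D, ENNReal.ofReal (|f' x|) * g (f x) := by
          refine setLIntegral_mono' measurableSet_Ioo fun x hx => ?_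
          rw [hgf x]
          gcongr
          exact hlow x hx
      _ = ∫⁻ x in f '' (Ioo (-D) D), g x := hcv.symm
      _ ≤ ∫⁻ x in Ioo (-Real.pi) Real.pi, g x := lintegral_mono_set himg
      _ ≤ _ := poisson_theta hs hsD' hM1 hq hM h0
  have h2 : ENNReal.ofReal (2 * D) * ENNReal.ofReal (1 / (2 * D)) = 1 := by
    rw [← ENNReal.ofReal_mul (by positivity), mul_one_div, div_self (by positivity),
      ENNReal.ofReal_one]
  have h3 : ENNReal.ofReal (4 * Real.pi * D * L) =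
      ENNReal.ofReal (2 * D) * ENNReal.ofReal (2 * Real.pi * L) := by
    rw [← ENNReal.ofReal_mul (by positivity)]
    congr 1
    ring
  rw [h3]
  calc ∫⁻ x in Ioo (-D) D, ENNReal.ofReal (Real.posLog ‖q ((x : ℂ) - (s : ℂ) * I)‖⁻¹)
      = ENNReal.ofReal (2 * D) * (ENNReal.ofReal (1 / (2 * D)) *
        ∫⁻ x in Ioo (-D) D, ENNReal.ofReal (Real.posLog ‖q ((x : ℂ) - (s : ℂ) * I)‖⁻¹)) := by
        rw [← mul_assoc, h2, one_mul]
    _ ≤ _ := by gcongr

/-- The zeros of `q` on a horizontal line form a null set (they are countable: `q` is analytic on the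
half plane and not identically zero). -/
theorem null_zeros {q : ℂ → ℂ} {s : ℝ} {p : ℂ} (hs : 0 < s)
    (hq : DifferentiableOn ℂ q {z | z.im < 0}) (hp : p.im < 0) (h0 : q p ≠ 0) :
    volume {x : ℝ | q ((x : ℂ) - (s : ℂ) * I) = 0} = 0 := by
  have hU : IsOpen {z : ℂ | z.im < 0} := isOpen_lt Complex.continuous_im continuous_const
  have hconv : Convex ℝ {z : ℂ | z.im < 0} := by
    have h1 : {z : ℂ | z.im < 0} = Complex.imLm ⁻¹' (Iio 0) := by
      ext z
      rfl
    rw [h1]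
    exact (convex_Iio 0).linear_preimage _
  have hana : AnalyticOnNhd ℂ q {z : ℂ | z.im < 0} := hq.analyticOnNhd hU
  have hcod := (hana.eqOn_zero_or_eventually_ne_zero_of_preconnected
    hconv.isPreconnected).resolve_left fun h => h0 (h hp)
  have hdis : DiscreteTopology ↑({z : ℂ | q z = 0} ∩ {z : ℂ | z.im < 0}) :=
    isDiscrete_iff_discreteTopology.mp (isDiscrete_of_codiscreteWithin hcod)
  have hcount : Countable ↑({z : ℂ | q z = 0} ∩ {z : ℂ | z.im < 0}) :=
    TopologicalSpace.separableSpace_iff_countable.1 inferInstance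
  have h2 : {x : ℝ | q ((x : ℂ) - (s : ℂ) * I) = 0} =
      (fun x : ℝ => (x : ℂ) - (s : ℂ) * I) ⁻¹' ({z : ℂ | q z = 0} ∩ {z : ℂ | z.im < 0}) := by
    ext x
    simp only [mem_setOf_eq, mem_preimage, mem_inter_iff]
    refine ⟨fun h => ⟨h, ?_⟩, fun h => h.1⟩
    simpa using hs
  rw [h2]
  refine Set.Countable.measure_zero (Set.Countable.preimage_of_injOn
    (Set.countable_coe_iff.1 hcount) fun x _ y _ hxy => ?_) _
  have h3 : (x : ℂ) = (y : ℂ) := sub_left_injective hxy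
  exact_mod_cast h3

end MP_ae5b4e_LD
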