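import Pool.Agent.Lib.MP_ae5b4e_an_LD.GMeas
import Pool.Agent.Lib.MP_ae5b4e_an_LD.Area
import Pool.Agent.Lib.MP_ae5b4e_an_LD.Int1

/-! THEOREM B', module Tube1: area estimate at a fixed time `t`.

`tube_fixed`. PROOF. Put `x_j = j (2X+3)`, `A_j = Ereg ∩ bx X C5 x_j`, `Φ = tr q · t`. By `area`
(`tr_deriv`, `tr_inj`, `ereg_meas`) with `g z = ofReal (4 ‖q z‖) * indicator` the `j`-th term is
`∫⁻_{z ∈ Φ '' A_j, |Re z - x_j| ≤ R} ofReal (4 ‖q z‖)`. The `A_j` are pairwise disjoint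
(`|x_i - x_j| ≥ 2X + 3`), so the images are disjoint (`tr_inj` on `Ereg`) and measurable
(`MeasurableSet.image_of_continuousOn_injOn`). For `z ∈ Φ '' A_j`: `Im z < -d0`,
`‖q z‖ < kap e^{-2t}` (`tr_facts`), `‖q z‖ ≤ C / (Im z)^2` (`DeepBd`), and `-R ≤ Re z ≤ 2R` because
`0 ≤ x_j ≤ R`. So the sum is `≤ 4 ∫⁻ over {-R ≤ Re ≤ 2R, Im < -d0} of ofReal (min (C/(Im z)^2) (kap e^{-2t}))
≤ 4 * 3R * 2 sqrt (C kap e^{-2t}) = 24 R sqrt (C kap) e^{-t}` (`int_strip`). -/

open Complex Set Filter PorTR MeasureTheory Topology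
open scoped ENNReal

namespace MP_ae5b4e_LD

private theorem Tube1_meas (s t : ℝ) (X C5 x : ℝ) : MeasurableSet (bx X C5 x) ∧
    MeasurableSet {z : ℂ | s ≤ z.re ∧ z.re ≤ t ∧ z.im < C5} := by
  constructor
  · have h1 : IsOpen (bx X C5 x) := by
      have e : bx X C5 x = {P : ℂ | |P.re - x| < X} ∩ {P : ℂ | -P.im < C5} := rfl
      rw [e]
      refine IsOpen.inter (isOpen_lt ?_ continuous_const) (isOpen_lt ?_ continuous_const)
      · exact (Complex.continuous_re.sub continuous_const).abs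
      · exact Complex.continuous_im.neg
    exact h1.measurableSet
  · have e : {z : ℂ | s ≤ z.re ∧ z.re ≤ t ∧ z.im < C5} =
        {z : ℂ | s ≤ z.re} ∩ ({z : ℂ | z.re ≤ t} ∩ {z : ℂ | z.im < C5}) := rfl
    rw [e]
    refine MeasurableSet.inter ?_ (MeasurableSet.inter ?_ ?_)
    · exact (isClosed_le continuous_const Complex.continuous_re).measurableSet
    · exact (isClosed_le Complex.continuous_re continuous_const).measurableSet
    · exact (isOpen_lt Complex.continuous_im continuous_const).measurableSet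

private theorem Tube1_sep {X : ℝ} (hX : 0 ≤ X) {i j : ℕ} (hij : i ≠ j) :
    2 * X < |(i : ℝ) * (2 * X + 3) - (j : ℝ) * (2 * X + 3)| := by
  have h1 : (1 : ℝ) ≤ |(i : ℝ) - j| := by
    have h2 : (1 : ℤ) ≤ |(i : ℤ) - j| := by
      exact Int.one_le_abs (sub_ne_zero.2 (by exact_mod_cast hij))
    exact_mod_cast h2
  rw [← sub_mul, abs_mul, abs_of_nonneg (by positivity : (0 : ℝ) ≤ 2 * X + 3)]
  nlinarith

theorem tube_fixed {W : Set (ℂ → ℂ)} {C d0 Ce kap : ℝ} (F : Fam W C d0 Ce kap)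
    (hbd : DeepBd W C d0) {q : ℂ → ℂ} (hq : q ∈ W) {X C5 R t : ℝ} (hX : 0 ≤ X) (J : ℕ)
    (hJR : (J : ℝ) * (2 * X + 3) ≤ R) (ht : 0 < t) :
    ∑ j ∈ Finset.range J, ∫⁻ P in Ereg q d0 kap ∩ bx X C5 ((j : ℝ) * (2 * X + 3)),
        ENNReal.ofReal (4 * ‖q (tr q P t)‖ * ‖dtr q P t‖ ^ 2) *
          {z : ℂ | |z.re - (j : ℝ) * (2 * X + 3)| ≤ R}.indicator 1 (tr q P t)
      ≤ ENNReal.ofReal (24 * R * Real.sqrt (C * kap) * Real.exp (-t)) := by
  have hC := F.C_pos
  have hd := F.d0_pos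
  have hk := F.kap_pos
  have hR : 0 ≤ R := le_trans (by positivity) hJR
  obtain ⟨a, ha⟩ : ∃ a, a = kap * Real.exp (-2 * t) := ⟨_, rfl⟩
  have ha0 : 0 < a := by
    rw [ha]
    positivity
  obtain ⟨x, hx⟩ : ∃ x : ℕ → ℝ, ∀ j : ℕ, x j = (j : ℝ) * (2 * X + 3) := ⟨_, fun _ => rfl⟩
  obtain ⟨A, hA⟩ : ∃ A : ℕ → Set ℂ, ∀ j, A j = Ereg q d0 kap ∩ bx X C5 (x j) :=
    ⟨_, fun _ => rfl⟩
  obtain ⟨S, hS⟩ : ∃ S : Set ℂ, S = {z : ℂ | -R ≤ z.re ∧ z.re ≤ 2 * R ∧ z.im < -d0} :=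
    ⟨_, rfl⟩
  obtain ⟨G, hG⟩ : ∃ G : ℂ → ℝ≥0∞, G = S.indicator
    (fun z => ENNReal.ofReal (4 * min (C / z.im ^ 2) a)) := ⟨_, rfl⟩
  have hSm : MeasurableSet S := by
    rw [hS]
    exact (Tube1_meas (-R) (2 * R) 0 (-d0) 0).2
  have hAE : ∀ j, A j ⊆ Ereg q d0 kap := fun j => by
    rw [hA]
    exact inter_subset_left
  have hAm : ∀ j, MeasurableSet (A j) := fun j => by
    rw [hA]
    exact (ereg_meas F hq).inter (Tube1_meas 0 0 X C5 (x j)).1
  have hinj : InjOn (fun P => tr q P t) (Ereg q d0 kap) := tr_inj F hq ht.le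
  have hcont : ContinuousOn (fun P => tr q P t) (Ereg q d0 kap) := by
    have h1 : ContinuousOn (fun P : ℂ => ((P, t) : ℂ × ℝ)) (Ereg q d0 kap) := by fun_prop
    exact (tr_cont F hbd hq).comp h1 fun P hP => ⟨hP, ht.le⟩
  have hIm : ∀ j, MeasurableSet ((fun P => tr q P t) '' A j) := fun j =>
    (hAm j).image_of_continuousOn_injOn (hcont.mono (hAE j)) (hinj.mono (hAE j))
  -- change of variables
  have hterm : ∀ j : ℕ, ∫⁻ P in Ereg q d0 kap ∩ bx X C5 ((j : ℝ) * (2 * X + 3)),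
        ENNReal.ofReal (4 * ‖q (tr q P t)‖ * ‖dtr q P t‖ ^ 2) *
          {z : ℂ | |z.re - (j : ℝ) * (2 * X + 3)| ≤ R}.indicator 1 (tr q P t) =
      ∫⁻ z in (fun P => tr q P t) '' A j, ENNReal.ofReal (4 * ‖q z‖) *
        {z : ℂ | |z.re - x j| ≤ R}.indicator 1 z := by
    intro j
    rw [area (hAm j) (f' := fun P => dtr q P t)
      (fun P hP => (tr_deriv F hbd hq (hAE j hP) ht.le).mono (hAE j)) (hinj.mono (hAE j))
      (fun z => ENNReal.ofReal (4 * ‖q z‖) * {z : ℂ | |z.re - x j| ≤ R}.indicator 1 z), hA, hx]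
    refine lintegral_congr fun P => ?_
    rw [← mul_assoc, ← ENNReal.ofReal_mul (by positivity)]
    congr 2
    ring
  -- pointwise bound
  have hpt : ∀ j ∈ Finset.range J, ∀ z ∈ (fun P => tr q P t) '' A j,
      ENNReal.ofReal (4 * ‖q z‖) * {z : ℂ | |z.re - x j| ≤ R}.indicator 1 z ≤ G z := by
    rintro j hj _ ⟨P, hP, rfl⟩
    have hxj0 : 0 ≤ x j := by
      rw [hx]
      positivity
    have hxjR : x j ≤ R := by
      rw [hx]
      refine le_trans (mul_le_mul_of_nonneg_right ?_ (by positivity)) hJR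
      exact_mod_cast (Finset.mem_range.1 hj).le
    obtain ⟨h1, -, h3, -⟩ := tr_facts F hq (hAE j hP) ht.le
    by_cases hz : |(tr q P t).re - x j| ≤ R
    · have hzS : tr q P t ∈ S := by
        rw [hS]
        have h4 := abs_le.1 hz
        exact ⟨by linarith, by linarith, h1⟩
      show ENNReal.ofReal (4 * ‖q (tr q P t)‖) *
        {z : ℂ | |z.re - x j| ≤ R}.indicator 1 (tr q P t) ≤ G (tr q P t)
      rw [hG, indicator_of_mem hzS, indicator_of_mem (by exact hz), Pi.one_apply, mul_one]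
      refine ENNReal.ofReal_le_ofReal (mul_le_mul_of_nonneg_left (le_min ?_ ?_) (by norm_num))
      · exact hbd q hq _ h1.le
      · rw [ha]
        exact h3.le
    · show ENNReal.ofReal (4 * ‖q (tr q P t)‖) *
        {z : ℂ | |z.re - x j| ≤ R}.indicator 1 (tr q P t) ≤ G (tr q P t)
      rw [indicator_of_notMem (by exact hz), mul_zero]
      exact zero_le
  -- disjointness
  have hdis : (Finset.range J : Set ℕ).PairwiseDisjoint (fun j => (fun P => tr q P t) '' A j) := by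
    intro i _ j _ hij
    show Disjoint ((fun P => tr q P t) '' A i) ((fun P => tr q P t) '' A j)
    rw [Set.disjoint_left]
    rintro _ ⟨P, hP, rfl⟩ ⟨P', hP', hPP⟩
    have h1 : P' = P := hinj (hAE j hP') (hAE i hP) hPP
    subst h1
    rw [hA] at hP hP'
    have h2 : |P'.re - x i| < X := hP.2.1
    have h3 : |P'.re - x j| < X := hP'.2.1
    have h4 := Tube1_sep hX hij
    rw [← hx, ← hx] at h4
    have h5 := abs_sub_le (x i) P'.re (x j)
    rw [abs_sub_comm (x i) P'.re] at h5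
    linarith
  calc ∑ j ∈ Finset.range J, ∫⁻ P in Ereg q d0 kap ∩ bx X C5 ((j : ℝ) * (2 * X + 3)),
        ENNReal.ofReal (4 * ‖q (tr q P t)‖ * ‖dtr q P t‖ ^ 2) *
          {z : ℂ | |z.re - (j : ℝ) * (2 * X + 3)| ≤ R}.indicator 1 (tr q P t)
      = ∑ j ∈ Finset.range J, ∫⁻ z in (fun P => tr q P t) '' A j, ENNReal.ofReal (4 * ‖q z‖) *
        {z : ℂ | |z.re - x j| ≤ R}.indicator 1 z := Finset.sum_congr rfl fun j _ => hterm j
    _ ≤ ∑ j ∈ Finset.range J, ∫⁻ z in (fun P => tr q P t) '' A j, G z :=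
        Finset.sum_le_sum fun j hj => setLIntegral_mono' (hIm j) (hpt j hj)
    _ = ∫⁻ z in ⋃ j ∈ Finset.range J, (fun P => tr q P t) '' A j, G z :=
        (lintegral_biUnion_finset hdis (fun j _ => hIm j) G).symm
    _ ≤ ∫⁻ z, G z := setLIntegral_le_lintegral _ _
    _ = ∫⁻ z in S, ENNReal.ofReal (4 * min (C / z.im ^ 2) a) := by
        rw [hG, lintegral_indicator hSm]
    _ = ∫⁻ z in S, 4 * ENNReal.ofReal (min (C / z.im ^ 2) a) := by
        refine lintegral_congr fun z => ?_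
        rw [ENNReal.ofReal_mul (by norm_num), ENNReal.ofReal_ofNat]
    _ = 4 * ∫⁻ z in S, ENNReal.ofReal (min (C / z.im ^ 2) a) := by
        rw [lintegral_const_mul']
        exact ENNReal.ofNat_ne_top
    _ ≤ 4 * ENNReal.ofReal ((2 * R - -R) * (2 * Real.sqrt (C * a))) := by
        rw [hS]
        exact mul_le_mul_right (int_strip hC ha0 hd (by linarith)) 4
    _ = ENNReal.ofReal (24 * R * Real.sqrt (C * kap) * Real.exp (-t)) := by
        have h1 : Real.sqrt (C * a) = Real.sqrt (C * kap) * Real.exp (-t) := by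
          have h2 : C * a = C * kap * Real.exp (-t) ^ 2 := by
            rw [ha, ← Real.exp_nat_mul]
            have h3 : -2 * t = ((2 : ℕ) : ℝ) * -t := by
              push_cast
              ring
            rw [h3]
            ring
          rw [h2, Real.sqrt_mul (by positivity), Real.sqrt_sq (Real.exp_pos _).le]
        rw [h1, ← ENNReal.ofReal_ofNat (n := 4), ← ENNReal.ofReal_mul (by norm_num)]
        congr 1
        norm_num
        ring

end MP_ae5b4e_LD
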