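import Pool.Agent.Lib.MP_ae5b4e_an_LD.Tube1

/-! THEOREM B', module Tube2: the total energy of all the boxes.

`en_eq`. PROOF. `|l'|^2 w = (4 ‖q(z)‖² / ‖q'(z)‖²) ‖q'(P)‖² / ‖q P‖`, `z = tr q P t`,
`‖dtr‖ = ‖q'(P)‖ e^{-2t} / ‖q'(z)‖`, `‖q z‖ = ‖q P‖ e^{-2t}`: so
`e^{-2t} |l'|^2 w = 4 e^{-2t} ‖q z‖² e^{4t} ‖dtr‖² / ‖q P‖ = 4 ‖q z‖ ‖dtr‖²`.

`tube_sum`. PROOF. Tonelli (`lintegral_lintegral_swap` with `enR_meas`), `en_eq` and `tube_fixed`:
`∑ ≤ ∫⁻_{t > 0} ofReal ((1+t)^4) * ofReal (24 R sqrt (C kap) e^{-t}) ≤ 24 * 65 R sqrt (C kap)`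
(`int_exp`); `24 * 65 = 1560`. -/

open Complex Set Filter PorTR MeasureTheory Topology
open scoped ENNReal

namespace MP_ae5b4e_LD

theorem en_eq {W : Set (ℂ → ℂ)} {C d0 Ce kap : ℝ} (F : Fam W C d0 Ce kap)
    {q : ℂ → ℂ} (hq : q ∈ W) {P : ℂ} (hP : P ∈ Ereg q d0 kap) {t : ℝ} (ht : 0 ≤ t) :
    en q P t = ENNReal.ofReal ((1 + t) ^ 4) *
      ENNReal.ofReal (4 * ‖q (tr q P t)‖ * ‖dtr q P t‖ ^ 2) := by
  obtain ⟨-, h2, -, h4⟩ := tr_facts F hq hP ht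
  have hA : 0 < ‖q P‖ := norm_pos_iff.2 hP.2.1
  have hD : 0 < ‖deriv q (tr q P t)‖ := norm_pos_iff.2 h4
  unfold en
  rw [← ENNReal.ofReal_mul (by positivity)]
  congr 1
  have h5 : ‖dtr q P t‖ = ‖deriv q P‖ * Real.exp (-2 * t) / ‖deriv q (tr q P t)‖ := by
    rw [dtr, norm_div, norm_mul, norm_real, Real.norm_of_nonneg (Real.exp_pos _).le]
  unfold vel wt
  rw [h5, h2]
  field_simp
  ring

private theorem Tube2_sum {α ι : Type*} [MeasurableSpace α] (μ : Measure α) (s : Finset ι)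
    (f : ι → α → ℝ≥0∞) : ∑ j ∈ s, ∫⁻ a, f j a ∂μ ≤ ∫⁻ a, ∑ j ∈ s, f j a ∂μ := by
  classical
  induction s using Finset.induction_on with
  | empty => simp
  | insert j s hj ih =>
    rw [Finset.sum_insert hj]
    have h1 : ∀ a, ∑ i ∈ insert j s, f i a = f j a + ∑ i ∈ s, f i a := fun a =>
      Finset.sum_insert hj
    simp only [h1]
    exact (add_le_add_right ih _).trans (le_lintegral_add _ _)

theorem tube_sum {W : Set (ℂ → ℂ)} {C d0 Ce kap : ℝ} (F : Fam W C d0 Ce kap)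
    (hbd : DeepBd W C d0) {q : ℂ → ℂ} (hq : q ∈ W) {X C5 R : ℝ} (hX : 0 ≤ X) (J : ℕ)
    (hJR : (J : ℝ) * (2 * X + 3) ≤ R) :
    ∑ j ∈ Finset.range J, ∫⁻ P in Ereg q d0 kap ∩ bx X C5 ((j : ℝ) * (2 * X + 3)),
        ∫⁻ t in Ioi (0 : ℝ), enR q R ((j : ℝ) * (2 * X + 3)) P t
      ≤ ENNReal.ofReal (1560 * R * Real.sqrt (C * kap)) := by
  have hR : 0 ≤ R := le_trans (by positivity) hJR
  have hb : ∀ x : ℝ, MeasurableSet (bx X C5 x) := fun x => by
    have h1 : IsOpen {P : ℂ | |P.re - x| < X} :=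
      isOpen_lt (continuous_abs.comp (continuous_re.sub continuous_const)) continuous_const
    have h2 : IsOpen {P : ℂ | -P.im < C5} := isOpen_lt continuous_im.neg continuous_const
    exact (h1.inter h2).measurableSet
  have hE : ∀ x : ℝ, MeasurableSet (Ereg q d0 kap ∩ bx X C5 x) := fun x =>
    (ereg_meas F hq).inter (hb x)
  have h1 : ∀ j ∈ Finset.range J,
      ∫⁻ P in Ereg q d0 kap ∩ bx X C5 ((j : ℝ) * (2 * X + 3)),
        ∫⁻ t in Ioi (0 : ℝ), enR q R ((j : ℝ) * (2 * X + 3)) P t =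
      ∫⁻ t in Ioi (0 : ℝ), ∫⁻ P in Ereg q d0 kap ∩ bx X C5 ((j : ℝ) * (2 * X + 3)),
        enR q R ((j : ℝ) * (2 * X + 3)) P t := by
    intro j _
    refine lintegral_lintegral_swap ?_
    refine ⟨_, enR_meas F hbd hq R ((j : ℝ) * (2 * X + 3)), ?_⟩
    rw [Measure.prod_restrict]
    refine (ae_restrict_iff' ((hE _).prod measurableSet_Ioi)).2 (Eventually.of_forall ?_)
    rintro ⟨P, t⟩ hPt
    rw [indicator_of_mem (show (P, t) ∈ Ereg q d0 kap ×ˢ Ioi (0 : ℝ) from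
      ⟨hPt.1.1, hPt.2⟩)]
    rfl
  rw [Finset.sum_congr rfl h1]
  refine (Tube2_sum _ _ _).trans ?_
  have h2 : ∀ t ∈ Ioi (0 : ℝ), ∑ j ∈ Finset.range J,
      ∫⁻ P in Ereg q d0 kap ∩ bx X C5 ((j : ℝ) * (2 * X + 3)),
        enR q R ((j : ℝ) * (2 * X + 3)) P t ≤
      ENNReal.ofReal (24 * R * Real.sqrt (C * kap)) *
        ENNReal.ofReal ((1 + t) ^ 4 * Real.exp (-t)) := by
    intro t ht
    have ht0 : 0 < t := ht
    have h3 : ∀ j ∈ Finset.range J,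
        ∫⁻ P in Ereg q d0 kap ∩ bx X C5 ((j : ℝ) * (2 * X + 3)),
          enR q R ((j : ℝ) * (2 * X + 3)) P t =
        ENNReal.ofReal ((1 + t) ^ 4) *
          ∫⁻ P in Ereg q d0 kap ∩ bx X C5 ((j : ℝ) * (2 * X + 3)),
            ENNReal.ofReal (4 * ‖q (tr q P t)‖ * ‖dtr q P t‖ ^ 2) *
            {z : ℂ | |z.re - (j : ℝ) * (2 * X + 3)| ≤ R}.indicator 1 (tr q P t) := by
      intro j _
      rw [← lintegral_const_mul' _ _ ENNReal.ofReal_ne_top]
      refine setLIntegral_congr_fun (hE _) ?_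
      intro P hP
      dsimp only
      by_cases hc : |(tr q P t).re - (j : ℝ) * (2 * X + 3)| ≤ R
      · have e1 : enR q R ((j : ℝ) * (2 * X + 3)) P t = en q P t := by
          rw [enR, indicator_of_mem (show t ∈ {t | |(tr q P t).re -
            (j : ℝ) * (2 * X + 3)| ≤ R} from hc)]
        have e2 : {z : ℂ | |z.re - (j : ℝ) * (2 * X + 3)| ≤ R}.indicator
            (1 : ℂ → ℝ≥0∞) (tr q P t) = 1 := by
          rw [indicator_of_mem (show tr q P t ∈ {z : ℂ | |z.re -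
            (j : ℝ) * (2 * X + 3)| ≤ R} from hc)]
          rfl
        rw [e1, e2, mul_one, en_eq F hq hP.1 ht0.le]
      · have e1 : enR q R ((j : ℝ) * (2 * X + 3)) P t = 0 := by
          rw [enR, indicator_of_notMem (show t ∉ {t | |(tr q P t).re -
            (j : ℝ) * (2 * X + 3)| ≤ R} from hc)]
        have e2 : {z : ℂ | |z.re - (j : ℝ) * (2 * X + 3)| ≤ R}.indicator
            (1 : ℂ → ℝ≥0∞) (tr q P t) = 0 := by
          rw [indicator_of_notMem (show tr q P t ∉ {z : ℂ | |z.re -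
            (j : ℝ) * (2 * X + 3)| ≤ R} from hc)]
        rw [e1, e2, mul_zero, mul_zero]
    rw [Finset.sum_congr rfl h3, ← Finset.mul_sum]
    refine (mul_le_mul_right (tube_fixed F hbd hq hX J hJR ht0) _).trans ?_
    rw [← ENNReal.ofReal_mul (by positivity), ← ENNReal.ofReal_mul (by positivity)]
    refine ENNReal.ofReal_le_ofReal (le_of_eq ?_)
    ring
  refine (setLIntegral_mono' measurableSet_Ioi h2).trans ?_
  rw [lintegral_const_mul' _ _ ENNReal.ofReal_ne_top]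
  refine (mul_le_mul_right int_exp _).trans ?_
  have e65 : (65 : ℝ≥0∞) = ENNReal.ofReal 65 := by simp
  rw [e65, ← ENNReal.ofReal_mul (by positivity)]
  refine ENNReal.ofReal_le_ofReal (le_of_eq ?_)
  ring

end MP_ae5b4e_LD
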